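import Pool.Agent.P.MP_5f4fc7_al.Sh

set_option autoImplicit false

namespace Pool.Agent.P.MP_5f4fc7_al

/-- Pairing of a finitely supported sequence with an arbitrary sequence. -/
noncomputable def pr (w : U) (ψ : ℤ → ZMod 2) : ZMod 2 := w.sum fun i c => c * ψ i

theorem pr_add (w w' : U) (ψ : ℤ → ZMod 2) : pr (w + w') ψ = pr w ψ + pr w' ψ := by
  unfold pr
  rw [Finsupp.sum_add_index']
  · intro i; simp
  · intro i a b; ring

@[simp] theorem pr_zero (ψ : ℤ → ZMod 2) : pr 0 ψ = 0 := by simp [pr]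

theorem pr_single (i : ℤ) (c : ZMod 2) (ψ : ℤ → ZMod 2) : pr (Finsupp.single i c) ψ = c * ψ i := by
  unfold pr
  rw [Finsupp.sum_single_index]; simp

theorem pr_congr (w : U) {ψ ψ' : ℤ → ZMod 2} (h : ∀ i, w i ≠ 0 → ψ i = ψ' i) :
    pr w ψ = pr w ψ' := by
  unfold pr
  apply Finsupp.sum_congr
  intro i hi
  rw [h i (Finsupp.mem_support_iff.mp hi)]

theorem pr_add_right (w : U) (ψ ψ' : ℤ → ZMod 2) :
    pr w (fun i => ψ i + ψ' i) = pr w ψ + pr w ψ' := by
  unfold pr
  rw [← Finsupp.sum_add]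
  apply Finsupp.sum_congr
  intro i _; ring

theorem pr_zero_right (w : U) {ψ : ℤ → ZMod 2} (h : ∀ i, w i ≠ 0 → ψ i = 0) : pr w ψ = 0 := by
  rw [pr_congr w (ψ' := fun _ => 0) h]
  simp [pr]

theorem pr_sh (k : ℤ) (w : U) (ψ : ℤ → ZMod 2) : pr (sh k w) ψ = pr w fun i => ψ (i + k) := by
  induction w using Finsupp.induction_linear with
  | zero => simp
  | add f g hf hg => rw [sh_add, pr_add, pr_add, hf, hg]
  | single i c => rw [sh_single, pr_single, pr_single]

theorem pr_one {w : U} {ψ : ℤ → ZMod 2} (i₀ : ℤ) (h : ∀ i, w i ≠ 0 → i ≠ i₀ → ψ i = 0) :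
    pr w ψ = w i₀ * ψ i₀ := by
  unfold pr
  rw [Finsupp.sum_eq_single i₀]
  · intro i hi hne; rw [h i hi hne, mul_zero]
  · intro _; simp

theorem exists_pw (u v : U) : ∃ w : U, ∀ ψ, pr w ψ = pr v fun i => u i * ψ i := by
  induction v using Finsupp.induction_linear with
  | zero => exact ⟨0, fun ψ => by simp⟩
  | add f g hf hg =>
    obtain ⟨a, ha⟩ := hf
    obtain ⟨b, hb⟩ := hg
    exact ⟨a + b, fun ψ => by rw [pr_add, pr_add, ha, hb]⟩
  | single i c =>
    exact ⟨Finsupp.single i (c * u i), fun ψ => by rw [pr_single, pr_single, mul_assoc]⟩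

/-- All coefficients below `m` vanish. -/
def ge (m : ℤ) (x : U) : Prop := ∀ i, i < m → x i = 0

theorem ge_add {m : ℤ} {x y : U} (hx : ge m x) (hy : ge m y) : ge m (x + y) := fun i hi => by
  simp [hx i hi, hy i hi]

theorem ge_mono {m m' : ℤ} {x : U} (hx : ge m x) (h : m' ≤ m) : ge m' x := fun i hi =>
  hx i (by omega)

theorem ge_zero (m : ℤ) : ge m 0 := fun _ _ => rfl

theorem ge_sh (m k : ℤ) (x : U) : ge m (sh k x) ↔ ge (m - k) x := by
  constructor
  · intro h i hi
    have := h (i + k) (by omega)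
    simpa using this
  · intro h i hi
    rw [sh_apply]; exact h _ (by omega)

theorem ge_add_iff {m : ℤ} {x y : U} (hy : ge m y) : ge m (x + y) ↔ ge m x := by
  refine ⟨fun h => ?_, fun h => ge_add h hy⟩
  have := ge_add h hy
  rwa [add_assoc, U_add_self, add_zero] at this

theorem ge_single (m i : ℤ) (c : ZMod 2) (h : m ≤ i) : ge m (Finsupp.single i c) := fun j hj => by
  rw [Finsupp.single_apply, if_neg (by omega)]

theorem not_ge_single (m i : ℤ) (h : i < m) : ¬ ge m (Finsupp.single i (1 : ZMod 2)) := fun hg => by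
  have := hg i h
  simp at this

theorem exists_bound (u : U) : ∃ R : ℕ, ∀ i, u i ≠ 0 → -(R : ℤ) < i ∧ i < R := by
  refine ⟨u.support.sup (fun i => i.natAbs) + 1, fun i hi => ?_⟩
  have : i.natAbs ≤ u.support.sup (fun i => i.natAbs) :=
    Finset.le_sup (f := fun i : ℤ => i.natAbs) (Finsupp.mem_support_iff.mpr hi)
  omega

theorem exists_ge (u : U) : ∃ m, ge m u := by
  obtain ⟨R, hR⟩ := exists_bound u
  refine ⟨-R, fun i hi => ?_⟩
  by_contra h
  have := (hR i h).1
  omega

open Classical in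
/-- `Φ x i = 1` exactly when the lowest coefficient of `x` sits at `i` minus a positive square. -/
noncomputable def Φ (x : U) (i : ℤ) : ZMod 2 :=
  if ∃ j : ℕ, 1 ≤ j ∧ x (i - (j : ℤ) ^ 2) ≠ 0 ∧ ge (i - (j : ℤ) ^ 2) x then 1 else 0

theorem low_add {m : ℤ} {x y : U} (hx : ¬ ge m x) (hy : ge m y) (n : ℤ) :
    ((x + y) n ≠ 0 ∧ ge n (x + y)) ↔ (x n ≠ 0 ∧ ge n x) := by
  by_cases hn : n < m
  · rw [ge_add_iff (ge_mono hy hn.le)]
    simp [hy n hn]
  · constructor
    · rintro ⟨_, h⟩
      exact absurd ((ge_add_iff hy).mp (ge_mono h (by omega))) hx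
    · rintro ⟨_, h⟩
      exact absurd (ge_mono h (by omega)) hx

theorem Φ_add {m : ℤ} {x y : U} (hx : ¬ ge m x) (hy : ge m y) (i : ℤ) : Φ (x + y) i = Φ x i := by
  unfold Φ
  have : (∃ j : ℕ, 1 ≤ j ∧ (x + y) (i - (j : ℤ) ^ 2) ≠ 0 ∧ ge (i - (j : ℤ) ^ 2) (x + y)) ↔
      (∃ j : ℕ, 1 ≤ j ∧ x (i - (j : ℤ) ^ 2) ≠ 0 ∧ ge (i - (j : ℤ) ^ 2) x) :=
    exists_congr fun j => and_congr_right fun _ => low_add hx hy _
  rw [propext this]

theorem Φ_ge {x : U} {i : ℤ} (h : ge i x) : Φ x i = 0 := by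
  unfold Φ
  rw [if_neg]
  rintro ⟨j, hj, h1, _⟩
  apply h1
  apply h
  have : (1 : ℤ) ≤ j := by exact_mod_cast hj
  nlinarith

theorem Φ_sh (k : ℤ) (x : U) (i : ℤ) : Φ (sh k x) i = Φ x (i - k) := by
  unfold Φ
  have : ∀ j : ℕ, i - (j : ℤ) ^ 2 - k = i - k - (j : ℤ) ^ 2 := fun j => by ring
  have h2 : (∃ j : ℕ, 1 ≤ j ∧ (sh k x) (i - (j : ℤ) ^ 2) ≠ 0 ∧ ge (i - (j : ℤ) ^ 2) (sh k x)) ↔
      (∃ j : ℕ, 1 ≤ j ∧ x (i - k - (j : ℤ) ^ 2) ≠ 0 ∧ ge (i - k - (j : ℤ) ^ 2) x) :=
    exists_congr fun j => and_congr_right fun _ => by rw [sh_apply, ge_sh, this]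
  rw [propext h2]

open Classical in
theorem Φ_single (n i : ℤ) :
    Φ (Finsupp.single n 1) i = if ∃ j : ℕ, 1 ≤ j ∧ i - (j : ℤ) ^ 2 = n then 1 else 0 := by
  unfold Φ
  congr 1
  apply propext
  constructor
  · rintro ⟨j, hj, h1, _⟩
    refine ⟨j, hj, ?_⟩
    by_contra hne
    apply h1
    rw [Finsupp.single_apply, if_neg (fun e => hne e.symm)]
  · rintro ⟨j, hj, h1⟩
    refine ⟨j, hj, ?_, ?_⟩
    · rw [h1]; simp
    · rw [h1]; exact ge_single _ _ _ le_rfl

theorem Φ_inv {M : ℤ} {i : ℤ} (hi : i ≤ M) (x y : U) (hy : ge M y) : Φ (x + y) i = Φ x i := by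
  by_cases hx : ge M x
  · rw [Φ_ge (ge_mono hx hi), Φ_ge (ge_mono (ge_add hx hy) hi)]
  · exact Φ_add hx hy i

/-- Functions on `U` with values in the field with two elements. -/
abbrev F : Type := U → ZMod 2

/-- The radial functions. -/
noncomputable def rad (w : U) : F := fun x => pr w (Φ x)

/-- The derivation. -/
noncomputable def δ (u : U) : F := fun x => pr u fun i => x i * Φ x i

theorem rad_far_zero (w : U) (m : ℤ) : ∃ n, n < m ∧ rad w (Finsupp.single n 1) = 0 := by
  obtain ⟨R, hR⟩ := exists_bound w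
  obtain ⟨j, hj1, hj2⟩ : ∃ j : ℕ, R + 1 ≤ j ∧ -m < j := ⟨R + 1 + m.natAbs, by omega, by omega⟩
  have hj3 : (R : ℤ) + 1 ≤ j := by exact_mod_cast hj1
  have hR0 : (0 : ℤ) ≤ R := Int.natCast_nonneg R
  refine ⟨-((j : ℤ) ^ 2 + j), by nlinarith, ?_⟩
  apply pr_zero_right
  intro i hi
  obtain ⟨h1, h2⟩ := hR i hi
  rw [Φ_single, if_neg]
  rintro ⟨l, _, hl⟩
  have hl0 : (0 : ℤ) ≤ l := Int.natCast_nonneg l
  rcases le_or_gt (l : ℤ) j with h | h
  · nlinarith
  · have : (j : ℤ) + 1 ≤ l := h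
    nlinarith

theorem rad_far_one {w : U} (hw : w ≠ 0) (m : ℤ) :
    ∃ n, n < m ∧ rad w (Finsupp.single n 1) = 1 := by
  obtain ⟨R, hR⟩ := exists_bound w
  obtain ⟨i₀, hi₀⟩ : ∃ i, w i ≠ 0 := by
    by_contra h
    push Not at h
    exact hw (Finsupp.ext h)
  obtain ⟨j, hj1, hj2⟩ : ∃ j : ℕ, 2 * R + 1 ≤ j ∧ R - m < j :=
    ⟨2 * R + 1 + m.natAbs, by omega, by omega⟩
  have hj3 : 2 * (R : ℤ) + 1 ≤ j := by exact_mod_cast hj1
  have hR0 : (0 : ℤ) ≤ R := Int.natCast_nonneg R
  obtain ⟨a1, a2⟩ := hR i₀ hi₀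
  refine ⟨i₀ - (j : ℤ) ^ 2, by nlinarith, ?_⟩
  unfold rad
  rw [pr_one i₀]
  · rw [Φ_single, if_pos ⟨j, by omega, rfl⟩]
    rcases zmod2_cases (w i₀) with h | h
    · exact absurd h hi₀
    · rw [h, mul_one]
  · intro i hi hne
    obtain ⟨h1, h2⟩ := hR i hi
    rw [Φ_single, if_neg]
    rintro ⟨l, _, hl⟩
    have hl0 : (0 : ℤ) ≤ l := Int.natCast_nonneg l
    rcases lt_trichotomy (l : ℤ) j with h | h | h
    · have : (l : ℤ) + 1 ≤ j := h
      nlinarith
    · apply hne; rw [h] at hl; omega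
    · have : (j : ℤ) + 1 ≤ l := h
      nlinarith

/-- Invariance under translations by elements vanishing below `M`. -/
def Inv (M : ℤ) (b : F) : Prop := ∀ x y, ge M y → b (x + y) = b x

/-- Support inside the elements vanishing below `m`. -/
def Supp (m : ℤ) (b : F) : Prop := ∀ x, ¬ ge m x → b x = 0

theorem Inv.mono {M M' : ℤ} {b : F} (h : Inv M b) (hM : M ≤ M') : Inv M' b :=
  fun x y hy => h x y (ge_mono hy hM)

theorem Supp.mono {m m' : ℤ} {b : F} (h : Supp m b) (hm : m' ≤ m) : Supp m' b :=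
  fun x hx => h x fun hg => hx (ge_mono hg hm)

theorem Inv.add {M M' : ℤ} {a b : F} (ha : Inv M a) (hb : Inv M' b) : Inv (max M M') (a + b) :=
  fun x y hy => by
    simp only [Pi.add_apply]
    rw [ha x y (ge_mono hy (le_max_left _ _)), hb x y (ge_mono hy (le_max_right _ _))]

theorem Inv.tr {M : ℤ} {a : F} (ha : Inv M a) (u : U) : Inv M fun x => a (x + u) :=
  fun x y hy => by
    show a (x + y + u) = a (x + u)
    rw [add_right_comm, ha _ _ hy]

theorem Inv.shf {M : ℤ} {a : F} (ha : Inv M a) (k : ℤ) : Inv (M - k) fun x => a (sh k x) :=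
  fun x y hy => by
    show a (sh k (x + y)) = a (sh k x)
    rw [sh_add, ha _ _ ((ge_sh _ _ _).mpr hy)]

theorem inv_rad (w : U) : ∃ M, Inv M (rad w) := by
  obtain ⟨R, hR⟩ := exists_bound w
  exact ⟨R, fun x y hy => pr_congr w fun i hi => Φ_inv (hR i hi).2.le x y hy⟩

theorem inv_δ (w : U) : ∃ M, Inv M (δ w) := by
  obtain ⟨R, hR⟩ := exists_bound w
  refine ⟨R, fun x y hy => pr_congr w fun i hi => ?_⟩
  rw [Φ_inv (hR i hi).2.le x y hy, Finsupp.add_apply, hy i (hR i hi).2, add_zero]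

/-- The simple module: locally constant functions of bounded support. -/
def InB (b : F) : Prop := (∃ M, Inv M b) ∧ ∃ m, Supp m b

theorem InB.zero : InB 0 := ⟨⟨0, fun _ _ _ => rfl⟩, ⟨0, fun _ _ => rfl⟩⟩

theorem InB.add {a b : F} (ha : InB a) (hb : InB b) : InB (a + b) := by
  obtain ⟨⟨M, hM⟩, m, hm⟩ := ha
  obtain ⟨⟨M', hM'⟩, m', hm'⟩ := hb
  refine ⟨⟨_, hM.add hM'⟩, min m m', fun x hx => ?_⟩
  simp only [Pi.add_apply]
  rw [hm.mono (min_le_left _ _) x hx, hm'.mono (min_le_right _ _) x hx, add_zero]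

theorem InB.tr {a : F} (ha : InB a) (u : U) : InB fun x => a (x + u) := by
  obtain ⟨⟨M, hM⟩, m, hm⟩ := ha
  obtain ⟨m', hm'⟩ := exists_ge u
  refine ⟨⟨_, hM.tr u⟩, min m m', fun x hx => ?_⟩
  apply hm.mono (min_le_left m m')
  rwa [ge_add_iff (ge_mono hm' (min_le_right _ _))]

theorem InB.shf {a : F} (ha : InB a) (k : ℤ) : InB fun x => a (sh k x) := by
  obtain ⟨⟨M, hM⟩, m, hm⟩ := ha
  refine ⟨⟨_, hM.shf k⟩, m - k, fun x hx => ?_⟩
  apply hm
  rwa [ge_sh]

theorem F_add_self (a : F) : a + a = 0 := by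
  ext x; simp [CharTwo.add_self_eq_zero]

theorem rad_add (w w' : U) : rad (w + w') = rad w + rad w' := by
  ext x; simp [rad, pr_add]

theorem δ_add (w w' : U) : δ (w + w') = δ w + δ w' := by
  ext x; simp [δ, pr_add]

@[simp] theorem rad_zero : rad 0 = 0 := by
  ext x; simp [rad]

@[simp] theorem δ_zero : δ 0 = 0 := by
  ext x; simp [δ]

theorem rad_sh (k : ℤ) (w : U) (x : U) : rad w (sh (-k) x) = rad (sh k w) x := by
  unfold rad
  rw [pr_sh]
  apply pr_congr
  intro i _
  rw [Φ_sh]; congr 1; ring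

theorem δ_sh (k : ℤ) (w : U) (x : U) : δ w (sh (-k) x) = δ (sh k w) x := by
  unfold δ
  rw [pr_sh]
  apply pr_congr
  intro i _
  rw [Φ_sh, sh_apply]
  simp only [sub_neg_eq_add]

theorem rad_tr (w u : U) : InB ((fun x => rad w (x + u)) + rad w) := by
  obtain ⟨M, hM⟩ := inv_rad w
  obtain ⟨m, hm⟩ := exists_ge u
  refine ⟨⟨_, (hM.tr u).add hM⟩, m, fun x hx => ?_⟩
  have : rad w (x + u) = rad w x := pr_congr w fun i _ => Φ_add hx hm i
  simp only [Pi.add_apply, this, CharTwo.add_self_eq_zero]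

theorem δ_tr_far {v u x : U} {m : ℤ} (hm : ge m u) (hx : ¬ ge m x) :
    δ v (x + u) + δ v x = pr v fun i => u i * Φ x i := by
  unfold δ
  rw [← pr_add_right]
  apply pr_congr
  intro i _
  rw [Φ_add hx hm, Finsupp.add_apply]
  have : (x i + u i) * Φ x i + x i * Φ x i = u i * Φ x i + (x i * Φ x i + x i * Φ x i) := by ring
  rw [this, CharTwo.add_self_eq_zero, add_zero]

theorem δ_tr (v u : U) : ∃ w, InB ((fun x => δ v (x + u)) + δ v + rad w) := by
  obtain ⟨w, hw⟩ := exists_pw u v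
  obtain ⟨M, hM⟩ := inv_δ v
  obtain ⟨M', hM'⟩ := inv_rad w
  obtain ⟨m, hm⟩ := exists_ge u
  refine ⟨w, ⟨_, ((hM.tr u).add hM).add hM'⟩, m, fun x hx => ?_⟩
  simp only [Pi.add_apply]
  rw [δ_tr_far hm hx, rad, hw, CharTwo.add_self_eq_zero]

/-- The module `A`. -/
def InA (a : F) : Prop := ∃ w, InB (a + rad w)

theorem InA.zero : InA 0 := ⟨0, by simpa using InB.zero⟩

theorem InA.add {a b : F} (ha : InA a) (hb : InA b) : InA (a + b) := by
  obtain ⟨w, hw⟩ := ha
  obtain ⟨w', hw'⟩ := hb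
  refine ⟨w + w', ?_⟩
  have := hw.add hw'
  rwa [show a + rad w + (b + rad w') = a + b + rad (w + w') by rw [rad_add]; abel] at this

theorem InB.inA {a : F} (ha : InB a) : InA a := ⟨0, by simpa using ha⟩

theorem InA.tr {a : F} (ha : InA a) (u : U) : InA fun x => a (x + u) := by
  obtain ⟨w, hw⟩ := ha
  refine ⟨w, ?_⟩
  have := (hw.tr u).add (rad_tr w u)
  convert this using 1
  ext x
  simp only [Pi.add_apply]
  have e : a (x + u) + rad w (x + u) + (rad w (x + u) + rad w x)
    = a (x + u) + rad w x + (rad w (x + u) + rad w (x + u)) := by ring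
  rw [e, CharTwo.add_self_eq_zero, add_zero]

theorem InA.shf {a : F} (ha : InA a) (k : ℤ) : InA fun x => a (sh k x) := by
  obtain ⟨w, hw⟩ := ha
  refine ⟨sh (-k) w, ?_⟩
  have := hw.shf k
  convert this using 1
  ext x
  simp only [Pi.add_apply]
  rw [← rad_sh, neg_neg]

theorem InA.inv {a : F} (ha : InA a) : ∃ M, Inv M a := by
  obtain ⟨w, ⟨M, hM⟩, _⟩ := ha
  obtain ⟨M', hM'⟩ := inv_rad w
  have := hM.add hM'
  rw [add_assoc, F_add_self, add_zero] at this
  exact ⟨_, this⟩

theorem δ_tr_A (v u : U) : InA ((fun x => δ v (x + u)) + δ v) := δ_tr v u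

/-- An element of `A` fixed by unboundedly many translations vanishes. -/
theorem InA.fixed {a : F} (ha : InA a) (h : ∀ m, ∃ u, ¬ ge m u ∧ ∀ x, a (x + u) = a x) : a = 0 := by
  obtain ⟨w, _, m₀, hm₀⟩ := ha
  have hconst : ∀ x, a x = a 0 := by
    intro x
    obtain ⟨m, hm⟩ := exists_ge x
    obtain ⟨u, hu, hfix⟩ := h (min m m₀)
    have hx : ge (min m m₀) x := ge_mono hm (min_le_left _ _)
    have h1 : ¬ ge m₀ u := fun hg => hu (ge_mono hg (min_le_right _ _))
    have h2 : ¬ ge m₀ (u + x) := fun hg =>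
      hu ((ge_add_iff hx).mp (ge_mono hg (min_le_right _ _)))
    have e1 := hm₀ u h1
    have e2 := hm₀ (u + x) h2
    have e3 : rad w (u + x) = rad w u := pr_congr w fun i _ => Φ_add hu hx i
    simp only [Pi.add_apply] at e1 e2
    rw [e3, add_comm u x, hfix] at e2
    have e4 := hfix 0
    rw [zero_add] at e4
    rw [e4] at e1
    exact add_right_cancel (e2.trans e1.symm)
  obtain ⟨n, hn, hz⟩ := rad_far_zero w m₀
  have := hm₀ _ (not_ge_single m₀ n hn)
  simp only [Pi.add_apply] at this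
  rw [hz, add_zero, hconst] at this
  ext x
  rw [hconst, this]; rfl

/-- Squares of lifts are nonzero. -/
theorem sq_ne_zero {f : F} {u : U} (hu : u ≠ 0) (hf : InA (f + δ u)) :
    ∃ x, f x + f (x + u) ≠ 0 := by
  obtain ⟨w, _, m₀, hm₀⟩ := hf
  obtain ⟨m, hm⟩ := exists_ge u
  obtain ⟨n, hn, h1⟩ := rad_far_one hu (min m m₀)
  refine ⟨Finsupp.single n 1, ?_⟩
  have hx := not_ge_single _ n hn
  have hu' : ge (min m m₀) u := ge_mono hm (min_le_left _ _)
  have e1 := hm₀.mono (min_le_right m m₀) _ hx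
  have e2 := hm₀.mono (min_le_right m m₀) (Finsupp.single n 1 + u) (by rwa [ge_add_iff hu'])
  have e3 : rad w (Finsupp.single n 1 + u) = rad w (Finsupp.single n 1) :=
    pr_congr w fun i _ => Φ_add hx hu' i
  have e4 := δ_tr_far (v := u) hu' hx
  have e5 : (pr u fun i => u i * Φ (Finsupp.single n 1) i) = rad u (Finsupp.single n 1) := by
    apply pr_congr
    intro i hi
    rcases zmod2_cases (u i) with h | h
    · exact absurd h hi
    · rw [h, one_mul]
  rw [e5, h1] at e4
  simp only [Pi.add_apply] at e1 e2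
  rw [e3] at e2
  intro e
  have : (1 : ZMod 2) = 0 := by
    have two : (2 : ZMod 2) = 0 := rfl
    linear_combination e1 + e2 - e - e4 - rad w (Finsupp.single n 1) * two
  exact absurd this (by decide)

/-- Simplicity of the module `B`. -/
theorem simpleB (J : Set F) (hadd : ∀ a ∈ J, ∀ b ∈ J, a + b ∈ J)
    (htr : ∀ a ∈ J, ∀ u, (fun x => a (x + u)) ∈ J) (hsh : ∀ a ∈ J, ∀ k, (fun x => a (sh k x)) ∈ J)
    (b : F) (hbJ : b ∈ J) (hb : InB b) (hb0 : b ≠ 0) : ∀ c, InB c → c ∈ J := by
  classical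
  have h0 : (0 : F) ∈ J := F_add_self b ▸ hadd b hbJ b hbJ
  have split : ∀ (m : ℤ) (y : U), ge m y → ge (m + 1) y ∨ ge (m + 1) (y + Finsupp.single m 1) := by
    intro m y hy
    rcases zmod2_cases (y m) with h | h
    · left
      intro i hi
      by_cases e : i = m
      · rw [e, h]
      · exact hy i (by omega)
    · right
      intro i hi
      by_cases e : i = m
      · rw [e, Finsupp.add_apply, h, Finsupp.single_eq_same]; rfl
      · rw [Finsupp.add_apply, hy i (by omega), Finsupp.single_apply, if_neg (Ne.symm e), add_zero]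
  have down : ∀ (d : ℕ) (m : ℤ) (b : F), b ∈ J → b ≠ 0 → Supp m b → Inv (m + d) b →
      ∃ b' ∈ J, b' ≠ 0 ∧ Supp m b' ∧ Inv m b' := by
    intro d
    induction d with
    | zero => intro m b h1 h2 h3 h4; exact ⟨b, h1, h2, h3, by simpa using h4⟩
    | succ d ih =>
      intro m b h1 h2 h3 h4
      have step : ∀ c : F, Inv (m + d + 1) c → (∀ x, c (x + Finsupp.single (m + d) 1) = c x) →
          Inv (m + d) c := by
        intro c hc hfix x y hy
        rcases split _ y hy with h | h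
        · exact hc x y h
        · rw [← hfix (x + y), add_assoc]; exact hc x _ h
      have h4' : Inv (m + d + 1) b := by
        rw [show m + d + 1 = m + ((d + 1 : ℕ) : ℤ) by push_cast; ring]; exact h4
      by_cases hfix : ∀ x, b (x + Finsupp.single (m + d) 1) = b x
      · exact ih m b h1 h2 h3 (step b h4' hfix)
      · refine ih m ((fun x => b (x + Finsupp.single (m + d) 1)) + b) (hadd _ (htr b h1 _) _ h1)
          ?_ ?_ (step _ ?_ ?_)
        · intro e
          apply hfix
          intro x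
          have := congrFun e x
          simp only [Pi.add_apply, Pi.zero_apply] at this
          exact CharTwo.add_eq_zero.mp this
        · intro x hx
          simp only [Pi.add_apply]
          rw [h3 x hx, h3 _ (by rwa [ge_add_iff (ge_single _ _ _ (by omega))]), add_zero]
        · simpa using (h4'.tr _).add h4'
        · intro x
          simp only [Pi.add_apply]
          rw [add_assoc, U_add_self, add_zero, add_comm]
  have ind : ∀ (m : ℤ) (b : F), Supp m b → Inv m b →
      b = 0 ∨ b = fun x => if ge m x then 1 else 0 := by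
    intro m b h1 h2
    have e : ∀ x, ge m x → b x = b 0 := fun x hx => by
      have := h2 0 x hx
      rwa [zero_add] at this
    rcases zmod2_cases (b 0) with h | h
    · left
      ext x
      by_cases hx : ge m x
      · rw [e x hx, h]; rfl
      · exact h1 x hx
    · right
      ext x
      by_cases hx : ge m x
      · rw [e x hx, h, if_pos hx]
      · rw [h1 x hx, if_neg hx]
  have ball : ∀ m : ℤ, (fun x => if ge m x then 1 else 0 : F) ∈ J := by
    obtain ⟨⟨M, hM⟩, m, hm⟩ := hb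
    obtain ⟨b', h1, h2, h3, h4⟩ := down (M - m).toNat m b hbJ hb0 hm (hM.mono (by omega))
    rcases ind m b' h3 h4 with h | h
    · exact absurd h h2
    · intro m'
      have := hsh b' h1 (m - m')
      rw [h] at this
      simpa only [ge_sh, sub_sub_cancel] using this
  have up : ∀ (d : ℕ) (m : ℤ) (c : F), Supp m c → Inv (m + d) c → c ∈ J := by
    intro d
    induction d with
    | zero =>
      intro m c h1 h2
      rcases ind m c h1 (by simpa using h2) with h | h
      · rw [h]; exact h0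
      · rw [h]; exact ball m
    | succ d ih =>
      intro m c h1 h2
      have h2' : Inv (m + 1 + d) c := by
        rw [show m + 1 + d = m + ((d + 1 : ℕ) : ℤ) by push_cast; ring]; exact h2
      have cut : ∀ c : F, Inv (m + 1 + d) c →
          (fun x => if ge (m + 1) x then c x else 0 : F) ∈ J := by
        intro c hc
        refine ih (m + 1) _ (fun x hx => if_neg hx) fun x y hy => ?_
        simp only [ge_add_iff (ge_mono hy (show m + 1 ≤ m + 1 + d by omega)), hc x y hy]
      have a1 := cut c h2'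
      have a2 := htr _ (cut _ (h2'.tr (Finsupp.single m 1))) (Finsupp.single m 1)
      have := hadd _ a1 _ a2
      convert this using 1
      ext x
      simp only [Pi.add_apply, add_assoc, U_add_self, add_zero]
      by_cases hx : ge m x
      · by_cases h1x : ge (m + 1) x
        · rw [if_pos h1x, if_neg, add_zero]
          rw [add_comm x, ge_add_iff h1x]
          exact not_ge_single _ _ (by omega)
        · rw [if_neg h1x, if_pos ((split m x hx).resolve_left h1x), zero_add]
      · rw [h1 x hx, ite_self, ite_self, add_zero]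
  rintro c ⟨⟨M, hM⟩, m, hm⟩
  exact up (M - m).toNat m c hm (hM.mono (by omega))

/-- The concrete upper central series for translations by elements of `L`. -/
def Zc (L : Set U) : ℕ → Set F
  | 0 => {0}
  | n + 1 => {f | ∀ u ∈ L, f + (fun x => f (x + u)) ∈ Zc L n}

theorem Zc_zero_mem (L : Set U) (n : ℕ) : (0 : F) ∈ Zc L n := by
  induction n with
  | zero => rfl
  | succ n ih => intro u _; exact (add_zero (0 : F)).symm ▸ ih

theorem Zc_add (L : Set U) (n : ℕ) : ∀ a ∈ Zc L n, ∀ b ∈ Zc L n, a + b ∈ Zc L n := by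
  induction n with
  | zero => intro a ha b hb; rw [Set.mem_singleton_iff.mp ha, Set.mem_singleton_iff.mp hb, add_zero]; rfl
  | succ n ih =>
    intro a ha b hb u hu
    have := ih _ (ha u hu) _ (hb u hu)
    convert this using 1
    ext x; simp only [Pi.add_apply]; ring

theorem Zc_tr (L : Set U) (v : U) (n : ℕ) : ∀ a ∈ Zc L n, (fun x => a (x + v)) ∈ Zc L n := by
  induction n with
  | zero => intro a ha; rw [Set.mem_singleton_iff.mp ha]; rfl
  | succ n ih =>
    intro a ha u hu
    have := ih _ (ha u hu)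
    convert this using 1
    ext x; simp only [Pi.add_apply]; rw [add_right_comm]

theorem Zc_succ (L : Set U) (n : ℕ) : ∀ a ∈ Zc L n, a ∈ Zc L (n + 1) := by
  intro a ha u _
  exact Zc_add L n _ ha _ (Zc_tr L u n a ha)

theorem Zc_mono (L : Set U) {n m : ℕ} (h : n ≤ m) {a : F} (ha : a ∈ Zc L n) : a ∈ Zc L m := by
  induction h with
  | refl => exact ha
  | step _ ih => exact Zc_succ L _ _ ih

theorem Zc_anti {L L' : Set U} (h : L ⊆ L') (n : ℕ) : ∀ a ∈ Zc L' n, a ∈ Zc L n := by
  induction n with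
  | zero => exact fun a ha => ha
  | succ n ih => exact fun a ha u hu => ih _ (ha u (h hu))

theorem Zc_double (L : Set U) (v : U) (n : ℕ) :
    ∀ a ∈ Zc L n, a ∈ Zc {u | u ∈ L ∨ u + v ∈ L} (2 * n) := by
  have fix : ∀ n, ∀ a ∈ Zc L n, (∀ x, a (x + v) = a x) → a ∈ Zc {u | u ∈ L ∨ u + v ∈ L} n := by
    intro n
    induction n with
    | zero => exact fun a ha _ => ha
    | succ n ih =>
      intro a ha hfix u hu
      apply ih
      · rcases hu with hu | hu
        · exact ha u hu
        · have := ha _ hu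
          simpa only [← add_assoc, hfix] using this
      · intro x
        simp only [Pi.add_apply]
        rw [hfix, add_right_comm, hfix]
  induction n with
  | zero => exact fun a ha => ha
  | succ n ih =>
    intro a ha u hu
    show _ ∈ Zc _ (2 * n + 1)
    rcases hu with hu | hu
    · exact Zc_succ _ _ _ (ih _ (ha u hu))
    · have h1 := Zc_succ _ _ _ (ih _ (ha _ hu))
      have h2 : (fun x => a (x + (u + v))) + (fun x => a (x + u)) ∈ Zc L (n + 1) :=
        Zc_add L _ _ (Zc_tr L _ _ a ha) _ (Zc_tr L _ _ a ha)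
      have h3 := fix _ _ h2 (by
        intro x
        simp only [Pi.add_apply]
        rw [show x + v + (u + v) = x + u + (v + v) by abel, U_add_self, add_zero,
          show x + v + u = x + (u + v) by abel, add_comm])
      have h4 := Zc_add _ _ _ h1 _ (Zc_mono _ (show n + 1 ≤ 2 * n + 1 by omega) h3)
      convert h4 using 1
      ext x
      simp only [Pi.add_apply]
      have e : a x + a (x + (u + v)) + (a (x + (u + v)) + a (x + u))
        = a x + a (x + u) + (a (x + (u + v)) + a (x + (u + v))) := by ring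
      rw [e, CharTwo.add_self_eq_zero, add_zero]

theorem Zc_window {M : ℤ} {a : F} (ha : Inv M a) (d : ℕ) : a ∈ Zc {u | ge (M - d) u} (2 ^ d) := by
  induction d with
  | zero =>
    intro u hu
    have hu' : ge M u := by simpa using hu
    show _ = _
    ext x
    simp only [Pi.add_apply, ha x u hu', CharTwo.add_self_eq_zero, Pi.zero_apply]
  | succ d ih =>
    have := Zc_double _ (Finsupp.single (M - (d + 1 : ℕ)) 1) _ _ ih
    rw [pow_succ']
    refine Zc_anti ?_ _ _ this
    intro y hy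
    have hy' : ge (M - (d + 1 : ℕ)) y := hy
    rcases zmod2_cases (y (M - (d + 1 : ℕ))) with h | h
    · left
      intro i hi
      by_cases e : i = M - (d + 1 : ℕ)
      · rw [e, h]
      · exact hy' i (by push_cast at e ⊢; omega)
    · right
      intro i hi
      by_cases e : i = M - (d + 1 : ℕ)
      · rw [e, Finsupp.add_apply, h, Finsupp.single_eq_same]; rfl
      · rw [Finsupp.add_apply, hy' i (by push_cast at e ⊢; omega), Finsupp.single_apply,
          if_neg (Ne.symm e), add_zero]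

end Pool.Agent.P.MP_5f4fc7_al
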