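import Pool.Agent.P.MP_5f4fc7_al.Fn

set_option autoImplicit false

namespace Pool.Agent.P.MP_5f4fc7_al

open scoped commutatorElement

/-- The lamplighter group. -/
@[ext] structure Lamp where
  u : U
  k : ℤ

noncomputable instance : Mul Lamp := ⟨fun a b => ⟨a.u + sh a.k b.u, a.k + b.k⟩⟩
instance : One Lamp := ⟨⟨0, 0⟩⟩
noncomputable instance : _root_.Inv Lamp := ⟨fun a => ⟨sh (-a.k) a.u, -a.k⟩⟩

@[simp] theorem Lamp.mul_u (a b : Lamp) : (a * b).u = a.u + sh a.k b.u := rfl
@[simp] theorem Lamp.mul_k (a b : Lamp) : (a * b).k = a.k + b.k := rfl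
@[simp] theorem Lamp.one_u : (1 : Lamp).u = 0 := rfl
@[simp] theorem Lamp.one_k : (1 : Lamp).k = 0 := rfl
@[simp] theorem Lamp.inv_u (a : Lamp) : (a⁻¹).u = sh (-a.k) a.u := rfl
@[simp] theorem Lamp.inv_k (a : Lamp) : (a⁻¹).k = -a.k := rfl

noncomputable instance : Group Lamp :=
  Group.ofLeftAxioms
    (fun a b c => by
      apply Lamp.ext
      · simp [sh_sh, add_assoc]
      · simp [add_assoc])
    (fun a => by apply Lamp.ext <;> simp)
    (fun a => by apply Lamp.ext <;> simp)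

/-- Degree map of the lamplighter group. -/
noncomputable def Lamp.deg : Lamp →* Multiplicative ℤ where
  toFun a := Multiplicative.ofAdd a.k
  map_one' := rfl
  map_mul' _ _ := rfl

theorem solv_of {G G' : Type*} [Group G] [Group G'] (φ : G →* G') [Group.IsSolvable G']
    (h : ∀ a b, φ a = 1 → φ b = 1 → a * b = b * a) : Group.IsSolvable G := by
  have : Group.IsSolvable φ.ker := Group.isSolvable_of_comm fun a b => Subtype.ext (h _ _ a.2 b.2)
  exact Group.isSolvable_of_ker_le_range φ.ker.subtype φ (by simp)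

instance : Group.IsSolvable Lamp :=
  solv_of Lamp.deg fun a b ha hb => by
    have ha' : a.k = 0 := ha
    have hb' : b.k = 0 := hb
    apply Lamp.ext <;> simp [ha', hb', add_comm]

/-- The ambient semidirect product. -/
@[ext] structure W0 where
  f : F
  u : U
  k : ℤ

noncomputable instance : Mul W0 :=
  ⟨fun a b => ⟨fun x => a.f x + b.f (sh (-a.k) (x + a.u)), a.u + sh a.k b.u, a.k + b.k⟩⟩
instance : One W0 := ⟨⟨0, 0, 0⟩⟩
noncomputable instance : _root_.Inv W0 :=
  ⟨fun a => ⟨fun x => a.f (sh a.k x + a.u), sh (-a.k) a.u, -a.k⟩⟩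

@[simp] theorem W0.mul_f (a b : W0) (x : U) :
    (a * b).f x = a.f x + b.f (sh (-a.k) (x + a.u)) := rfl
@[simp] theorem W0.mul_u (a b : W0) : (a * b).u = a.u + sh a.k b.u := rfl
@[simp] theorem W0.mul_k (a b : W0) : (a * b).k = a.k + b.k := rfl
@[simp] theorem W0.one_f : (1 : W0).f = 0 := rfl
@[simp] theorem W0.one_u : (1 : W0).u = 0 := rfl
@[simp] theorem W0.one_k : (1 : W0).k = 0 := rfl
@[simp] theorem W0.inv_f (a : W0) (x : U) : (a⁻¹).f x = a.f (sh a.k x + a.u) := rfl
@[simp] theorem W0.inv_u (a : W0) : (a⁻¹).u = sh (-a.k) a.u := rfl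
@[simp] theorem W0.inv_k (a : W0) : (a⁻¹).k = -a.k := rfl

noncomputable instance : Group W0 :=
  Group.ofLeftAxioms
    (fun a b c => by
      apply W0.ext
      · funext x
        have e : -(a.k + b.k) + a.k = -b.k := by ring
        have e2 : -b.k + -a.k = -(a.k + b.k) := by ring
        simp only [W0.mul_f, W0.mul_u, W0.mul_k, sh_add, sh_sh, add_assoc, e, e2]
      · simp [sh_sh, add_assoc]
      · simp [add_assoc])
    (fun a => by
      apply W0.ext
      · funext x; simp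
      · simp
      · simp)
    (fun a => by
      apply W0.ext
      · funext x; simp [sh_sh, CharTwo.add_self_eq_zero]
      · simp
      · simp)

/-- Projection to the lamplighter group. -/
noncomputable def W0.toLamp : W0 →* Lamp where
  toFun a := ⟨a.u, a.k⟩
  map_one' := rfl
  map_mul' _ _ := rfl

instance : Group.IsSolvable W0 :=
  solv_of W0.toLamp fun a b ha hb => by
    have h1 : a.u = 0 := congrArg Lamp.u ha
    have h2 : a.k = 0 := congrArg Lamp.k ha
    have h3 : b.u = 0 := congrArg Lamp.u hb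
    have h4 : b.k = 0 := congrArg Lamp.k hb
    apply W0.ext
    · funext x; simp [h1, h2, h3, h4, add_comm]
    · simp [h1, h2, h3, h4]
    · simp [h2, h4]

theorem two0 : (2 : ZMod 2) = 0 := rfl

/-- The first group. -/
noncomputable def G0 : Subgroup W0 where
  carrier := {g | InA (g.f + δ g.u)}
  one_mem' := by simpa using InA.zero
  mul_mem' := by
    intro a b ha hb
    have h1 : InA (a.f + δ a.u) := ha
    have h2 : InA (b.f + δ b.u) := hb
    have h3 := (h2.shf (-a.k)).tr a.u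
    have h4 := δ_tr_A (sh a.k b.u) a.u
    have h5 := (h1.add h3).add h4
    show InA _
    have e : (a * b).f + δ (a * b).u = (a.f + δ a.u + fun x => (fun x => (b.f + δ b.u) (sh (-a.k) x))
        (x + a.u)) + ((fun x => δ (sh a.k b.u) (x + a.u)) + δ (sh a.k b.u)) := by
      funext x
      simp only [Pi.add_apply, W0.mul_f, W0.mul_u, δ_add, δ_sh]
      linear_combination (-(δ (sh a.k b.u) (x + a.u))) * two0
    rw [e]; exact h5
  inv_mem' := by
    intro a ha
    have h1 : InA (a.f + δ a.u) := ha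
    have h3 := (h1.tr a.u).shf a.k
    have h4 := (δ_tr_A a.u a.u).shf a.k
    have h5 := h3.add h4
    show InA _
    have e : (a⁻¹).f + δ (a⁻¹).u = (fun x => (fun x => (a.f + δ a.u) (x + a.u)) (sh a.k x)) +
        fun x => ((fun x => δ a.u (x + a.u)) + δ a.u) (sh a.k x) := by
      funext x
      have := δ_sh (-a.k) a.u x
      rw [neg_neg] at this
      simp only [Pi.add_apply, W0.inv_f, W0.inv_u, this]
      linear_combination (-(δ a.u (sh a.k x + a.u))) * two0
    rw [e]; exact h5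

/-- Degree map of the first group. -/
noncomputable def κ0 : G0 →* Multiplicative ℤ where
  toFun a := Multiplicative.ofAdd a.1.k
  map_one' := rfl
  map_mul' _ _ := rfl

/-- Lift of a translation. -/
noncomputable def lift0 (u : U) : G0 := ⟨⟨δ u, u, 0⟩, by
  show InA (δ u + δ u)
  rw [F_add_self]; exact InA.zero⟩

/-- Lift of a shift. -/
noncomputable def t0 (k : ℤ) : G0 := ⟨⟨0, 0, k⟩, by
  show InA (0 + δ 0)
  simpa using InA.zero⟩

/-- Elements of the module. -/
noncomputable def emb0 (a : F) (ha : InA a) : G0 := ⟨⟨a, 0, 0⟩, by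
  show InA (a + δ 0)
  simpa using ha⟩

theorem κ0_surj : Function.Surjective κ0 := fun k => ⟨t0 k.toAdd, rfl⟩

theorem G0_ext {a b : G0} (h1 : ∀ x, a.1.f x = b.1.f x) (h2 : a.1.u = b.1.u) (h3 : a.1.k = b.1.k) :
    a = b := Subtype.ext (W0.ext (funext h1) h2 h3)

/-- The abelian normal subgroup. -/
noncomputable def X0 : Subgroup G0 := (W0.toLamp.comp G0.subtype).ker

theorem mem_X0 (a : G0) : a ∈ X0 ↔ a.1.u = 0 ∧ a.1.k = 0 := by
  constructor
  · intro h
    exact ⟨congrArg Lamp.u h, congrArg Lamp.k h⟩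
  · rintro ⟨h1, h2⟩
    exact Lamp.ext h1 h2

theorem X0_normal : X0.Normal := MonoidHom.normal_ker _

theorem X0_comm : ∀ a ∈ X0, ∀ b ∈ X0, a * b = b * a := by
  intro a ha b hb
  obtain ⟨h1, h2⟩ := (mem_X0 a).mp ha
  obtain ⟨h3, h4⟩ := (mem_X0 b).mp hb
  apply G0_ext
  · intro x; simp [h1, h2, h3, h4, add_comm]
  · simp [h1, h2, h3, h4]
  · simp [h2, h4]

theorem X0_inA {a : G0} (ha : a ∈ X0) : InA a.1.f := by
  have h : InA (a.1.f + δ a.1.u) := a.2
  rwa [((mem_X0 a).mp ha).1, δ_zero, add_zero] at h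

theorem conj_f {a : G0} (ha : a ∈ X0) (g : G0) (x : U) :
    (g * a * g⁻¹).1.f x = a.1.f (sh (-g.1.k) (x + g.1.u)) := by
  obtain ⟨h1, h2⟩ := (mem_X0 a).mp ha
  simp only [Subgroup.coe_mul, Subgroup.coe_inv, W0.mul_f, W0.inv_f, W0.mul_u, W0.mul_k, h1, h2,
    sh_zero, add_zero, sh_sh, add_neg_cancel, sh_zero', add_assoc, U_add_self]
  linear_combination (g.1.f x) * two0

theorem comm_f {a h : G0} (ha : a ∈ X0) (hk : h.1.k = 0) :
    (⁅a, h⁆ : G0).1.f = a.1.f + fun x => a.1.f (x + h.1.u) := by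
  obtain ⟨h1, h2⟩ := (mem_X0 a).mp ha
  funext x
  have e : ⁅a, h⁆ = a * (h * a⁻¹ * h⁻¹) := by rw [commutatorElement_def]; group
  rw [e, Subgroup.coe_mul, W0.mul_f, conj_f (X0.inv_mem ha)]
  simp [h1, h2, hk]

theorem bridge0 (H : Subgroup G0) (hH : ∀ h ∈ H, h.1.k = 0) (n : ℕ) :
    ∀ a ∈ X0, (a ∈ Zs X0 H n ↔ a.1.f ∈ Zc {u | ∃ h ∈ H, h.1.u = u} n) := by
  induction n with
  | zero =>
    intro a ha
    obtain ⟨h1, h2⟩ := (mem_X0 a).mp ha
    constructor
    · intro h; rw [(Zs_zero H a).mp h]; rfl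
    · intro h
      have h' : a.1.f = 0 := h
      exact G0_ext (fun x => by rw [h']; rfl) h1 h2
  | succ n ih =>
    intro a ha
    constructor
    · rintro h u ⟨g, hg, rfl⟩
      have := (ih _ (comm_mem X0_normal ha g)).mp (h.2 g hg)
      rwa [comm_f ha (hH g hg)] at this
    · intro h
      refine ⟨ha, fun g hg => (ih _ (comm_mem X0_normal ha g)).mpr ?_⟩
      rw [comm_f ha (hH g hg)]
      exact h _ ⟨g, hg, rfl⟩

theorem prop0 (H : Subgroup G0) (hN : Nil H) (hH : ∀ h ∈ H, κ0 h = 1) :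
    ∃ K : Subgroup G0, Nil K ∧ H < K ∧ ∀ k ∈ K, κ0 k = 1 := by
  have hk : ∀ h ∈ H, h.1.k = 0 := hH
  by_cases hb : ∃ m, ∀ h ∈ H, ge m h.1.u
  · obtain ⟨m, hm⟩ := hb
    rcases key X0_normal X0_comm H hN with ⟨K, h1, h2, h3⟩ | ⟨c, hc⟩
    · refine ⟨K, h1, h2, fun g hg => ?_⟩
      obtain ⟨h, hh, hX⟩ := h3 g hg
      have e := ((mem_X0 _).mp hX).2
      simp only [Subgroup.coe_mul, Subgroup.coe_inv, W0.mul_k, W0.inv_k, hk h hh] at e
      show Multiplicative.ofAdd g.1.k = 1
      rw [show g.1.k = 0 by omega]; rfl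
    · have hall : ∀ a ∈ X0, a.1.f ∈ Zc {u | ∃ h ∈ H, h.1.u = u} c := by
        intro a ha
        obtain ⟨M, hM⟩ := (X0_inA ha).inv
        rw [← bridge0 H hk c a ha]
        apply hc (2 ^ (M - m).toNat)
        rw [bridge0 H hk _ a ha]
        refine Zc_anti ?_ _ _ (Zc_window hM (M - m).toNat)
        rintro u ⟨h, hh, rfl⟩
        exact ge_mono (hm h hh) (by omega)
      let v : U := Finsupp.single (m - 1) 1
      let K : Subgroup G0 :=
        { carrier := {g | g.1.k = 0 ∧ ((∃ h ∈ H, h.1.u = g.1.u) ∨ ∃ h ∈ H, h.1.u = g.1.u + v)}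
          one_mem' := ⟨rfl, Or.inl ⟨1, H.one_mem, rfl⟩⟩
          mul_mem' := by
            rintro a b ⟨a1, a2⟩ ⟨b1, b2⟩
            refine ⟨by simp [a1, b1], ?_⟩
            rcases a2 with ⟨h, hh, e⟩ | ⟨h, hh, e⟩ <;> rcases b2 with ⟨h', hh', e'⟩ | ⟨h', hh', e'⟩
            · exact Or.inl ⟨h * h', H.mul_mem hh hh', by simp [e, e', a1, hk h hh]⟩
            · exact Or.inr ⟨h * h', H.mul_mem hh hh', by simp [e, e', a1, hk h hh, add_assoc]⟩
            · refine Or.inr ⟨h * h', H.mul_mem hh hh', ?_⟩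
              simp only [Subgroup.coe_mul, W0.mul_u, e, e', a1, hk h hh, sh_zero']
              abel
            · refine Or.inl ⟨h * h', H.mul_mem hh hh', ?_⟩
              simp only [Subgroup.coe_mul, W0.mul_u, e, e', a1, hk h hh, sh_zero']
              rw [show a.1.u + v + (b.1.u + v) = a.1.u + b.1.u + (v + v) by abel, U_add_self,
                add_zero]
          inv_mem' := by
            rintro a ⟨a1, a2⟩
            refine ⟨by simp [a1], ?_⟩
            simpa [a1] using a2 }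
      have hKk : ∀ g ∈ K, g.1.k = 0 := fun g hg => hg.1
      refine ⟨K, ?_, ?_, fun g hg => ?_⟩
      · refine nil_of X0_normal X0_comm K 1 (2 * c) ?_ ?_
        · have : K.lowerCentralSeries 1 ≤ X0 := by
            rw [Subgroup.lowerCentralSeries_succ, Subgroup.lowerCentralSeries_zero,
              Subgroup.commutator_le]
            intro a ha b hb
            rw [mem_X0, commutatorElement_def]
            simp only [Subgroup.coe_mul, Subgroup.coe_inv, W0.mul_u, W0.mul_k, W0.inv_u, W0.inv_k,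
              hKk a ha, hKk b hb, neg_zero, add_zero, sh_zero', and_true]
            rw [show a.1.u + b.1.u + a.1.u + b.1.u = (a.1.u + a.1.u) + (b.1.u + b.1.u) by abel,
              U_add_self, U_add_self, add_zero]
          exact fun x hx => this hx
        · intro a _ ha
          rw [bridge0 K hKk _ a ha]
          refine Zc_anti ?_ _ _ (Zc_double _ v c _ (hall a ha))
          rintro u ⟨g, hg, rfl⟩
          exact hg.2
      · refine lt_of_le_of_ne (fun h hh => ⟨hk h hh, Or.inl ⟨h, hh, rfl⟩⟩) fun e => ?_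
        have : lift0 v ∈ K := ⟨rfl, Or.inr ⟨1, H.one_mem, (U_add_self v).symm⟩⟩
        rw [← e] at this
        exact not_ge_single m (m - 1) (by omega) (hm _ this)
      · show Multiplicative.ofAdd g.1.k = 1
        rw [hKk g hg]; rfl
  · exfalso
    push Not at hb
    obtain ⟨c, hc⟩ := hN
    have triv : ∀ a ∈ X0, (∀ h ∈ H, ⁅a, h⁆ = 1) → a = 1 := by
      intro a ha hfix
      obtain ⟨h1, h2⟩ := (mem_X0 a).mp ha
      have : a.1.f = 0 := by
        apply (X0_inA ha).fixed
        intro m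
        obtain ⟨h, hh, hm⟩ := hb m
        refine ⟨h.1.u, hm, fun x => ?_⟩
        have e := comm_f ha (hk h hh)
        rw [hfix h hh] at e
        have := congrFun e x
        simp only [Subgroup.coe_one, W0.one_f, Pi.zero_apply, Pi.add_apply] at this
        exact (CharTwo.add_eq_zero.mp this.symm).symm
      exact G0_ext (fun x => by rw [this]; rfl) h1 h2
    obtain ⟨h, hh, hm⟩ := hb 0
    have hu : h.1.u ≠ 0 := fun e => hm (e ▸ ge_zero 0)
    have hX : h * h ∈ X0 := by
      rw [mem_X0]; simp [hk h hh]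
    have h1 := Zs_trivial H triv c _
      (inter_sub_Zs X0_normal H c hc c 0 (by omega) _ (H.mul_mem hh hh) hX)
    obtain ⟨x, hx⟩ := sq_ne_zero hu h.2
    apply hx
    have := congrArg (fun g : G0 => g.1.f x) h1
    simpa [hk h hh] using this

theorem acc0 : ACC (Set.univ : Set G0) := by
  have aB : ACC {g : G0 | g ∈ X0 ∧ InB g.1.f} := by
    apply acc_simple
    rintro P hP x hx ⟨hxX, hxB⟩ hx1 y ⟨hyX, hyB⟩
    have hne : x.1.f ≠ 0 := fun e => hx1
      (G0_ext (fun z => by rw [e]; rfl) ((mem_X0 x).mp hxX).1 ((mem_X0 x).mp hxX).2)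
    have := simpleB {b | ∃ g ∈ P, g ∈ X0 ∧ g.1.f = b} (by
        rintro _ ⟨g, hg, hgX, rfl⟩ _ ⟨g', hg', hgX', rfl⟩
        refine ⟨g * g', P.mul_mem hg hg', X0.mul_mem hgX hgX', funext fun z => ?_⟩
        simp [((mem_X0 g).mp hgX).1, ((mem_X0 g).mp hgX).2]) (by
        rintro _ ⟨g, hg, hgX, rfl⟩ u
        refine ⟨_, hP.conj_mem g hg (lift0 u), X0_normal.conj_mem g hgX _, funext fun z => ?_⟩
        rw [conj_f hgX]; simp [lift0]) (by
        rintro _ ⟨g, hg, hgX, rfl⟩ k
        refine ⟨_, hP.conj_mem g hg (t0 (-k)), X0_normal.conj_mem g hgX _, funext fun z => ?_⟩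
        rw [conj_f hgX]; simp [t0]) x.1.f ⟨x, hx, hxX, rfl⟩ hxB hne y.1.f hyB
    obtain ⟨g, hg, hgX, e⟩ := this
    have : g = y := G0_ext (fun z => by rw [e])
      (by rw [((mem_X0 g).mp hgX).1, ((mem_X0 y).mp hyX).1])
      (by rw [((mem_X0 g).mp hgX).2, ((mem_X0 y).mp hyX).2])
    rwa [← this]
  have aA : ACC {g : G0 | g ∈ X0} := by
    refine acc_U _ _ (fun g w => g ∈ X0 ∧ InB (g.1.f + rad w)) ?_ ?_ ?_ ?_ ?_ aB
    · intro x hx
      obtain ⟨w, hw⟩ := X0_inA hx
      exact ⟨w, hx, hw⟩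
    · exact ⟨X0.one_mem, by simpa using InB.zero⟩
    · rintro x y u v ⟨hx, hu⟩ ⟨hy, hv⟩
      refine ⟨X0.mul_mem hx hy, ?_⟩
      have e : (x * y).1.f + rad (u + v) = (x.1.f + rad u) + (y.1.f + rad v) := by
        funext z
        simp only [Pi.add_apply, Subgroup.coe_mul, W0.mul_f, ((mem_X0 x).mp hx).1,
          ((mem_X0 x).mp hx).2, neg_zero, add_zero, sh_zero', rad_add]
        ring
      rw [e]; exact hu.add hv
    · rintro x u k ⟨hx, hu⟩
      refine ⟨t0 k, X0_normal.conj_mem x hx _, ?_⟩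
      have e : (t0 k * x * (t0 k)⁻¹).1.f + rad (sh k u)
          = fun z => (x.1.f + rad u) (sh (-k) z) := by
        funext z
        simp only [Pi.add_apply]
        rw [conj_f hx, rad_sh]; simp [t0]
      rw [e]; exact hu.shf _
    · rintro x y u ⟨hx, hu⟩ ⟨hy, hv⟩
      refine ⟨X0.mul_mem hx (X0.inv_mem hy), ?_⟩
      have e : (x * y⁻¹).1.f = (x.1.f + rad u) + (y.1.f + rad u) := by
        funext z
        simp only [Pi.add_apply, Subgroup.coe_mul, Subgroup.coe_inv, W0.mul_f, W0.inv_f,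
          ((mem_X0 x).mp hx).1, ((mem_X0 x).mp hx).2, ((mem_X0 y).mp hy).1, ((mem_X0 y).mp hy).2,
          neg_zero, add_zero, sh_zero']
        linear_combination (-(rad u z)) * two0
      rw [e]; exact hu.add hv
  have aN : ACC {g : G0 | κ0 g = 1} := by
    refine acc_U _ _ (fun g w => g.1.k = 0 ∧ g.1.u = w) ?_ ?_ ?_ ?_ ?_ aA
    · intro x hx
      exact ⟨_, hx, rfl⟩
    · exact ⟨rfl, rfl⟩
    · rintro x y u v ⟨hx, rfl⟩ ⟨hy, rfl⟩
      simp [hx, hy]
    · rintro x u k ⟨hx, rfl⟩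
      exact ⟨t0 k, by simp [hx, t0]⟩
    · rintro x y u ⟨hx, hu⟩ ⟨hy, hv⟩
      show x * y⁻¹ ∈ X0
      rw [mem_X0]
      simp [hx, hy, hu, hv]
  exact acc_Z κ0 aN

end Pool.Agent.P.MP_5f4fc7_al
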