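import Pool.Agent.P.MP_5f4fc7_al.Fn

set_option autoImplicit false

namespace Pool.Agent.P.MP_5f4fc7_al

/-- Block lengths of the successive substitutions. -/
def r (j : ℕ) : ℤ := 6 * ((j : ℤ) + 1)

theorem r_ge (j : ℕ) : 6 ≤ r j := by
  unfold r
  have : (0 : ℤ) ≤ j := Int.natCast_nonneg j
  omega

theorem dec_aux (j : ℕ) (n : ℤ) (h1 : ¬ n % r j < 2) (h2 : n % r j < 4) :
    (n / r j).natAbs < n.natAbs := by
  have hr := r_ge j
  have e := Int.mul_ediv_add_emod n (r j)
  rcases le_or_gt 0 (n / r j) with h | h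
  · have : 6 * (n / r j) ≤ r j * (n / r j) := by nlinarith
    omega
  · have : r j * (n / r j) ≤ 6 * (n / r j) := by nlinarith
    omega

/-- The Toeplitz sequences. -/
def s (j : ℕ) (n : ℤ) : ZMod 2 :=
  if _h1 : n % r j < 2 then 0 else if _h2 : n % r j < 4 then s (j + 1) (n / r j) else 1
termination_by n.natAbs
decreasing_by exact dec_aux j n _h1 _h2

theorem s_eq (j : ℕ) (a σ : ℤ) (h0 : 0 ≤ σ) (h1 : σ < r j) :
    s j (r j * a + σ) = if σ < 2 then 0 else if σ < 4 then s (j + 1) a else 1 := by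
  have hr := r_ge j
  have e1 : (r j * a + σ) % r j = σ := by
    rw [Int.mul_add_emod_self_left, Int.emod_eq_of_lt h0 h1]
  have e2 : (r j * a + σ) / r j = a := by
    rw [add_comm, Int.add_mul_ediv_left _ _ (by omega), Int.ediv_eq_zero_of_lt h0 h1, zero_add]
  rw [s, e1, e2]
  simp only [dite_eq_ite]

theorem decomp (n b : ℤ) (hb : 0 < b) : ∃ a σ, n = b * a + σ ∧ 0 ≤ σ ∧ σ < b :=
  ⟨n / b, n % b, (Int.mul_ediv_add_emod n b).symm, Int.emod_nonneg _ hb.ne', Int.emod_lt_of_pos _ hb⟩

theorem s_toe (N : ℕ) : ∀ (j : ℕ) (n : ℤ), n.natAbs < N →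
    ∃ P : ℤ, 0 < P ∧ ∀ t, s j (n + P * t) = s j n := by
  induction N with
  | zero => intro j n h; omega
  | succ N ih =>
    intro j n hn
    have hr := r_ge j
    have e := Int.mul_ediv_add_emod n (r j)
    have h0 := Int.emod_nonneg n (show r j ≠ 0 by omega)
    have h1 := Int.emod_lt_of_pos n (show 0 < r j by omega)
    by_cases hc : ¬ n % r j < 2 ∧ n % r j < 4
    · obtain ⟨P, hP, h⟩ := ih (j + 1) (n / r j) (by have := dec_aux j n hc.1 hc.2; omega)
      refine ⟨r j * P, by positivity, fun t => ?_⟩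
      have e' : n + r j * P * t = r j * (n / r j + P * t) + n % r j := by linear_combination -e
      rw [e', s_eq j _ _ h0 h1, h]
      conv_rhs => rw [← e, s_eq j _ _ h0 h1]
    · refine ⟨r j, by omega, fun t => ?_⟩
      have e' : n + r j * t = r j * (n / r j + t) + n % r j := by linear_combination -e
      rw [e', s_eq j _ _ h0 h1]
      conv_rhs => rw [← e, s_eq j _ _ h0 h1]
      by_cases h2 : n % r j < 2
      · rw [if_pos h2, if_pos h2]
      · rw [if_neg h2, if_neg h2, if_neg (fun h => hc ⟨h2, h⟩), if_neg (fun h => hc ⟨h2, h⟩)]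

theorem s_pair (j : ℕ) (q : ℤ) : s j (2 * q + 1) = s j (2 * q) := by
  have hr := r_ge j
  obtain ⟨a, σ, e, h0, h1⟩ := decomp (2 * q) (r j) (by omega)
  have e2 : r j * a = 6 * (((j : ℤ) + 1) * a) := by unfold r; ring
  have e3 : r j = 6 * ((j : ℤ) + 1) := rfl
  have h2 : σ + 1 < r j := by omega
  rw [e, add_assoc, s_eq j _ _ (by omega) h2, s_eq j _ _ h0 h1]
  by_cases c1 : σ < 2
  · rw [if_pos c1, if_pos (by omega)]
  · rw [if_neg c1, if_neg (by omega)]
    by_cases c2 : σ < 4
    · rw [if_pos c2, if_pos (by omega)]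
    · rw [if_neg c2, if_neg (by omega)]

theorem s_mark (j : ℕ) (n : ℤ) : (s j (n - 1) = 1 ∧ s j n = 0) ↔ r j ∣ n := by
  have hr := r_ge j
  obtain ⟨a, σ, rfl, h0, h1⟩ := decomp n (r j) (by omega)
  constructor
  · rintro ⟨e1, e2⟩
    by_cases hσ : σ = 0
    · rw [hσ, add_zero]; exact Dvd.intro _ rfl
    · exfalso
      rw [add_sub_assoc, s_eq j _ _ (by omega) (by omega)] at e1
      rw [s_eq j _ _ h0 h1] at e2
      by_cases c1 : σ - 1 < 2
      · rw [if_pos c1] at e1; exact absurd e1 (by decide)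
      · rw [if_neg c1] at e1
        rw [if_neg (by omega)] at e2
        by_cases c2 : σ < 4
        · rw [if_pos c2] at e2
          rw [if_pos (by omega), e2] at e1
          exact absurd e1 (by decide)
        · rw [if_neg c2] at e2; exact absurd e2 (by decide)
  · intro hd
    have hσ : σ = 0 := by
      have : r j ∣ σ := (dvd_add_right (Dvd.intro _ rfl)).mp hd
      exact Int.eq_zero_of_dvd_of_nonneg_of_lt h0 h1 this
    subst hσ
    constructor
    · rw [show r j * a + 0 - 1 = r j * (a - 1) + (r j - 1) by ring,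
        s_eq j _ _ (by omega) (by omega), if_neg (by omega), if_neg (by omega)]
    · rw [s_eq j _ _ h0 h1, if_pos (by omega)]

/-- Periods. -/
def NN : ℕ → ℤ
  | 0 => 1
  | j + 1 => NN j * r j

theorem NN_pos (j : ℕ) : 0 < NN j := by
  induction j with
  | zero => exact one_pos
  | succ j ih => have := r_ge j; exact mul_pos ih (by omega)

theorem dvd_NN (P : ℤ) (hP : 0 < P) : ∃ j, P ∣ NN j := by
  refine ⟨(P - 1).toNat + 1, Dvd.dvd.mul_left ⟨6, ?_⟩ _⟩
  unfold r
  rw [Int.toNat_of_nonneg (by omega)]; ring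

theorem s_blk (j : ℕ) : ∀ a a' ρ : ℤ, 0 ≤ ρ → ρ < NN j → s j a = s j a' →
    s 0 (NN j * a + ρ) = s 0 (NN j * a' + ρ) := by
  induction j with
  | zero =>
    intro a a' ρ h0 h1 h
    have : ρ = 0 := by simp only [NN] at h1; omega
    simpa [NN, this] using h
  | succ j ih =>
    intro a a' ρ h0 h1 h
    have hN := NN_pos j
    obtain ⟨σ, ρ', rfl, g0, g1⟩ := decomp ρ (NN j) hN
    have hσ0 : 0 ≤ σ := by
      by_contra hh
      have : σ ≤ -1 := by omega
      nlinarith
    have hσ1 : σ < r j := by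
      by_contra hh
      have : r j ≤ σ := by omega
      simp only [NN] at h1
      nlinarith
    have := ih (r j * a + σ) (r j * a' + σ) ρ' g0 g1 (by
      rw [s_eq j _ _ hσ0 hσ1, s_eq j _ _ hσ0 hσ1, h])
    simp only [NN]
    rw [show NN j * r j * a + (NN j * σ + ρ') = NN j * (r j * a + σ) + ρ' by ring,
      show NN j * r j * a' + (NN j * σ + ρ') = NN j * (r j * a' + σ) + ρ' by ring, this]

/-- The sign character. -/
def χ (c : ZMod 2) : ZMod 3 := if c = 0 then 1 else -1

theorem χ_add (a b : ZMod 2) : χ (a + b) = χ a * χ b := by revert a b; decide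
theorem χ_zero : χ 0 = 1 := rfl
theorem χ_ne (a : ZMod 2) : χ a ≠ 0 := by revert a; decide

/-- The ring generated by the shifts of the sign sequence. -/
def A1 : Subring (ℤ → ZMod 3) := Subring.closure {f | ∃ i, f = fun m => χ (s 0 (m - i))}

theorem A1_gen (i : ℤ) : (fun m => χ (s 0 (m - i))) ∈ A1 := Subring.subset_closure ⟨i, rfl⟩

theorem A1_shift {a : ℤ → ZMod 3} (ha : a ∈ A1) (k : ℤ) : (fun m => a (m - k)) ∈ A1 := by
  induction ha using Subring.closure_induction with
  | mem x hx =>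
    obtain ⟨i, rfl⟩ := hx
    have := A1_gen (k + i)
    simpa only [sub_sub] using this
  | zero => exact A1.zero_mem
  | one => exact A1.one_mem
  | add x y _ _ hx hy => exact A1.add_mem hx hy
  | neg x _ hx => exact A1.neg_mem hx
  | mul x y _ _ hx hy => exact A1.mul_mem hx hy

theorem A1_toe {a : ℤ → ZMod 3} (ha : a ∈ A1) (m : ℤ) :
    ∃ P : ℤ, 0 < P ∧ ∀ t, a (m + P * t) = a m := by
  induction ha using Subring.closure_induction with
  | mem x hx =>
    obtain ⟨i, rfl⟩ := hx
    obtain ⟨P, hP, h⟩ := s_toe _ 0 (m - i) (Nat.lt_succ_self _)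
    refine ⟨P, hP, fun t => ?_⟩
    show χ (s 0 (m + P * t - i)) = χ (s 0 (m - i))
    rw [← h t]; congr 2; ring
  | zero => exact ⟨1, one_pos, fun _ => rfl⟩
  | one => exact ⟨1, one_pos, fun _ => rfl⟩
  | add x y _ _ hx hy =>
    obtain ⟨P, hP, h⟩ := hx
    obtain ⟨Q, hQ, h'⟩ := hy
    refine ⟨P * Q, mul_pos hP hQ, fun t => ?_⟩
    simp only [Pi.add_apply]
    rw [show x (m + P * Q * t) = x m by rw [mul_assoc, h],
      show y (m + P * Q * t) = y m by rw [mul_comm P Q, mul_assoc, h']]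
  | neg x _ hx =>
    obtain ⟨P, hP, h⟩ := hx
    exact ⟨P, hP, fun t => by simp only [Pi.neg_apply, h]⟩
  | mul x y _ _ hx hy =>
    obtain ⟨P, hP, h⟩ := hx
    obtain ⟨Q, hQ, h'⟩ := hy
    refine ⟨P * Q, mul_pos hP hQ, fun t => ?_⟩
    simp only [Pi.mul_apply]
    rw [show x (m + P * Q * t) = x m by rw [mul_assoc, h],
      show y (m + P * Q * t) = y m by rw [mul_comm P Q, mul_assoc, h']]

theorem simpleA1 (J : AddSubgroup (ℤ → ZMod 3)) (hJ : ∀ a ∈ J, a ∈ A1)
    (hmul : ∀ a ∈ J, ∀ i, (fun m => χ (s 0 (m - i))) * a ∈ J)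
    (hsh : ∀ a ∈ J, ∀ k, (fun m => a (m - k)) ∈ J)
    (a : ℤ → ZMod 3) (ha : a ∈ J) (h0 : a ≠ 0) : ∀ c ∈ A1, c ∈ J := by
  have ideal : ∀ c ∈ A1, ∀ a ∈ J, c * a ∈ J := by
    intro c hc
    induction hc using Subring.closure_induction with
    | mem x hx => obtain ⟨i, rfl⟩ := hx; exact fun a ha => hmul a ha i
    | zero => intro a _; rw [zero_mul]; exact J.zero_mem
    | one => intro a ha; rwa [one_mul]
    | add x y _ _ hx hy => intro a ha; rw [add_mul]; exact J.add_mem (hx a ha) (hy a ha)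
    | neg x _ hx => intro a ha; rw [neg_mul]; exact J.neg_mem (hx a ha)
    | mul x y _ _ hx hy => intro a ha; rw [mul_assoc]; exact hx _ (hy a ha)
  obtain ⟨m₀, hm₀⟩ : ∃ m, a m ≠ 0 := by
    by_contra h
    push Not at h
    exact h0 (funext h)
  obtain ⟨P, hP, hper⟩ := A1_toe (hJ a ha) m₀
  have sq : ∀ x : ZMod 3, x ≠ 0 → x * x = 1 := by decide
  have cover : ∀ n : ℕ, ∃ g ∈ J, ∀ m, (∃ i : ℕ, i < n ∧ a (m - i) ≠ 0) → g m = 1 := by
    intro n
    induction n with
    | zero => exact ⟨0, J.zero_mem, fun m ⟨i, hi, _⟩ => absurd hi (by omega)⟩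
    | succ n ih =>
      obtain ⟨g, hg, h⟩ := ih
      have he : (fun m => a (m - n)) * (fun m => a (m - n)) ∈ J :=
        ideal _ (hJ _ (hsh a ha n)) _ (hsh a ha n)
      refine ⟨g + (fun m => a (m - n)) * (fun m => a (m - n)) -
        g * ((fun m => a (m - n)) * (fun m => a (m - n))),
        J.sub_mem (J.add_mem hg he) (ideal _ (hJ g hg) _ he), ?_⟩
      rintro m ⟨i, hi, hne⟩
      simp only [Pi.sub_apply, Pi.add_apply, Pi.mul_apply]
      by_cases e : i = n
      · rw [e] at hne
        rw [sq _ hne]; ring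
      · rw [h m ⟨i, by omega, hne⟩]; ring
  obtain ⟨g, hg, h⟩ := cover P.toNat
  have g1 : g = 1 := by
    funext m
    apply h
    obtain ⟨t, σ, e, s0, s1⟩ := decomp (m - m₀) P hP
    refine ⟨σ.toNat, by omega, ?_⟩
    rw [Int.toNat_of_nonneg s0, show m - σ = m₀ + P * t by linear_combination e, hper]
    exact hm₀
  intro c hc
  have := ideal c hc g hg
  rwa [g1, mul_one] at this

theorem A1_rec (j : ℕ) : (fun m => if NN j ∣ m then 1 else 0 : ℤ → ZMod 3) ∈ A1 ∧
    (fun m => if NN j ∣ m then χ (s j (m / NN j)) else 0 : ℤ → ZMod 3) ∈ A1 := by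
  induction j with
  | zero =>
    constructor
    · simp only [NN, one_dvd, if_true]; exact A1.one_mem
    · simpa only [NN, one_dvd, if_true, Int.ediv_one, sub_zero] using A1_gen 0
  | succ j ih =>
    obtain ⟨hE, hS⟩ := ih
    have hN := NN_pos j
    have hr := r_ge j
    have h1 : (fun m => if NN (j + 1) ∣ m then 1 else 0 : ℤ → ZMod 3) ∈ A1 := by
      have := A1.mul_mem (A1.add_mem hE hS) (A1.sub_mem hE (A1_shift hS (NN j)))
      have e : (fun m => if NN (j + 1) ∣ m then 1 else 0 : ℤ → ZMod 3) =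
          ((fun m => if NN j ∣ m then 1 else 0 : ℤ → ZMod 3) +
            (fun m => if NN j ∣ m then χ (s j (m / NN j)) else 0 : ℤ → ZMod 3)) *
          ((fun m => if NN j ∣ m then 1 else 0 : ℤ → ZMod 3) - fun m =>
            (fun m => if NN j ∣ m then χ (s j (m / NN j)) else 0 : ℤ → ZMod 3) (m - NN j)) := by
        funext m
        simp only [Pi.mul_apply, Pi.add_apply, Pi.sub_apply]
        by_cases hm : NN j ∣ m
        · obtain ⟨n, rfl⟩ := hm
          have e1 : NN j * n - NN j = NN j * (n - 1) := by ring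
          have e2 : NN (j + 1) ∣ NN j * n ↔ r j ∣ n := by
            simp only [NN]
            exact mul_dvd_mul_iff_left hN.ne'
          rw [e1, if_pos (Dvd.intro _ rfl), if_pos (Dvd.intro _ rfl), if_pos (Dvd.intro _ rfl),
            Int.mul_ediv_cancel_left _ hN.ne', Int.mul_ediv_cancel_left _ hN.ne']
          have e3 := s_mark j n
          by_cases hd : NN (j + 1) ∣ NN j * n
          · rw [if_pos hd]
            obtain ⟨a1, a2⟩ := e3.mpr (e2.mp hd)
            rw [a1, a2]; decide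
          · rw [if_neg hd]
            have hn : ¬ (s j (n - 1) = 1 ∧ s j n = 0) := fun h => hd (e2.mpr (e3.mp h))
            rcases zmod2_cases (s j (n - 1)) with a1 | a1 <;>
              rcases zmod2_cases (s j n) with a2 | a2
            · rw [a1, a2]; decide
            · rw [a1, a2]; decide
            · exact absurd ⟨a1, a2⟩ hn
            · rw [a1, a2]; decide
        · have hm' : ¬ NN (j + 1) ∣ m := fun h => hm (Dvd.dvd.trans (Dvd.intro (r j) rfl) h)
          rw [if_neg hm, if_neg hm, if_neg hm']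
          simp
      rw [e]; exact this
    refine ⟨h1, ?_⟩
    have := A1.mul_mem h1 (A1_shift hS (-(2 * NN j)))
    have e : (fun m => if NN (j + 1) ∣ m then χ (s (j + 1) (m / NN (j + 1))) else 0 : ℤ → ZMod 3) =
        (fun m => if NN (j + 1) ∣ m then 1 else 0 : ℤ → ZMod 3) * fun m =>
          (fun m => if NN j ∣ m then χ (s j (m / NN j)) else 0 : ℤ → ZMod 3) (m - -(2 * NN j)) := by
      funext m
      simp only [Pi.mul_apply]
      by_cases hm : NN (j + 1) ∣ m
      · obtain ⟨q, rfl⟩ := hm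
        have e1 : NN (j + 1) * q - -(2 * NN j) = NN j * (r j * q + 2) := by simp only [NN]; ring
        rw [if_pos (Dvd.intro _ rfl), if_pos (Dvd.intro _ rfl), e1, if_pos (Dvd.intro _ rfl),
          Int.mul_ediv_cancel_left _ hN.ne', Int.mul_ediv_cancel_left _ (NN_pos _).ne',
          s_eq j _ _ (by omega) (by omega), if_neg (by omega), if_pos (by omega), one_mul]
      · rw [if_neg hm, if_neg hm, zero_mul]
    rw [e]; exact this

theorem A1_glue (P : ℤ) (hP : 0 < P) (f : ℤ → ZMod 3)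
    (h : ∀ ρ, ∃ a ∈ A1, ∀ m, m % P = ρ → f m = a m) : f ∈ A1 := by
  obtain ⟨j, hj⟩ := dvd_NN P hP
  have hN := NN_pos j
  choose a ha hfa using h
  have e : f = ∑ ρ ∈ Finset.range (NN j).toNat,
      (fun m => (fun m => if NN j ∣ m then 1 else 0 : ℤ → ZMod 3) (m - ρ)) * a (ρ % P) := by
    funext m
    obtain ⟨t, σ, e, s0, s1⟩ := decomp m (NN j) hN
    rw [Finset.sum_apply, Finset.sum_eq_single σ.toNat]
    · simp only [Pi.mul_apply]
      rw [Int.toNat_of_nonneg s0, if_pos ⟨t, by rw [e]; ring⟩, one_mul]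
      apply hfa
      obtain ⟨c, hc⟩ := hj
      rw [e, hc, mul_assoc, Int.mul_add_emod_self_left]
    · intro ρ hρ hne
      simp only [Pi.mul_apply]
      rw [if_neg, zero_mul]
      intro hd
      have hρ' : (ρ : ℤ) < NN j := by have := Finset.mem_range.mp hρ; omega
      have : NN j ∣ σ - ρ := by
        rw [e, add_sub_assoc] at hd
        exact (dvd_add_right (Dvd.intro _ rfl)).mp hd
      have := Int.eq_zero_of_abs_lt_dvd this (by rw [abs_lt]; omega)
      omega
    · intro hn
      exact absurd (Finset.mem_range.mpr (by omega)) hn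
  rw [e]
  exact A1.sum_mem fun ρ _ => A1.mul_mem (A1_shift (A1_rec j).1 ρ) (ha _)

theorem A1_per (P : ℤ) (hP : 0 < P) : (fun m => if P ∣ m then 1 else 0 : ℤ → ZMod 3) ∈ A1 := by
  apply A1_glue P hP
  intro ρ
  by_cases h : ρ = 0
  · exact ⟨1, A1.one_mem, fun m hm => if_pos (Int.dvd_of_emod_eq_zero (h ▸ hm))⟩
  · exact ⟨0, A1.zero_mem, fun m hm => if_neg fun hd => h (hm ▸ Int.emod_eq_zero_of_dvd hd)⟩

theorem cob_gen (k : ℤ) (hk : 0 < k) :
    ∃ γ : ℤ → ZMod 2, (fun m => χ (γ m)) ∈ A1 ∧ ∀ m, s 0 m + γ (m - k) = γ m := by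
  obtain ⟨j, L, hL⟩ := dvd_NN k hk
  have hN := NN_pos j
  have hL0 : 0 < L := by
    by_contra h
    have : L ≤ 0 := by omega
    nlinarith
  refine ⟨fun m => ∑ i ∈ Finset.range ((m % (2 * NN j) / k).toNat + 1), s 0 (m - i * k), ?_, ?_⟩
  · apply A1_glue (2 * NN j) (by omega)
    intro ρ
    refine ⟨fun m => χ (∑ i ∈ Finset.range ((ρ / k).toNat + 1), s 0 (m - i * k)), ?_,
      fun m hm => by subst hm; rfl⟩
    generalize (ρ / k).toNat + 1 = n
    induction n with
    | zero => exact A1.one_mem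
    | succ n ih =>
      simp only [Finset.sum_range_succ, χ_add]
      exact A1.mul_mem ih (A1_gen _)
  · intro m
    obtain ⟨q, ρ, e, s0, s1⟩ := decomp m (2 * NN j) (by omega)
    have e1 : m % (2 * NN j) = ρ := by
      rw [e, Int.mul_add_emod_self_left, Int.emod_eq_of_lt s0 s1]
    have shift : ∀ n : ℕ, ∑ i ∈ Finset.range (n + 1), s 0 (m - i * k)
        = s 0 m + ∑ i ∈ Finset.range n, s 0 (m - k - i * k) := by
      intro n
      rw [Finset.sum_range_succ', add_comm]
      congr 1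
      · simp
      · apply Finset.sum_congr rfl
        intro i _
        congr 1; push_cast; ring
    show s 0 m + ∑ i ∈ Finset.range (((m - k) % (2 * NN j) / k).toNat + 1), s 0 (m - k - i * k)
      = ∑ i ∈ Finset.range ((m % (2 * NN j) / k).toNat + 1), s 0 (m - i * k)
    rw [e1, shift]
    congr 1
    by_cases hρ : k ≤ ρ
    · have e2 : (m - k) % (2 * NN j) = ρ - k := by
        rw [e, add_sub_assoc, Int.mul_add_emod_self_left, Int.emod_eq_of_lt (by omega) (by omega)]
      have e3 : ρ / k = (ρ - k) / k + 1 := by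
        rw [← Int.add_mul_ediv_right _ _ hk.ne']; congr 1; ring
      have e4 : 0 ≤ (ρ - k) / k := Int.ediv_nonneg (by omega) hk.le
      rw [e2, e3, show ((ρ - k) / k + 1).toNat = ((ρ - k) / k).toNat + 1 by omega]
    · have hkN : k ≤ NN j := by nlinarith
      have e2 : (m - k) % (2 * NN j) = ρ + (2 * L - 1) * k := by
        rw [e, show 2 * NN j * q + ρ - k = 2 * NN j * (q - 1) + (ρ + (2 * L - 1) * k) by
          rw [hL]; ring, Int.mul_add_emod_self_left, Int.emod_eq_of_lt (by nlinarith) (by nlinarith)]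
      have e3 : (ρ + (2 * L - 1) * k) / k = 2 * L - 1 := by
        rw [Int.add_mul_ediv_right _ _ hk.ne', Int.ediv_eq_zero_of_lt s0 (by omega), zero_add]
      rw [e2, e3, Int.ediv_eq_zero_of_lt s0 (by omega),
        show (2 * L - 1).toNat + 1 = L.toNat + L.toNat by omega, Finset.sum_range_add]
      simp only [Int.toNat_zero, Finset.range_zero, Finset.sum_empty]
      rw [← Finset.sum_add_distrib]
      apply Finset.sum_eq_zero
      intro i hi
      have hi' : (i : ℤ) + 1 ≤ L := by have := Finset.mem_range.mp hi; omega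
      have hi0 : (0 : ℤ) ≤ i := Int.natCast_nonneg i
      have := s_blk j (2 * (q - 1) + 1) (2 * (q - 1)) (NN j + ρ - k - i * k) (by nlinarith)
        (by nlinarith) (s_pair j _)
      rw [show m - k - (i : ℤ) * k = NN j * (2 * (q - 1) + 1) + (NN j + ρ - k - i * k) by
          rw [e]; ring,
        show m - k - ((L.toNat + i : ℕ) : ℤ) * k = NN j * (2 * (q - 1)) + (NN j + ρ - k - i * k) by
          push_cast; rw [Int.toNat_of_nonneg hL0.le, e]; linear_combination hL, this]
      exact CharTwo.add_self_eq_zero _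

/-- Convolution of a finitely supported sequence with the Toeplitz sequence. -/
noncomputable def cv (w : U) (m : ℤ) : ZMod 2 := pr w fun i => s 0 (m - i)

theorem cv_add (w w' : U) (m : ℤ) : cv (w + w') m = cv w m + cv w' m := pr_add _ _ _

@[simp] theorem cv_zero (m : ℤ) : cv 0 m = 0 := pr_zero _

theorem cv_sh (k : ℤ) (w : U) (m : ℤ) : cv (sh k w) m = cv w (m - k) := by
  unfold cv
  rw [pr_sh]
  apply pr_congr
  intro i _
  congr 1; ring

theorem cv_single (i : ℤ) (c : ZMod 2) (m : ℤ) : cv (Finsupp.single i c) m = c * s 0 (m - i) :=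
  pr_single _ _ _

theorem A1_cv (w : U) : (fun m => χ (cv w m)) ∈ A1 := by
  induction w using Finsupp.induction_linear with
  | zero => simp only [cv_zero]; exact A1.one_mem
  | add f g hf hg => simp only [cv_add, χ_add]; exact A1.mul_mem hf hg
  | single i c =>
    simp only [cv_single]
    rcases zmod2_cases c with rfl | rfl
    · simp only [zero_mul]; exact A1.one_mem
    · simp only [one_mul]; exact A1_gen i

theorem cob (k : ℤ) (hk : 0 < k) (w : U) :
    ∃ γ : ℤ → ZMod 2, (fun m => χ (γ m)) ∈ A1 ∧ ∀ m, cv w m + γ (m - k) = γ m := by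
  induction w using Finsupp.induction_linear with
  | zero => exact ⟨0, A1.one_mem, fun m => by simp⟩
  | add f g hf hg =>
    obtain ⟨a, ha, h1⟩ := hf
    obtain ⟨b, hb, h2⟩ := hg
    refine ⟨a + b, ?_, fun m => ?_⟩
    · simp only [Pi.add_apply, χ_add]; exact A1.mul_mem ha hb
    · simp only [Pi.add_apply, cv_add]
      rw [← h1 m, ← h2 m]; ring
  | single i c =>
    rcases zmod2_cases c with rfl | rfl
    · exact ⟨0, A1.one_mem, fun m => by simp⟩
    · obtain ⟨γ, h1, h2⟩ := cob_gen k hk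
      refine ⟨fun m => γ (m - i), A1_shift h1 i, fun m => ?_⟩
      show _ + γ (m - k - i) = γ (m - i)
      rw [cv_single, one_mul, ← h2 (m - i)]
      congr 2; ring

/-- The difference operator. -/
def D (k : ℤ) (φ : ℤ → ZMod 3) : ℤ → ZMod 3 := fun m => φ m - φ (m - k)

theorem D_three (k : ℤ) : (D k)^[3] = D (3 * k) := by
  funext φ m
  have three : (3 : ZMod 3) = 0 := rfl
  simp only [Function.iterate_succ, Function.iterate_zero, Function.comp, id, D]
  rw [show m - k - k - k = m - 3 * k by ring]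
  linear_combination (φ (m - k - k) - φ (m - k)) * three

theorem D_pow (k : ℤ) (a : ℕ) : (D k)^[3 ^ a] = D (3 ^ a * k) := by
  induction a with
  | zero => simp
  | succ a ih =>
    rw [pow_succ, Function.iterate_mul, ih, D_three]
    congr 1; ring

theorem D_ne (k : ℤ) (hk : 0 < k) (Q : ℕ) (n : ℕ) : ∀ ρ : ℕ, n ≤ ρ → ρ < Q →
    (D k)^[n] (fun m => if (Q : ℤ) * k ∣ m then 1 else 0) (ρ * k) =
      if ρ = n then (-1) ^ n else 0 := by
  induction n with
  | zero =>
    intro ρ _ hρ
    simp only [Function.iterate_zero, id, pow_zero]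
    by_cases h : ρ = 0
    · rw [if_pos h, if_pos (by rw [h]; simp)]
    · rw [if_neg h, if_neg]
      intro hd
      have h1 : (Q : ℤ) ∣ ρ := (mul_dvd_mul_iff_right hk.ne').mp hd
      have := Int.le_of_dvd (by omega) h1
      omega
  | succ n ih =>
    intro ρ h1 h2
    obtain ⟨ρ', rfl⟩ : ∃ ρ', ρ = ρ' + 1 := ⟨ρ - 1, by omega⟩
    rw [Function.iterate_succ_apply']
    show (D k)^[n] _ _ - (D k)^[n] _ _ = _
    rw [ih (ρ' + 1) (by omega) h2,
      show ((ρ' + 1 : ℕ) : ℤ) * k - k = (ρ' : ℤ) * k by push_cast; ring,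
      ih ρ' (by omega) (by omega), if_neg (by omega)]
    by_cases h : ρ' = n
    · rw [if_pos h, if_pos (by omega)]; ring
    · rw [if_neg h, if_neg (by omega)]; ring

end Pool.Agent.P.MP_5f4fc7_al
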