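import Pool.Agent.P.MP_5f4fc7_al.G0
import Pool.Agent.P.MP_5f4fc7_al.Toe

set_option autoImplicit false

namespace Pool.Agent.P.MP_5f4fc7_al

open scoped commutatorElement

theorem Zs_gen {G : Type*} [Group G] {X : Subgroup G} (hX : X.Normal)
    (hc : ∀ a ∈ X, ∀ b ∈ X, a * b = b * a) (H : Subgroup G) (h₀ : G) (hh₀ : h₀ ∈ H)
    (hgen : ∀ h ∈ H, ∃ z : ℤ, h * (h₀ ^ z)⁻¹ ∈ X) (n : ℕ) (a : G) (ha : a ∈ X)
    (h1 : ⁅a, h₀⁆ ∈ Zs X H n) : a ∈ Zs X H (n + 1) := by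
  let S : Subgroup G :=
    { carrier := {h | h ∈ H ∧ ⁅a, h⁆ ∈ Zs X H n}
      one_mem' := ⟨H.one_mem, by simpa using Zs_one H n⟩
      mul_mem' := by
        rintro h h' ⟨a1, a2⟩ ⟨b1, b2⟩
        refine ⟨H.mul_mem a1 b1, ?_⟩
        have : ⁅a, h * h'⁆ = ⁅a, h⁆ * (h * ⁅a, h'⁆ * h⁻¹) := by
          simp only [commutatorElement_def]; group
        rw [this]
        exact Zs_mul hX hc H _ _ _ a2 (Zs_conj hX hc H _ b2 a1)
      inv_mem' := by
        rintro h ⟨a1, a2⟩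
        refine ⟨H.inv_mem a1, ?_⟩
        have : ⁅a, h⁻¹⁆ = h⁻¹ * ⁅a, h⁆⁻¹ * h⁻¹⁻¹ := by
          simp only [commutatorElement_def]; group
        rw [this]
        exact Zs_conj hX hc H _ (Zs_inv hX hc H _ _ a2) (H.inv_mem a1) }
  refine ⟨ha, fun h hh => ?_⟩
  obtain ⟨z, hz⟩ := hgen h hh
  have m1 : h₀ ^ z ∈ S := S.zpow_mem ⟨hh₀, h1⟩ z
  have m2 : h * (h₀ ^ z)⁻¹ ∈ S := by
    refine ⟨H.mul_mem hh (H.inv_mem (H.zpow_mem hh₀ z)), ?_⟩
    rw [commutatorElement_eq_one_iff_mul_comm.mpr (hc a ha _ hz)]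
    exact Zs_one H n
  have := S.mul_mem m2 m1
  rw [inv_mul_cancel_right] at this
  exact this.2

/-- The second ambient semidirect product. -/
@[ext] structure W1 where
  g : ℤ → ZMod 3
  w : U
  k : ℤ

noncomputable instance : Mul W1 :=
  ⟨fun a b => ⟨fun m => a.g m + χ (cv a.w m) * b.g (m - a.k), a.w + sh a.k b.w, a.k + b.k⟩⟩
instance : One W1 := ⟨⟨0, 0, 0⟩⟩
noncomputable instance : _root_.Inv W1 :=
  ⟨fun a => ⟨fun m => -(χ (cv a.w (m + a.k)) * a.g (m + a.k)), sh (-a.k) a.w, -a.k⟩⟩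

@[simp] theorem W1.mul_g (a b : W1) (m : ℤ) :
    (a * b).g m = a.g m + χ (cv a.w m) * b.g (m - a.k) := rfl
@[simp] theorem W1.mul_w (a b : W1) : (a * b).w = a.w + sh a.k b.w := rfl
@[simp] theorem W1.mul_k (a b : W1) : (a * b).k = a.k + b.k := rfl
@[simp] theorem W1.one_g : (1 : W1).g = 0 := rfl
@[simp] theorem W1.one_w : (1 : W1).w = 0 := rfl
@[simp] theorem W1.one_k : (1 : W1).k = 0 := rfl
@[simp] theorem W1.inv_g (a : W1) (m : ℤ) :
    (a⁻¹).g m = -(χ (cv a.w (m + a.k)) * a.g (m + a.k)) := rfl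
@[simp] theorem W1.inv_w (a : W1) : (a⁻¹).w = sh (-a.k) a.w := rfl
@[simp] theorem W1.inv_k (a : W1) : (a⁻¹).k = -a.k := rfl

noncomputable instance : Group W1 :=
  Group.ofLeftAxioms
    (fun a b c => by
      apply W1.ext
      · funext m
        simp only [W1.mul_g, W1.mul_w, W1.mul_k, cv_add, cv_sh, χ_add, sub_sub]
        ring
      · simp [sh_sh, add_assoc]
      · simp [add_assoc])
    (fun a => by
      apply W1.ext
      · funext x; simp [χ_zero]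
      · simp
      · simp)
    (fun a => by
      apply W1.ext
      · funext x; simp [cv_sh]
      · simp
      · simp)

/-- Projection to the lamplighter group. -/
noncomputable def W1.toLamp : W1 →* Lamp where
  toFun a := ⟨a.w, a.k⟩
  map_one' := rfl
  map_mul' _ _ := rfl

instance : Group.IsSolvable W1 :=
  solv_of W1.toLamp fun a b ha hb => by
    have h1 : a.w = 0 := congrArg Lamp.u ha
    have h2 : a.k = 0 := congrArg Lamp.k ha
    have h3 : b.w = 0 := congrArg Lamp.u hb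
    have h4 : b.k = 0 := congrArg Lamp.k hb
    apply W1.ext
    · funext x; simp [h1, h2, h3, h4, add_comm, χ_zero]
    · simp [h1, h2, h3, h4]
    · simp [h2, h4]

/-- The second group. -/
noncomputable def G1 : Subgroup W1 where
  carrier := {x | x.g ∈ A1}
  one_mem' := A1.zero_mem
  mul_mem' := by
    intro a b ha hb
    exact A1.add_mem ha (A1.mul_mem (A1_cv a.w) (A1_shift hb a.k))
  inv_mem' := by
    intro a ha
    have := A1.neg_mem (A1_shift (A1.mul_mem (A1_cv a.w) ha) (-a.k))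
    simp only [sub_neg_eq_add] at this
    exact this

/-- Degree map of the second group. -/
noncomputable def κ1 : G1 →* Multiplicative ℤ where
  toFun a := Multiplicative.ofAdd a.1.k
  map_one' := rfl
  map_mul' _ _ := rfl

/-- Lift of an element of the lamplighter group. -/
noncomputable def lift1 (w : U) (k : ℤ) : G1 := ⟨⟨0, w, k⟩, A1.zero_mem⟩

/-- Elements of the module. -/
noncomputable def emb1 (a : ℤ → ZMod 3) (ha : a ∈ A1) : G1 := ⟨⟨a, 0, 0⟩, ha⟩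

theorem κ1_surj : Function.Surjective κ1 := fun k => ⟨lift1 0 k.toAdd, rfl⟩

theorem G1_ext {a b : G1} (h1 : ∀ x, a.1.g x = b.1.g x) (h2 : a.1.w = b.1.w) (h3 : a.1.k = b.1.k) :
    a = b := Subtype.ext (W1.ext (funext h1) h2 h3)

/-- The abelian normal subgroup. -/
noncomputable def X1 : Subgroup G1 := (W1.toLamp.comp G1.subtype).ker

theorem mem_X1 (a : G1) : a ∈ X1 ↔ a.1.w = 0 ∧ a.1.k = 0 := by
  constructor
  · intro h
    exact ⟨congrArg Lamp.u h, congrArg Lamp.k h⟩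
  · rintro ⟨h1, h2⟩
    exact Lamp.ext h1 h2

theorem X1_normal : X1.Normal := MonoidHom.normal_ker _

theorem X1_comm : ∀ a ∈ X1, ∀ b ∈ X1, a * b = b * a := by
  intro a ha b hb
  obtain ⟨h1, h2⟩ := (mem_X1 a).mp ha
  obtain ⟨h3, h4⟩ := (mem_X1 b).mp hb
  apply G1_ext
  · intro x; simp [h1, h2, h3, h4, add_comm, χ_zero]
  · simp [h1, h2, h3, h4]
  · simp [h2, h4]

theorem χ_sq (c : ZMod 2) : χ c * χ c = 1 := by revert c; decide

theorem conj_g {a : G1} (ha : a ∈ X1) (x : G1) (m : ℤ) :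
    (x * a * x⁻¹).1.g m = χ (cv x.1.w m) * a.1.g (m - x.1.k) := by
  obtain ⟨h1, h2⟩ := (mem_X1 a).mp ha
  simp only [Subgroup.coe_mul, Subgroup.coe_inv, W1.mul_g, W1.inv_g, W1.mul_w, W1.mul_k, h1, h2,
    sh_zero, add_zero, sub_add_cancel]
  linear_combination (-(x.1.g m)) * χ_sq (cv x.1.w m)

theorem comm_g {a : G1} (ha : a ∈ X1) (h : G1) (m : ℤ) :
    (⁅a, h⁆ : G1).1.g m = a.1.g m - χ (cv h.1.w m) * a.1.g (m - h.1.k) := by
  obtain ⟨h1, h2⟩ := (mem_X1 a).mp ha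
  have e : ⁅a, h⁆ = a * (h * a⁻¹ * h⁻¹) := by rw [commutatorElement_def]; group
  rw [e, Subgroup.coe_mul, W1.mul_g, conj_g (X1.inv_mem ha)]
  simp [h1, h2, χ_zero, sub_eq_add_neg]

theorem prop1 (H : Subgroup G1) (hN : Nil H) (hH : ∃ h ∈ H, κ1 h ≠ 1) :
    ∃ K : Subgroup G1, Nil K ∧ H < K ∧ ∀ k ∈ K, ∃ h ∈ H, κ1 k = κ1 h := by
  rcases key X1_normal X1_comm H hN with ⟨K, h1, h2, h3⟩ | ⟨c, hc⟩
  · refine ⟨K, h1, h2, fun g hg => ?_⟩
    obtain ⟨h, hh, hX⟩ := h3 g hg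
    refine ⟨h, hh, ?_⟩
    have e := ((mem_X1 _).mp hX).2
    simp only [Subgroup.coe_mul, Subgroup.coe_inv, W1.mul_k, W1.inv_k] at e
    show Multiplicative.ofAdd g.1.k = Multiplicative.ofAdd h.1.k
    rw [show g.1.k = h.1.k by omega]
  exfalso
  obtain ⟨h₁, hh₁, hk₁⟩ := hH
  have hk₁' : h₁.1.k ≠ 0 := fun e => hk₁ (by
    show Multiplicative.ofAdd h₁.1.k = 1
    rw [e]; rfl)
  obtain ⟨d, hd⟩ := hN
  have hw : ∀ j e, e + j = d → ∀ x ∈ H.lowerCentralSeries e, x.1.k = 0 → x.1.w = 0 := by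
    intro j
    induction j with
    | zero =>
      intro e he x hx _
      rw [show e = d by omega, hd] at hx
      rw [Subgroup.mem_bot.mp hx]; rfl
    | succ j ih =>
      intro e he x hx hk
      have hm : ⁅x, h₁⁆ ∈ H.lowerCentralSeries (e + 1) := by
        rw [Subgroup.lowerCentralSeries_succ]
        exact Subgroup.commutator_mem_commutator hx hh₁
      have := ih (e + 1) (by omega) _ hm (by simp [commutatorElement_def, hk])
      apply sh_fixed hk₁'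
      simp only [commutatorElement_def, Subgroup.coe_mul, Subgroup.coe_inv, W1.mul_w, W1.mul_k,
        W1.inv_w, W1.inv_k, hk, neg_zero, zero_add, add_zero, sh_zero', sh_sh, add_neg_cancel] at this
      rw [show x.1.w + h₁.1.w + sh h₁.1.k x.1.w + h₁.1.w
        = x.1.w + sh h₁.1.k x.1.w + (h₁.1.w + h₁.1.w) by abel, U_add_self, add_zero] at this
      exact this
  have hex : ∃ n : ℕ, 0 < n ∧ ∃ h ∈ H, h.1.k = n := by
    refine ⟨h₁.1.k.natAbs, by omega, ?_⟩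
    rcases le_or_gt 0 h₁.1.k with h | h
    · exact ⟨h₁, hh₁, by omega⟩
    · exact ⟨h₁⁻¹, H.inv_mem hh₁, by simp only [Subgroup.coe_inv, W1.inv_k]; omega⟩
  classical
  obtain ⟨hpos, h₀, hh₀, hk₀⟩ := Nat.find_spec hex
  have hmin := fun m => Nat.find_min hex (m := m)
  generalize Nat.find hex = n₀ at hpos hk₀ hmin
  have hkpos : 0 < h₀.1.k := by omega
  have hgen : ∀ h ∈ H, ∃ z : ℤ, h * (h₀ ^ z)⁻¹ ∈ X1 := by
    intro h hh
    obtain ⟨z, σ, e, s0, s1⟩ := decomp h.1.k h₀.1.k hkpos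
    refine ⟨z, ?_⟩
    have hm : h * (h₀ ^ z)⁻¹ ∈ H := H.mul_mem hh (H.inv_mem (H.zpow_mem hh₀ z))
    have hz : (h₀ ^ z).1.k = z * h₀.1.k := by
      have := congrArg Multiplicative.toAdd (map_zpow κ1 h₀ z)
      rw [toAdd_zpow] at this
      exact this
    have hk : (h * (h₀ ^ z)⁻¹).1.k = σ := by
      rw [Subgroup.coe_mul, Subgroup.coe_inv, W1.mul_k, W1.inv_k, hz, e]; ring
    have hσ : σ = 0 := by
      by_contra hne
      exact hmin σ.toNat (by omega) ⟨by omega, _, hm, by omega⟩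
    rw [mem_X1]
    exact ⟨hw d 0 (by omega) _ hm (by omega), by omega⟩
  obtain ⟨γ, hγ, hcob⟩ := cob h₀.1.k hkpos h₀.1.w
  have hD : ∀ φ ∈ A1, D h₀.1.k φ ∈ A1 := fun φ hφ => A1.sub_mem hφ (A1_shift hφ _)
  have hemb : ∀ φ (hφ : φ ∈ A1), ⁅emb1 _ (A1.mul_mem hφ hγ), h₀⁆
      = emb1 _ (A1.mul_mem (hD φ hφ) hγ) := by
    intro φ hφ
    have hX : emb1 _ (A1.mul_mem hφ hγ) ∈ X1 := (mem_X1 _).mpr ⟨rfl, rfl⟩
    have hX' := (mem_X1 _).mp (comm_mem X1_normal hX h₀)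
    refine G1_ext (fun m => ?_) hX'.1 hX'.2
    rw [comm_g hX]
    simp only [emb1, Pi.mul_apply, D]
    rw [← hcob m, χ_add]; ring
  have up : ∀ n φ (hφ : φ ∈ A1), (D h₀.1.k)^[n] φ = 0 →
      emb1 _ (A1.mul_mem hφ hγ) ∈ Zs X1 H n := by
    intro n
    induction n with
    | zero =>
      intro φ hφ e
      have e' : φ = 0 := e
      subst e'
      exact G1_ext (fun m => by simp [emb1]) rfl rfl
    | succ n ih =>
      intro φ hφ e
      refine Zs_gen X1_normal X1_comm H h₀ hh₀ hgen n _ ((mem_X1 _).mpr ⟨rfl, rfl⟩) ?_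
      rw [hemb φ hφ]
      exact ih _ (hD φ hφ) e
  have down : ∀ n φ (hφ : φ ∈ A1), emb1 _ (A1.mul_mem hφ hγ) ∈ Zs X1 H n →
      (D h₀.1.k)^[n] φ = 0 := by
    intro n
    induction n with
    | zero =>
      intro φ hφ e
      funext m
      have := congrArg (fun x : G1 => x.1.g m) ((Zs_zero H _).mp e)
      have h2 : φ m * χ (γ m) = 0 := this
      rcases mul_eq_zero.mp h2 with h | h
      · exact h
      · exact absurd h (χ_ne _)
    | succ n ih =>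
      intro φ hφ e
      have := e.2 h₀ hh₀
      rw [hemb φ hφ] at this
      exact ih _ (hD φ hφ) this
  have hφ := A1_per (((3 ^ c : ℕ) : ℤ) * h₀.1.k) (by positivity)
  have h1 := down c _ hφ (hc _ _ (up (3 ^ c) _ hφ (by
    rw [D_pow]
    funext m
    simp only [D, Pi.zero_apply]
    push_cast
    have : (3 : ℤ) ^ c * h₀.1.k ∣ m - 3 ^ c * h₀.1.k ↔ (3 : ℤ) ^ c * h₀.1.k ∣ m :=
      dvd_sub_self_right
    by_cases hm : (3 : ℤ) ^ c * h₀.1.k ∣ m
    · rw [if_pos hm, if_pos (this.mpr hm), sub_self]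
    · rw [if_neg hm, if_neg (fun h => hm (this.mp h)), sub_self])))
  have h2 := D_ne h₀.1.k hkpos (3 ^ c) c c le_rfl (Nat.lt_pow_self (by norm_num))
  rw [h1, if_pos rfl] at h2
  have h3 : ((-1 : ZMod 3)) ^ c ≠ 0 := pow_ne_zero _ (by decide)
  exact h3 h2.symm

theorem acc1 : ACC (Set.univ : Set G1) := by
  have aA : ACC {g : G1 | g ∈ X1} := by
    apply acc_simple
    rintro P hP x hx hxX hx1 y hyX
    have hne : x.1.g ≠ 0 := fun e => hx1
      (G1_ext (fun z => by rw [e]; rfl) ((mem_X1 x).mp hxX).1 ((mem_X1 x).mp hxX).2)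
    let J : AddSubgroup (ℤ → ZMod 3) :=
      { carrier := {b | ∃ g ∈ P, g ∈ X1 ∧ g.1.g = b}
        zero_mem' := ⟨1, P.one_mem, X1.one_mem, rfl⟩
        add_mem' := by
          rintro _ _ ⟨g, hg, hgX, rfl⟩ ⟨g', hg', hgX', rfl⟩
          refine ⟨g * g', P.mul_mem hg hg', X1.mul_mem hgX hgX', funext fun z => ?_⟩
          simp [((mem_X1 g).mp hgX).1, ((mem_X1 g).mp hgX).2, χ_zero]
        neg_mem' := by
          rintro _ ⟨g, hg, hgX, rfl⟩
          refine ⟨g⁻¹, P.inv_mem hg, X1.inv_mem hgX, funext fun z => ?_⟩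
          simp [((mem_X1 g).mp hgX).1, ((mem_X1 g).mp hgX).2, χ_zero] }
    have := simpleA1 J (by
        rintro _ ⟨g, _, _, rfl⟩
        exact g.2) (by
        rintro _ ⟨g, hg, hgX, rfl⟩ i
        refine ⟨_, hP.conj_mem g hg (lift1 (Finsupp.single i 1) 0), X1_normal.conj_mem g hgX _,
          funext fun z => ?_⟩
        rw [conj_g hgX]; simp [lift1, cv_single]) (by
        rintro _ ⟨g, hg, hgX, rfl⟩ k
        refine ⟨_, hP.conj_mem g hg (lift1 0 k), X1_normal.conj_mem g hgX _, funext fun z => ?_⟩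
        rw [conj_g hgX]; simp [lift1, χ_zero]) x.1.g ⟨x, hx, hxX, rfl⟩ hne y.1.g y.2
    obtain ⟨g, hg, hgX, e⟩ := this
    have : g = y := G1_ext (fun z => by rw [e])
      (by rw [((mem_X1 g).mp hgX).1, ((mem_X1 y).mp hyX).1])
      (by rw [((mem_X1 g).mp hgX).2, ((mem_X1 y).mp hyX).2])
    rwa [← this]
  have aN : ACC {g : G1 | κ1 g = 1} := by
    refine acc_U _ _ (fun g w => g.1.k = 0 ∧ g.1.w = w) ?_ ?_ ?_ ?_ ?_ aA
    · intro x hx
      exact ⟨_, hx, rfl⟩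
    · exact ⟨rfl, rfl⟩
    · rintro x y u v ⟨hx, rfl⟩ ⟨hy, rfl⟩
      simp [hx, hy]
    · rintro x u k ⟨hx, rfl⟩
      exact ⟨lift1 0 k, by simp [hx, lift1]⟩
    · rintro x y u ⟨hx, hu⟩ ⟨hy, hv⟩
      show x * y⁻¹ ∈ X1
      rw [mem_X1]
      simp [hx, hy, hu, hv]
  exact acc_Z κ1 aN

theorem main :
    ∃ (G : Type) (_ : Group G),
      IsSolvable G ∧
      (∀ f : ℕ → Subgroup G, (∀ n, (f n).Normal) → Monotone f →
        ∃ n, ∀ m, n ≤ m → f m = f n) ∧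
      (∀ H : Subgroup G, Group.IsNilpotent (↥H) →
        ∃ K : Subgroup G, Group.IsNilpotent (↥K) ∧ H < K) := by
  refine ⟨FP κ0 κ1, inferInstance, (inferInstance : Group.IsSolvable (FP κ0 κ1)), fun f hf hm => ?_, fun H hH => ?_⟩
  · obtain ⟨n, hn⟩ := fp_acc κ0 κ1 κ0_surj κ1_surj acc0 acc1 f hf hm
    exact ⟨n, fun m h => le_antisymm (fun x hx => hn m h x hx trivial) (hm h)⟩
  · obtain ⟨K, h1, h2⟩ := fp_nomax κ0 κ1 prop0 prop1 H ((nil_iff H).mpr hH)
    exact ⟨K, (nil_iff K).mp h1, h2⟩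

end Pool.Agent.P.MP_5f4fc7_al
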