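import Pool.Agent.P.MP_5f4fc7_al.G1

set_option autoImplicit false

namespace Pool.Agent.P.MP_5f4fc7_al

open scoped commutatorElement

theorem der_step {G G' : Type*} [Group G] [Group G'] (φ : G →* G') {n : ℕ}
    (hn : derivedSeries G' n = ⊥) (h : ∀ a b, φ a = 1 → φ b = 1 → a * b = b * a) :
    derivedSeries G (n + 1) = ⊥ := by
  have hk : ∀ a ∈ derivedSeries G n, φ a = 1 := by
    intro a ha
    have := map_derivedSeries_le_derivedSeries φ n (Subgroup.mem_map_of_mem φ ha)
    rw [hn] at this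
    exact Subgroup.mem_bot.mp this
  rw [derivedSeries_succ, eq_bot_iff, Subgroup.commutator_le]
  intro a ha b hb
  exact Subgroup.mem_bot.mpr
    (commutatorElement_eq_one_iff_mul_comm.mpr (h a b (hk a ha) (hk b hb)))

theorem der_Z : derivedSeries (Multiplicative ℤ) 1 = ⊥ := by
  rw [derivedSeries_succ, eq_bot_iff, Subgroup.commutator_le]
  intro a _ b _
  exact Subgroup.mem_bot.mpr (commutatorElement_eq_one_iff_mul_comm.mpr (mul_comm a b))

theorem der_Lamp : derivedSeries Lamp 2 = ⊥ :=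
  der_step Lamp.deg der_Z fun a b ha hb => by
    have ha' : a.k = 0 := ha
    have hb' : b.k = 0 := hb
    apply Lamp.ext <;> simp [ha', hb', add_comm]

theorem der_G0 : derivedSeries G0 3 = ⊥ :=
  der_step (W0.toLamp.comp G0.subtype) der_Lamp fun a b ha hb => X0_comm a ha b hb

theorem der_G1 : derivedSeries G1 3 = ⊥ :=
  der_step (W1.toLamp.comp G1.subtype) der_Lamp fun a b ha hb => X1_comm a ha b hb

theorem der_FP : derivedSeries (FP κ0 κ1) 3 = ⊥ := by
  rw [eq_bot_iff]
  intro x hx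
  have h0 := map_derivedSeries_le_derivedSeries (p₀ κ0 κ1) 3 (Subgroup.mem_map_of_mem _ hx)
  have h1 := map_derivedSeries_le_derivedSeries (p₁ κ0 κ1) 3 (Subgroup.mem_map_of_mem _ hx)
  rw [der_G0] at h0
  rw [der_G1] at h1
  exact Subgroup.mem_bot.mpr (fp_ext κ0 κ1 (by rw [Subgroup.mem_bot.mp h0, map_one])
    (by rw [Subgroup.mem_bot.mp h1, map_one]))

theorem der_mono {G : Type*} [Group G] {n m : ℕ} (h : derivedSeries G n = ⊥) (hnm : n ≤ m) :
    derivedSeries G m = ⊥ := by
  induction hnm with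
  | refl => exact h
  | step _ ih => rw [derivedSeries_succ, ih]; simp

/-- A metabelian group with Max-n has a maximal nilpotent subgroup. -/
theorem metabelian_max {G : Type*} [Group G] (h2 : derivedSeries G 2 = ⊥)
    (hacc : ∀ f : ℕ → Subgroup G, (∀ n, (f n).Normal) → Monotone f →
      ∃ n, ∀ m, n ≤ m → f m = f n)
    (hno : ∀ H : Subgroup G, Group.IsNilpotent (↥H) →
      ∃ K : Subgroup G, Group.IsNilpotent (↥K) ∧ H < K) : False := by
  have h0 : Group.IsNilpotent (↥(derivedSeries G 1)) := by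
    rw [← nil_iff]
    exact ⟨1, by rw [Subgroup.lowerCentralSeries_succ, Subgroup.lowerCentralSeries_zero]; exact h2⟩
  choose K hK using hno
  let c : ℕ → {H : Subgroup G // Group.IsNilpotent (↥H)} := fun n =>
    Nat.rec ⟨derivedSeries G 1, h0⟩ (fun _ H => ⟨K H.1 H.2, (hK H.1 H.2).1⟩) n
  have hlt : ∀ n, (c n).1 < (c (n + 1)).1 := fun n => (hK (c n).1 (c n).2).2
  have hm : Monotone fun n => (c n).1 := monotone_nat_of_le_succ fun n => (hlt n).le
  have hn : ∀ n, ((c n).1).Normal := by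
    intro n
    have hle : derivedSeries G 1 ≤ (c n).1 := hm (Nat.zero_le n)
    refine ⟨fun a ha g => ?_⟩
    have e : g * a * g⁻¹ = ⁅g, a⁆ * a := by rw [commutatorElement_def]; group
    rw [e]
    refine Subgroup.mul_mem _ (hle ?_) ha
    exact Subgroup.commutator_mem_commutator (Subgroup.mem_top g) (Subgroup.mem_top a)
  obtain ⟨n, h⟩ := hacc _ hn hm
  exact (hlt n).ne' (h (n + 1) (Nat.le_succ n))

end Pool.Agent.P.MP_5f4fc7_al
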