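import Pool.Agent.P.MP_5f4fc7_al.Abs

set_option autoImplicit false

namespace Pool.Agent.P.MP_5f4fc7_al

/-- Finitely supported bit sequences on the integers. -/
abbrev U : Type := ℤ →₀ ZMod 2

/-- The shift. -/
noncomputable def sh (k : ℤ) (u : U) : U := Finsupp.equivMapDomain (Equiv.addRight k) u

@[simp] theorem sh_apply (k : ℤ) (u : U) (i : ℤ) : sh k u i = u (i - k) := by
  simp [sh, Finsupp.equivMapDomain_apply, sub_eq_add_neg]

@[simp] theorem sh_add (k : ℤ) (u v : U) : sh k (u + v) = sh k u + sh k v := by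
  ext i; simp

@[simp] theorem sh_zero (k : ℤ) : sh k (0 : U) = 0 := by
  ext i; simp

@[simp] theorem sh_zero' (u : U) : sh 0 u = u := by
  ext i; simp

theorem sh_sh (k l : ℤ) (u : U) : sh k (sh l u) = sh (k + l) u := by
  ext i; simp only [sh_apply]; congr 1; ring

@[simp] theorem U_add_self (u : U) : u + u = 0 := by
  ext i; simp [CharTwo.add_self_eq_zero]

theorem sh_single (k i : ℤ) (c : ZMod 2) : sh k (Finsupp.single i c) = Finsupp.single (i + k) c := by
  ext j
  simp only [sh_apply, Finsupp.single_apply]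
  by_cases h : i + k = j
  · rw [if_pos h, if_pos (by omega)]
  · rw [if_neg h, if_neg (by omega)]

theorem zmod2_cases (c : ZMod 2) : c = 0 ∨ c = 1 := by
  revert c; decide

theorem sh_fixed {k : ℤ} (hk : k ≠ 0) {w : U} (h : w + sh k w = 0) : w = 0 := by
  have e : ∀ i, w (i - k) = w i := by
    intro i
    have := DFunLike.congr_fun h i
    simp only [Finsupp.add_apply, sh_apply, Finsupp.zero_apply] at this
    rcases zmod2_cases (w i) with h1 | h1 <;> rcases zmod2_cases (w (i - k)) with h2 | h2 <;>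
      simp_all
  by_contra hw
  have hne : w.support.Nonempty := Finsupp.support_nonempty_iff.mpr hw
  have h1 := w.support.min'_mem hne
  have h2 := w.support.max'_mem hne
  have h3 : w.support.min' hne - k ∈ w.support := by
    rw [Finsupp.mem_support_iff] at h1 ⊢; rwa [e]
  have h4 : w.support.max' hne - k ∈ w.support := by
    rw [Finsupp.mem_support_iff] at h2 ⊢; rwa [e]
  have h5 := w.support.min'_le _ h3
  have h6 := w.support.le_max' _ h4
  omega

open LaurentPolynomial in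
theorem T_mul_ofCoeff (k : ℤ) (u : U) :
    (T k : (ZMod 2)[T;T⁻¹]) * AddMonoidAlgebra.ofCoeff u = AddMonoidAlgebra.ofCoeff (sh k u) := by
  ext i
  rw [T, AddMonoidAlgebra.coeff_single_mul_apply]
  simp only [one_mul, sh_apply]
  congr 1; ring

open LaurentPolynomial in
theorem mem_of_span (S : Set U) (h0 : (0 : U) ∈ S) (hadd : ∀ u ∈ S, ∀ v ∈ S, u + v ∈ S)
    (hsh : ∀ k, ∀ u ∈ S, sh k u ∈ S) (p : (ZMod 2)[T;T⁻¹])
    (hp : p ∈ Ideal.span (AddMonoidAlgebra.ofCoeff '' S : Set (ZMod 2)[T;T⁻¹])) :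
    p.coeff ∈ S := by
  induction hp using Submodule.span_induction with
  | mem x hx => obtain ⟨u, hu, rfl⟩ := hx; exact hu
  | zero => exact h0
  | add x y _ _ hx hy => exact hadd _ hx _ hy
  | smul a x _ hx =>
    rw [smul_eq_mul]
    induction a using LaurentPolynomial.induction_on' with
    | add p q hp hq => rw [add_mul]; exact hadd _ hp _ hq
    | C_mul_T n a =>
      rcases zmod2_cases a with rfl | rfl
      · rw [map_zero, zero_mul, zero_mul]; exact h0
      · rw [map_one, one_mul]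
        have := T_mul_ofCoeff n x.coeff
        rw [AddMonoidAlgebra.ofCoeff_coeff] at this
        rw [this]
        exact hsh n _ hx

instance laurent_noeth : IsNoetherianRing (LaurentPolynomial (ZMod 2)) :=
  IsLocalization.isNoetherianRing (Submonoid.powers (Polynomial.X : Polynomial (ZMod 2))) _
    inferInstance

variable {G : Type*} [Group G]

theorem acc_U (N₁ N₂ : Set G) (ρ : G → U → Prop) (h1 : ∀ x ∈ N₂, ∃ u, ρ x u) (h2 : ρ 1 0)
    (h3 : ∀ x y u v, ρ x u → ρ y v → ρ (x * y) (u + v))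
    (h4 : ∀ x u k, ρ x u → ∃ g, ρ (g * x * g⁻¹) (sh k u))
    (h5 : ∀ x y u, ρ x u → ρ y u → x * y⁻¹ ∈ N₁) (ha : ACC N₁) : ACC N₂ := by
  refine acc_step N₁ N₂ (fun P => Ideal.span
    (AddMonoidAlgebra.ofCoeff '' {u | ∃ x ∈ P, ρ x u} : Set (LaurentPolynomial (ZMod 2)))) ?_ ?_ ha
  · intro P P' h
    apply Ideal.span_mono
    apply Set.image_mono
    rintro u ⟨x, hx, hu⟩
    exact ⟨x, h hx, hu⟩
  · intro P P' hP _ _ e x hx hxN
    obtain ⟨u, hu⟩ := h1 x hxN
    have m : (AddMonoidAlgebra.ofCoeff u : LaurentPolynomial (ZMod 2)) ∈ Ideal.span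
        (AddMonoidAlgebra.ofCoeff '' {u | ∃ x ∈ P', ρ x u} : Set (LaurentPolynomial (ZMod 2))) :=
      Ideal.subset_span ⟨u, ⟨x, hx, hu⟩, rfl⟩
    rw [← e] at m
    have := mem_of_span {u | ∃ x ∈ P, ρ x u} ⟨1, P.one_mem, h2⟩ (by
      rintro u ⟨x, hx, hu⟩ v ⟨y, hy, hv⟩
      exact ⟨x * y, P.mul_mem hx hy, h3 _ _ _ _ hu hv⟩) (by
      rintro k u ⟨x, hx, hu⟩
      obtain ⟨g, hg⟩ := h4 x u k hu
      exact ⟨_, hP.conj_mem x hx g, hg⟩) _ m
    obtain ⟨y, hy, hyu⟩ := this
    exact ⟨y, hy, h5 x y u hu hyu⟩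

theorem acc_Z (κ : G →* Multiplicative ℤ) (ha : ACC {x | κ x = 1}) : ACC (Set.univ : Set G) := by
  refine acc_step _ _ (fun P => AddSubgroup.toIntSubmodule (Subgroup.toAddSubgroup' (P.map κ)))
    ?_ ?_ ha
  · intro P P' h
    exact AddSubgroup.toIntSubmodule.monotone
      (Subgroup.toAddSubgroup'.monotone (Subgroup.map_mono h))
  · intro P P' _ _ _ e x hx _
    have e' : P.map κ = P'.map κ :=
      Subgroup.toAddSubgroup'.injective (AddSubgroup.toIntSubmodule.injective e)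
    have : κ x ∈ P.map κ := e' ▸ Subgroup.mem_map_of_mem κ hx
    obtain ⟨y, hy, hyx⟩ := this
    refine ⟨y, hy, ?_⟩
    show κ (x * y⁻¹) = 1
    rw [map_mul, map_inv, hyx, mul_inv_cancel]

theorem acc_simple (N : Set G)
    (h : ∀ P : Subgroup G, P.Normal → ∀ x ∈ P, x ∈ N → x ≠ 1 → ∀ y ∈ N, y ∈ P) : ACC N := by
  intro f hf hm
  by_cases hex : ∃ n, ∃ x ∈ f n, x ∈ N ∧ x ≠ 1
  · obtain ⟨n, x, hx, hxN, hx1⟩ := hex
    exact ⟨n, fun m _ y _ hy => h _ (hf n) x hx hxN hx1 y hy⟩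
  · push Not at hex
    refine ⟨0, fun m _ y hy hyN => ?_⟩
    rw [hex m y hy hyN]
    exact (f 0).one_mem

end Pool.Agent.P.MP_5f4fc7_al
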