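import Mathlib

set_option autoImplicit false

namespace Pool.Agent.P.MP_5f4fc7_al.TF

open Subgroup
open scoped commutatorElement

variable {G : Type*} [Group G]

/-- Nilpotency of a subgroup, through the lower central series in the ambient group. -/
def Nil (H : Subgroup G) : Prop := ∃ n, H.lowerCentralSeries n = ⊥

theorem nil_iff (H : Subgroup G) : Nil H ↔ Group.IsNilpotent H :=
  (Subgroup.isNilpotent_iff_lowerCentralSeries H).symm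

theorem lcs_bot_of_le {H : Subgroup G} {n m : ℕ} (h : H.lowerCentralSeries n = ⊥) (hnm : n ≤ m) :
    H.lowerCentralSeries m = ⊥ :=
  eq_bot_iff.mpr (h ▸ H.lowerCentralSeries_antitone hnm)

theorem Nil.mono {H K : Subgroup G} (hK : Nil K) (h : H ≤ K) : Nil H := by
  obtain ⟨n, hn⟩ := hK
  exact ⟨n, eq_bot_iff.mpr (hn ▸ Subgroup.lowerCentralSeries_mono n h)⟩

theorem Nil.map {G' : Type*} [Group G'] {H : Subgroup G} (hH : Nil H) (φ : G →* G') :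
    Nil (H.map φ) := by
  obtain ⟨n, hn⟩ := hH
  exact ⟨n, by rw [← Subgroup.map_lowerCentralSeries, hn, Subgroup.map_bot]⟩

theorem nil_of_two {G₀ G₁ : Type*} [Group G₀] [Group G₁] (φ₀ : G →* G₀) (φ₁ : G →* G₁)
    (hinj : ∀ x, φ₀ x = 1 → φ₁ x = 1 → x = 1) {K : Subgroup G}
    (h₀ : Nil (K.map φ₀)) (h₁ : Nil (K.map φ₁)) : Nil K := by
  obtain ⟨n₀, h₀⟩ := h₀
  obtain ⟨n₁, h₁⟩ := h₁
  refine ⟨max n₀ n₁, eq_bot_iff.mpr fun x hx => ?_⟩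
  have e₀ := lcs_bot_of_le h₀ (le_max_left n₀ n₁)
  have e₁ := lcs_bot_of_le h₁ (le_max_right n₀ n₁)
  rw [← Subgroup.map_lowerCentralSeries] at e₀ e₁
  have m₀ : φ₀ x ∈ (⊥ : Subgroup G₀) := e₀ ▸ Subgroup.mem_map_of_mem φ₀ hx
  have m₁ : φ₁ x ∈ (⊥ : Subgroup G₁) := e₁ ▸ Subgroup.mem_map_of_mem φ₁ hx
  exact Subgroup.mem_bot.mpr (hinj x (Subgroup.mem_bot.mp m₀) (Subgroup.mem_bot.mp m₁))

/-- Ascending chain condition for normal subgroups, inside the set `N`. -/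
def ACC (N : Set G) : Prop :=
  ∀ f : ℕ → Subgroup G, (∀ n, (f n).Normal) → Monotone f →
    ∃ n, ∀ m, n ≤ m → ∀ x ∈ f m, x ∈ N → x ∈ f n

theorem acc_one : ACC ({1} : Set G) := by
  intro f _ _
  refine ⟨0, fun m _ x _ hx => ?_⟩
  rw [Set.mem_singleton_iff.mp hx]
  exact (f 0).one_mem

theorem acc_step {α : Type*} [PartialOrder α] [WellFoundedGT α] (N₁ N₂ : Set G)
    (Ψ : Subgroup G → α) (hmono : Monotone Ψ)
    (h : ∀ P P' : Subgroup G, P.Normal → P'.Normal → P ≤ P' → Ψ P = Ψ P' →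
      ∀ x ∈ P', x ∈ N₂ → ∃ y ∈ P, x * y⁻¹ ∈ N₁)
    (h1 : ACC N₁) : ACC N₂ := by
  intro f hf hm
  obtain ⟨n₁, hn₁⟩ := h1 f hf hm
  obtain ⟨n₂, hn₂⟩ := WellFoundedGT.monotone_chain_condition
    (⟨fun n => Ψ (f n), hmono.comp hm⟩ : ℕ →o α)
  refine ⟨max n₁ n₂, fun m hm' x hx hxN => ?_⟩
  have e : Ψ (f (max n₁ n₂)) = Ψ (f m) := by
    have a := hn₂ (max n₁ n₂) (le_max_right _ _)
    have b := hn₂ m (le_trans (le_max_right _ _) hm')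
    exact a.symm.trans b
  obtain ⟨y, hy, hxy⟩ := h _ _ (hf _) (hf _) (hm hm') e x hx hxN
  have h2 : x * y⁻¹ ∈ f m := (f m).mul_mem hx ((f m).inv_mem (hm hm' hy))
  have h3 := hn₁ m (le_trans (le_max_left _ _) hm') _ h2 hxy
  have h4 : x * y⁻¹ ∈ f (max n₁ n₂) := hm (le_max_left _ _) h3
  have : x = x * y⁻¹ * y := by group
  rw [this]
  exact (f _).mul_mem h4 hy

/-- The upper central series of `X` under the action of `H`. -/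
def Zs (X H : Subgroup G) : ℕ → Set G
  | 0 => {1}
  | n + 1 => {a | a ∈ X ∧ ∀ h ∈ H, ⁅a, h⁆ ∈ Zs X H n}

section Z

variable {X : Subgroup G}

theorem Zs_zero (H : Subgroup G) (a : G) : a ∈ Zs X H 0 ↔ a = 1 := Iff.rfl

theorem Zs_succ (H : Subgroup G) (n : ℕ) (a : G) :
    a ∈ Zs X H (n + 1) ↔ a ∈ X ∧ ∀ h ∈ H, ⁅a, h⁆ ∈ Zs X H n := Iff.rfl

theorem Zs_sub (H : Subgroup G) (n : ℕ) {a : G} (ha : a ∈ Zs X H n) : a ∈ X := by
  cases n with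
  | zero => rw [(Zs_zero H a).mp ha]; exact X.one_mem
  | succ n => exact ha.1

theorem Zs_one (H : Subgroup G) (n : ℕ) : (1 : G) ∈ Zs X H n := by
  induction n with
  | zero => rfl
  | succ n ih => exact ⟨X.one_mem, fun h _ => by simpa using ih⟩

theorem comm_mem (hX : X.Normal) {a : G} (ha : a ∈ X) (h : G) : ⁅a, h⁆ ∈ X := by
  have : ⁅a, h⁆ = a * (h * a⁻¹ * h⁻¹) := by rw [commutatorElement_def]; group
  rw [this]
  exact X.mul_mem ha (hX.conj_mem _ (X.inv_mem ha) h)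

theorem Zs_mul (hX : X.Normal) (hc : ∀ a ∈ X, ∀ b ∈ X, a * b = b * a) (H : Subgroup G) (n : ℕ) :
    ∀ a b : G, a ∈ Zs X H n → b ∈ Zs X H n → a * b ∈ Zs X H n := by
  induction n with
  | zero =>
    intro a b ha hb
    rw [(Zs_zero H a).mp ha, (Zs_zero H b).mp hb, mul_one]; rfl
  | succ n ih =>
    intro a b ha hb
    refine ⟨X.mul_mem ha.1 hb.1, fun h hh => ?_⟩
    have e : ⁅a * b, h⁆ = ⁅b, h⁆ * ⁅a, h⁆ := by
      have h1 := hc a ha.1 _ (comm_mem hX hb.1 h)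
      have : ⁅a * b, h⁆ = (a * ⁅b, h⁆) * a⁻¹ * ⁅a, h⁆ := by
        simp only [commutatorElement_def]; group
      rw [this, h1]; group
    rw [e]
    exact ih _ _ (hb.2 h hh) (ha.2 h hh)

theorem Zs_inv (hX : X.Normal) (hc : ∀ a ∈ X, ∀ b ∈ X, a * b = b * a) (H : Subgroup G) (n : ℕ) :
    ∀ a : G, a ∈ Zs X H n → a⁻¹ ∈ Zs X H n := by
  induction n with
  | zero =>
    intro a ha
    rw [(Zs_zero H a).mp ha, inv_one]; rfl
  | succ n ih =>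
    intro a ha
    refine ⟨X.inv_mem ha.1, fun h hh => ?_⟩
    have e : ⁅a⁻¹, h⁆ = ⁅a, h⁆⁻¹ := by
      have h1 := hc a⁻¹ (X.inv_mem ha.1) _ (X.inv_mem (comm_mem hX ha.1 h))
      have : ⁅a⁻¹, h⁆ = (a⁻¹ * ⁅a, h⁆⁻¹) * a := by
        simp only [commutatorElement_def]; group
      rw [this, h1]; group
    rw [e]
    exact ih _ (ha.2 h hh)

theorem Zs_succ_mono (hX : X.Normal) (H : Subgroup G) (n : ℕ) :
    ∀ a : G, a ∈ Zs X H n → a ∈ Zs X H (n + 1) := by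
  induction n with
  | zero =>
    intro a ha
    rw [(Zs_zero H a).mp ha]; exact Zs_one H _
  | succ n ih =>
    intro a ha
    exact ⟨ha.1, fun h hh => ih _ (ha.2 h hh)⟩

theorem Zs_mono (hX : X.Normal) (H : Subgroup G) {n m : ℕ} (hnm : n ≤ m) {a : G}
    (ha : a ∈ Zs X H n) : a ∈ Zs X H m := by
  induction hnm with
  | refl => exact ha
  | step _ ih => exact Zs_succ_mono hX H _ _ ih

theorem Zs_conj (hX : X.Normal) (hc : ∀ a ∈ X, ∀ b ∈ X, a * b = b * a) (H : Subgroup G) (n : ℕ)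
    {a h : G} (ha : a ∈ Zs X H n) (hh : h ∈ H) : h * a * h⁻¹ ∈ Zs X H n := by
  cases n with
  | zero => rw [(Zs_zero H a).mp ha]; simp [Zs_zero]
  | succ n =>
    have e : h * a * h⁻¹ = ⁅a, h⁆⁻¹ * a := by simp only [commutatorElement_def]; group
    rw [e]
    exact Zs_mul hX hc H _ _ _ (Zs_inv hX hc H _ _ (Zs_succ_mono hX H _ _ (ha.2 h hh))) ha

/-- `Zs` as a subgroup. -/
def ZS (hX : X.Normal) (hc : ∀ a ∈ X, ∀ b ∈ X, a * b = b * a) (H : Subgroup G) (n : ℕ) :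
    Subgroup G where
  carrier := Zs X H n
  mul_mem' := fun ha hb => Zs_mul hX hc H n _ _ ha hb
  one_mem' := Zs_one H n
  inv_mem' := fun ha => Zs_inv hX hc H n _ ha

theorem lcs_of_Zs (hX : X.Normal) (hc : ∀ a ∈ X, ∀ b ∈ X, a * b = b * a) (K : Subgroup G) (j : ℕ) :
    ∀ d, (∀ x ∈ K.lowerCentralSeries d, x ∈ Zs X K j) → K.lowerCentralSeries (d + j) = ⊥ := by
  induction j with
  | zero =>
    intro d h
    exact eq_bot_iff.mpr fun x hx => Subgroup.mem_bot.mpr (h x hx)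
  | succ j ih =>
    intro d h
    have : d + (j + 1) = (d + 1) + j := by omega
    rw [this]
    apply ih
    have : K.lowerCentralSeries (d + 1) ≤ ZS hX hc K j := by
      rw [Subgroup.lowerCentralSeries_succ, Subgroup.commutator_le]
      intro a ha k hk
      exact (h a ha).2 k hk
    exact fun x hx => this hx

theorem nil_of (hX : X.Normal) (hc : ∀ a ∈ X, ∀ b ∈ X, a * b = b * a) (K : Subgroup G) (c n : ℕ)
    (h1 : ∀ x ∈ K.lowerCentralSeries c, x ∈ X) (h2 : ∀ a ∈ K, a ∈ X → a ∈ Zs X K n) : Nil K :=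
  ⟨c + n, lcs_of_Zs hX hc K n c fun x hx => h2 x (K.lowerCentralSeries_le_self c hx) (h1 x hx)⟩

theorem inter_sub_Zs (hX : X.Normal) (H : Subgroup G) (c : ℕ) (hH : H.lowerCentralSeries c = ⊥)
    (j : ℕ) : ∀ d, d + j = c → ∀ a ∈ H.lowerCentralSeries d, a ∈ X → a ∈ Zs X H j := by
  induction j with
  | zero =>
    intro d hd a ha _
    rw [show d = c by omega, hH] at ha
    exact Subgroup.mem_bot.mp ha
  | succ j ih =>
    intro d hd a ha haX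
    refine ⟨haX, fun h hh => ih (d + 1) (by omega) _ ?_ (comm_mem hX haX h)⟩
    rw [Subgroup.lowerCentralSeries_succ]
    exact Subgroup.commutator_mem_commutator ha hh

theorem Zs_of_mod (hX : X.Normal) (hc : ∀ a ∈ X, ∀ b ∈ X, a * b = b * a) (H K : Subgroup G)
    (hK : ∀ k ∈ K, ∃ h ∈ H, k * h⁻¹ ∈ X) (j : ℕ) : ∀ a ∈ Zs X H j, a ∈ Zs X K j := by
  induction j with
  | zero => exact fun a ha => ha
  | succ j ih =>
    intro a ha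
    refine ⟨ha.1, fun k hk => ?_⟩
    obtain ⟨h, hh, hz⟩ := hK k hk
    have e : ⁅a, k⁆ = ⁅a, h⁆ := by
      have h1 := hc a ha.1 _ hz
      have h2 := hc _ hz _ (comm_mem hX ha.1 h)
      have : ⁅a, k⁆ = (a * (k * h⁻¹)) * a⁻¹ * ⁅a, h⁆ * (k * h⁻¹)⁻¹ := by
        simp only [commutatorElement_def]; group
      rw [this, h1]
      have : k * h⁻¹ * a * a⁻¹ * ⁅a, h⁆ * (k * h⁻¹)⁻¹ = (k * h⁻¹ * ⁅a, h⁆) * (k * h⁻¹)⁻¹ := by group
      rw [this, h2]; group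
    rw [e]
    exact ih _ (ha.2 h hh)

/-- If all fixed points are trivial then the whole series is trivial. -/
theorem Zs_trivial (H : Subgroup G) (h1 : ∀ a ∈ X, (∀ h ∈ H, ⁅a, h⁆ = 1) → a = 1) (n : ℕ) :
    ∀ a ∈ Zs X H n, a = 1 := by
  induction n with
  | zero => exact fun a ha => ha
  | succ n ih => exact fun a ha => h1 a ha.1 fun h hh => ih _ (ha.2 h hh)

theorem key (hX : X.Normal) (hc : ∀ a ∈ X, ∀ b ∈ X, a * b = b * a) (H : Subgroup G) (hH : Nil H) :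
    (∃ K : Subgroup G, Nil K ∧ H < K ∧ ∀ k ∈ K, ∃ h ∈ H, k * h⁻¹ ∈ X) ∨
      ∃ c, ∀ n, ∀ a ∈ Zs X H n, a ∈ Zs X H c := by
  obtain ⟨c, hHc⟩ := hH
  by_cases hall : ∀ n, ∀ a ∈ Zs X H n, a ∈ Zs X H c
  · exact Or.inr ⟨c, hall⟩
  left
  push Not at hall
  obtain ⟨n, a, han, hac⟩ := hall
  have hHX : ∀ b ∈ H, b ∈ X → b ∈ Zs X H c := fun b hb hbX =>
    inter_sub_Zs hX H c hHc c 0 (by omega) b hb hbX
  let K : Subgroup G :=
    { carrier := {g | ∃ h ∈ H, g * h⁻¹ ∈ Zs X H (max n c)}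
      mul_mem' := by
        rintro g g' ⟨h, hh, hz⟩ ⟨h', hh', hz'⟩
        refine ⟨h * h', H.mul_mem hh hh', ?_⟩
        have : g * g' * (h * h')⁻¹ = (g * h⁻¹) * (h * (g' * h'⁻¹) * h⁻¹) := by group
        rw [this]
        exact Zs_mul hX hc H _ _ _ hz (Zs_conj hX hc H _ hz' hh)
      one_mem' := ⟨1, H.one_mem, by simpa using Zs_one H _⟩
      inv_mem' := by
        rintro g ⟨h, hh, hz⟩
        refine ⟨h⁻¹, H.inv_mem hh, ?_⟩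
        have : g⁻¹ * h⁻¹⁻¹ = h⁻¹ * (g * h⁻¹)⁻¹ * h⁻¹⁻¹ := by group
        rw [this]
        exact Zs_conj hX hc H _ (Zs_inv hX hc H _ _ hz) (H.inv_mem hh) }
  have hKX : ∀ k ∈ K, ∃ h ∈ H, k * h⁻¹ ∈ X := by
    rintro k ⟨h, hh, hz⟩
    exact ⟨h, hh, Zs_sub H _ hz⟩
  refine ⟨K, ?_, ?_, hKX⟩
  · refine nil_of hX hc K c (max n c) ?_ ?_
    · intro x hx
      have e : (K.lowerCentralSeries c).map (QuotientGroup.mk' X) = ⊥ := by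
        rw [Subgroup.map_lowerCentralSeries, eq_bot_iff]
        have hle : K.map (QuotientGroup.mk' X) ≤ H.map (QuotientGroup.mk' X) := by
          rintro _ ⟨k, hk, rfl⟩
          obtain ⟨h, hh, hz⟩ := hKX k hk
          refine ⟨h, hh, ?_⟩
          have : QuotientGroup.mk' X (k * h⁻¹) = 1 := (QuotientGroup.eq_one_iff _).mpr hz
          rw [map_mul, map_inv, mul_inv_eq_one] at this
          exact this.symm
        refine le_trans (Subgroup.lowerCentralSeries_mono c hle) ?_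
        show (H.map (QuotientGroup.mk' X)).lowerCentralSeries c ≤ ⊥
        rw [← Subgroup.map_lowerCentralSeries, hHc, Subgroup.map_bot]
      have m : QuotientGroup.mk' X x ∈ (⊥ : Subgroup (G ⧸ X)) := e ▸ Subgroup.mem_map_of_mem _ hx
      exact (QuotientGroup.eq_one_iff _).mp (Subgroup.mem_bot.mp m)
    · rintro b ⟨h, hh, hz⟩ hbX
      apply Zs_of_mod hX hc H K hKX
      have hhX : h ∈ X := by
        have : h = (b * h⁻¹)⁻¹ * b := by group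
        rw [this]
        exact X.mul_mem (X.inv_mem (Zs_sub H _ hz)) hbX
      have : b = (b * h⁻¹) * h := by group
      rw [this]
      exact Zs_mul hX hc H _ _ _ hz (Zs_mono hX H (le_max_right _ _) (hHX h hh hhX))
  · refine lt_of_le_of_ne (fun h hh => ⟨h, hh, by simpa using Zs_one H _⟩) fun e => hac ?_
    have : a ∈ K := ⟨1, H.one_mem, by simpa using Zs_mono hX H (le_max_left _ _) han⟩
    rw [← e] at this
    exact hHX a this (Zs_sub H _ han)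

end Z

section FP

variable {G₀ G₁ M : Type*} [Group G₀] [Group G₁] [Group M] (κ₀ : G₀ →* M) (κ₁ : G₁ →* M)

/-- The fibre product. -/
def FP : Subgroup (G₀ × G₁) :=
  (κ₀.comp (MonoidHom.fst G₀ G₁)).eqLocus (κ₁.comp (MonoidHom.snd G₀ G₁))

/-- First projection. -/
def p₀ : FP κ₀ κ₁ →* G₀ := (MonoidHom.fst G₀ G₁).comp (FP κ₀ κ₁).subtype

/-- Second projection. -/
def p₁ : FP κ₀ κ₁ →* G₁ := (MonoidHom.snd G₀ G₁).comp (FP κ₀ κ₁).subtype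

theorem fp_rel (x : FP κ₀ κ₁) : κ₀ (p₀ κ₀ κ₁ x) = κ₁ (p₁ κ₀ κ₁ x) := x.2

theorem fp_ext {x y : FP κ₀ κ₁} (h₀ : p₀ κ₀ κ₁ x = p₀ κ₀ κ₁ y) (h₁ : p₁ κ₀ κ₁ x = p₁ κ₀ κ₁ y) :
    x = y := Subtype.ext (Prod.ext h₀ h₁)

theorem fp_mk (a : G₀) (b : G₁) (h : κ₀ a = κ₁ b) :
    ∃ x : FP κ₀ κ₁, p₀ κ₀ κ₁ x = a ∧ p₁ κ₀ κ₁ x = b := ⟨⟨(a, b), h⟩, rfl, rfl⟩

theorem fp_acc (hs₀ : Function.Surjective κ₀) (hs₁ : Function.Surjective κ₁)
    (a₀ : ACC (Set.univ : Set G₀)) (a₁ : ACC (Set.univ : Set G₁)) :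
    ACC (Set.univ : Set (FP κ₀ κ₁)) := by
  have s₀ : Function.Surjective (p₀ κ₀ κ₁) := fun a => by
    obtain ⟨b, hb⟩ := hs₁ (κ₀ a)
    obtain ⟨x, hx, _⟩ := fp_mk κ₀ κ₁ a b hb.symm
    exact ⟨x, hx⟩
  have s₁ : Function.Surjective (p₁ κ₀ κ₁) := fun b => by
    obtain ⟨a, ha⟩ := hs₀ (κ₁ b)
    obtain ⟨x, _, hx⟩ := fp_mk κ₀ κ₁ a b ha
    exact ⟨x, hx⟩
  intro f hf hm
  obtain ⟨n₀, hn₀⟩ := a₀ (fun n => (f n).map (p₀ κ₀ κ₁)) (fun n => (hf n).map _ s₀)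
    (fun n m h => Subgroup.map_mono (hm h))
  obtain ⟨n₁, hn₁⟩ := a₁ (fun n => (f n ⊓ (p₀ κ₀ κ₁).ker).map (p₁ κ₀ κ₁))
    (fun n => by
      have := hf n
      exact (Subgroup.normal_inf_normal (f n) (p₀ κ₀ κ₁).ker).map _ s₁)
    (fun n m h => Subgroup.map_mono (inf_le_inf_right _ (hm h)))
  refine ⟨max n₀ n₁, fun m hm' x hx _ => ?_⟩
  obtain ⟨y, hy, hxy⟩ := hn₀ m (le_trans (le_max_left _ _) hm') _
    (Subgroup.mem_map_of_mem (p₀ κ₀ κ₁) hx) trivial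
  have hy' : y ∈ f (max n₀ n₁) := hm (le_max_left _ _) hy
  have hk : x * y⁻¹ ∈ f m ⊓ (p₀ κ₀ κ₁).ker := by
    refine ⟨(f m).mul_mem hx ((f m).inv_mem (hm hm' hy')), ?_⟩
    show p₀ κ₀ κ₁ (x * y⁻¹) = 1
    rw [map_mul, map_inv, hxy, mul_inv_cancel]
  obtain ⟨z, hz, hzx⟩ := hn₁ m (le_trans (le_max_right _ _) hm') _
    (Subgroup.mem_map_of_mem (p₁ κ₀ κ₁) hk) trivial
  have e : z = x * y⁻¹ := by
    apply fp_ext κ₀ κ₁ _ hzx
    have h1 : p₀ κ₀ κ₁ z = 1 := hz.2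
    have h2 : p₀ κ₀ κ₁ (x * y⁻¹) = 1 := hk.2
    rw [h1, h2]
  have : x = z * y := by rw [e]; group
  rw [this]
  exact (f _).mul_mem (hm (le_max_right _ _) hz.1) hy'

theorem fp_nomax
    (q₀ : ∀ H : Subgroup G₀, Nil H → (∀ h ∈ H, κ₀ h = 1) →
      ∃ K : Subgroup G₀, Nil K ∧ H < K ∧ ∀ k ∈ K, κ₀ k = 1)
    (q₁ : ∀ H : Subgroup G₁, Nil H → (∃ h ∈ H, κ₁ h ≠ 1) →
      ∃ K : Subgroup G₁, Nil K ∧ H < K ∧ ∀ k ∈ K, ∃ h ∈ H, κ₁ k = κ₁ h)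
    (H : Subgroup (FP κ₀ κ₁)) (hH : Nil H) : ∃ K : Subgroup (FP κ₀ κ₁), Nil K ∧ H < K := by
  have hinj : ∀ x, p₀ κ₀ κ₁ x = 1 → p₁ κ₀ κ₁ x = 1 → x = 1 := fun x h0 h1 =>
    fp_ext κ₀ κ₁ (by rw [h0, map_one]) (by rw [h1, map_one])
  have main : ∀ (K₀ : Subgroup G₀) (K₁ : Subgroup G₁), Nil K₀ → Nil K₁ →
      H.map (p₀ κ₀ κ₁) ≤ K₀ → H.map (p₁ κ₀ κ₁) ≤ K₁ →
      (∃ x, p₀ κ₀ κ₁ x ∈ K₀ ∧ p₁ κ₀ κ₁ x ∈ K₁ ∧ x ∉ H) →
      ∃ K : Subgroup (FP κ₀ κ₁), Nil K ∧ H < K := by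
    rintro K₀ K₁ n₀ n₁ l₀ l₁ ⟨x, x₀, x₁, hx⟩
    refine ⟨K₀.comap (p₀ κ₀ κ₁) ⊓ K₁.comap (p₁ κ₀ κ₁), ?_, ?_⟩
    · refine nil_of_two _ _ hinj (n₀.mono ?_) (n₁.mono ?_)
      · rintro _ ⟨y, hy, rfl⟩; exact hy.1
      · rintro _ ⟨y, hy, rfl⟩; exact hy.2
    · refine lt_of_le_of_ne (fun h hh => ⟨l₀ ⟨h, hh, rfl⟩, l₁ ⟨h, hh, rfl⟩⟩) fun e => hx ?_
      rw [e]; exact ⟨x₀, x₁⟩
  by_cases hk : ∀ h ∈ H, κ₀ (p₀ κ₀ κ₁ h) = 1
  · obtain ⟨K₀, n₀, l₀, hK₀⟩ := q₀ (H.map (p₀ κ₀ κ₁)) (hH.map _) (by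
      rintro _ ⟨h, hh, rfl⟩; exact hk h hh)
    obtain ⟨a, haK, haH⟩ := SetLike.exists_of_lt l₀
    obtain ⟨x, hx₀, hx₁⟩ := fp_mk κ₀ κ₁ a 1 (by rw [hK₀ a haK, map_one])
    refine main K₀ _ n₀ (hH.map (p₁ κ₀ κ₁)) l₀.le le_rfl ⟨x, hx₀ ▸ haK, ?_, fun hx => haH ?_⟩
    · rw [hx₁]; exact Subgroup.one_mem _
    · exact ⟨x, hx, hx₀⟩
  · push Not at hk
    obtain ⟨h₀, hh₀, hne⟩ := hk
    obtain ⟨K₁, n₁, l₁, hK₁⟩ := q₁ (H.map (p₁ κ₀ κ₁)) (hH.map _)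
      ⟨_, ⟨h₀, hh₀, rfl⟩, by rwa [← fp_rel]⟩
    obtain ⟨b, hbK, hbH⟩ := SetLike.exists_of_lt l₁
    obtain ⟨_, ⟨h, hh, rfl⟩, hb⟩ := hK₁ b hbK
    obtain ⟨x, hx₀, hx₁⟩ := fp_mk κ₀ κ₁ (p₀ κ₀ κ₁ h) b (by rw [hb, fp_rel])
    refine main _ K₁ (hH.map (p₀ κ₀ κ₁)) n₁ le_rfl l₁.le ⟨x, ?_, hx₁ ▸ hbK, fun hx => hbH ?_⟩
    · rw [hx₀]; exact ⟨h, hh, rfl⟩
    · exact ⟨x, hx, hx₁⟩

end FP

end Pool.Agent.P.MP_5f4fc7_al.TF
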