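import Pool.Agent.P.MP_5f4fc7_al.TFSh

set_option autoImplicit false

namespace Pool.Agent.P.MP_5f4fc7_al.TF

open Finsupp

/-- Pairing of a finitely supported sequence with an arbitrary sequence. -/
noncomputable def pr (w : U) (ψ : ℤ → ℤ) : ℤ := w.sum fun i c => c * ψ i

theorem pr_add (w w' : U) (ψ : ℤ → ℤ) : pr (w + w') ψ = pr w ψ + pr w' ψ := by
  unfold pr
  rw [Finsupp.sum_add_index']
  · intro i; simp
  · intro i a b; ring

@[simp] theorem pr_zero (ψ : ℤ → ℤ) : pr 0 ψ = 0 := by simp [pr]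

theorem pr_neg (w : U) (ψ : ℤ → ℤ) : pr (-w) ψ = -pr w ψ := by
  have := pr_add w (-w) ψ
  rw [add_neg_cancel, pr_zero] at this
  omega

theorem pr_single (i : ℤ) (c : ℤ) (ψ : ℤ → ℤ) : pr (single i c) ψ = c * ψ i := by
  unfold pr
  rw [Finsupp.sum_single_index]; simp

theorem pr_congr (w : U) {ψ ψ' : ℤ → ℤ} (h : ∀ i, w i ≠ 0 → ψ i = ψ' i) :
    pr w ψ = pr w ψ' := by
  unfold pr
  apply Finsupp.sum_congr
  intro i hi
  rw [h i (Finsupp.mem_support_iff.mp hi)]

theorem pr_add_right (w : U) (ψ ψ' : ℤ → ℤ) :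
    pr w (fun i => ψ i + ψ' i) = pr w ψ + pr w ψ' := by
  unfold pr
  rw [← Finsupp.sum_add]
  apply Finsupp.sum_congr
  intro i _; ring

theorem pr_mul_right (w : U) (c : ℤ) (ψ : ℤ → ℤ) : pr w (fun i => c * ψ i) = c * pr w ψ := by
  unfold pr
  rw [Finsupp.mul_sum]
  apply Finsupp.sum_congr
  intro i _; ring

theorem pr_zero_right (w : U) {ψ : ℤ → ℤ} (h : ∀ i, w i ≠ 0 → ψ i = 0) : pr w ψ = 0 := by
  rw [pr_congr w (ψ' := fun _ => 0) h]
  simp [pr]

theorem pr_sh (k : ℤ) (w : U) (ψ : ℤ → ℤ) : pr (sh k w) ψ = pr w fun i => ψ (i + k) := by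
  induction w using Finsupp.induction_linear with
  | zero => simp
  | add f g hf hg => rw [sh_add, pr_add, pr_add, hf, hg]
  | single i c => rw [sh_single, pr_single, pr_single]

theorem pr_one {w : U} {ψ : ℤ → ℤ} (i₀ : ℤ) (h : ∀ i, w i ≠ 0 → i ≠ i₀ → ψ i = 0) :
    pr w ψ = w i₀ * ψ i₀ := by
  unfold pr
  rw [Finsupp.sum_eq_single i₀]
  · intro i hi hne; rw [h i hi hne, mul_zero]
  · intro _; simp

/-- All coefficients below `m` vanish. -/
def ge (m : ℤ) (x : U) : Prop := ∀ i, i < m → x i = 0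

theorem ge_add {m : ℤ} {x y : U} (hx : ge m x) (hy : ge m y) : ge m (x + y) := fun i hi => by
  simp [hx i hi, hy i hi]

theorem ge_neg {m : ℤ} {x : U} (hx : ge m x) : ge m (-x) := fun i hi => by
  simp [hx i hi]

theorem ge_mono {m m' : ℤ} {x : U} (hx : ge m x) (h : m' ≤ m) : ge m' x := fun i hi =>
  hx i (by omega)

theorem ge_zero (m : ℤ) : ge m 0 := fun _ _ => rfl

theorem ge_sh (m k : ℤ) (x : U) : ge m (sh k x) ↔ ge (m - k) x := by
  constructor
  · intro h i hi
    have := h (i + k) (by omega)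
    simpa using this
  · intro h i hi
    rw [sh_apply]; exact h _ (by omega)

theorem ge_single (m i : ℤ) (c : ℤ) (h : m ≤ i) : ge m (single i c) := fun j hj => by
  rw [Finsupp.single_apply, if_neg (by omega)]

theorem exists_bound (u : U) : ∃ R : ℕ, ∀ i, u i ≠ 0 → -(R : ℤ) < i ∧ i < R := by
  refine ⟨u.support.sup (fun i => i.natAbs) + 1, fun i hi => ?_⟩
  have : i.natAbs ≤ u.support.sup (fun i => i.natAbs) :=
    Finset.le_sup (f := fun i : ℤ => i.natAbs) (Finsupp.mem_support_iff.mpr hi)
  omega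

theorem exists_ge (u : U) : ∃ m, ge m u := by
  obtain ⟨R, hR⟩ := exists_bound u
  refine ⟨-R, fun i hi => ?_⟩
  by_contra h
  have := (hR i h).1
  omega

theorem exists_low {u : U} {m : ℤ} (h : ¬ ge m u) : ∃ i, i < m ∧ u i ≠ 0 ∧ ge i u := by
  have hne : u.support.Nonempty := Finsupp.support_nonempty_iff.mpr fun e => h (e ▸ ge_zero m)
  have hg : ge (u.support.min' hne) u := fun j hj => by
    by_contra hc
    have := u.support.min'_le j (Finsupp.mem_support_iff.mpr hc)
    omega
  refine ⟨_, ?_, Finsupp.mem_support_iff.mp (u.support.min'_mem hne), hg⟩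
  by_contra hc
  exact h (ge_mono hg (by omega))

/-- The part from `m` on. -/
noncomputable def cut (m : ℤ) (x : U) : U := x.filter fun i => m ≤ i

/-- The part below `m`. -/
noncomputable def low (m : ℤ) (x : U) : U := x.filter fun i => i < m

theorem cut_apply (m : ℤ) (x : U) (i : ℤ) : cut m x i = if m ≤ i then x i else 0 := by
  simp [cut, Finsupp.filter_apply]

theorem low_apply (m : ℤ) (x : U) (i : ℤ) : low m x i = if i < m then x i else 0 := by
  simp [low, Finsupp.filter_apply]

theorem low_add_cut (m : ℤ) (x : U) : low m x + cut m x = x := by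
  ext i
  rw [Finsupp.add_apply, low_apply, cut_apply]
  split_ifs <;> omega

theorem ge_cut (m : ℤ) (x : U) : ge m (cut m x) := fun i hi => by
  rw [cut_apply, if_neg (by omega)]

theorem cut_of_ge {m : ℤ} {x : U} (h : ge m x) : cut m x = x := by
  ext i
  rw [cut_apply]
  split_ifs with hi
  · rfl
  · exact (h i (by omega)).symm

theorem cut_add_ge {m : ℤ} (x : U) {u : U} (h : ge m u) : cut m (x + u) = cut m x + u := by
  ext i
  rw [Finsupp.add_apply, cut_apply, cut_apply, Finsupp.add_apply]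
  split_ifs with hi
  · rfl
  · rw [h i (by omega)]; rfl

theorem low_add_ge {m : ℤ} (x : U) {u : U} (h : ge m u) : low m (x + u) = low m x := by
  ext i
  rw [low_apply, low_apply, Finsupp.add_apply]
  split_ifs with hi
  · rw [h i hi, add_zero]
  · rfl

theorem cut_cut {m n : ℤ} (h : m ≤ n) (x : U) : cut n (cut m x) = cut n x := by
  ext i
  simp only [cut_apply]
  split_ifs <;> omega

theorem cut_succ (m : ℤ) (x : U) : cut m x = cut (m + 1) x + single m (x m) := by
  ext i
  simp only [Finsupp.add_apply, cut_apply, Finsupp.single_apply]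
  split_ifs <;> first | omega | (subst_vars; omega)

theorem cut_sh (m k : ℤ) (x : U) : cut m (sh k x) = sh k (cut (m - k) x) := by
  ext i
  simp only [cut_apply, sh_apply]
  split_ifs <;> omega

/-- The basic multi-affine functions. -/
noncomputable def vv (n : ℤ) (x : U) : ℤ := x.prod fun i c => if i < n then 1 + c else 1

theorem vv_eq (n : ℤ) (x : U) (s : Finset ℤ) (h : x.support ⊆ s) :
    vv n x = ∏ i ∈ s, if i < n then 1 + x i else 1 :=
  Finsupp.prod_of_support_subset x h _ fun i _ => by simp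

theorem vv_congr {n : ℤ} {x y : U} (h : ∀ i, i < n → x i = y i) : vv n x = vv n y := by
  rw [vv_eq n x (x.support ∪ y.support) Finset.subset_union_left,
    vv_eq n y (x.support ∪ y.support) Finset.subset_union_right]
  refine Finset.prod_congr rfl fun i _ => ?_
  split_ifs with hi
  · rw [h i hi]
  · rfl

theorem vv_ge {n : ℤ} {x : U} (h : ge n x) : vv n x = 1 := by
  rw [vv_congr (y := 0) h]
  simp [vv]

theorem vv_add_ge {n : ℤ} (x : U) {u : U} (h : ge n u) : vv n (x + u) = vv n x :=
  vv_congr fun i hi => by rw [Finsupp.add_apply, h i hi, add_zero]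

theorem vv_split {m n : ℤ} (h : m ≤ n) (x : U) : vv n x = vv m x * vv n (cut m x) := by
  rw [vv_eq n x _ subset_rfl, vv_eq m x _ subset_rfl, vv_eq n (cut m x) x.support
    (by unfold cut; rw [Finsupp.support_filter]; exact Finset.filter_subset _ _),
    ← Finset.prod_mul_distrib]
  refine Finset.prod_congr rfl fun i _ => ?_
  rw [cut_apply]
  split_ifs <;> omega

theorem vv_succ (n : ℤ) (x : U) : vv (n + 1) x = vv n x * (1 + x n) := by
  rw [vv_split (show n ≤ n + 1 by omega) x,
    vv_congr (n := n + 1) (x := cut n x) (y := single n (x n)) (fun i hi => by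
      rw [cut_apply, Finsupp.single_apply]
      split_ifs <;> first | omega | (subst_vars; omega))]
  congr 1
  unfold vv
  rw [Finsupp.prod_single_index (by simp), if_pos (by omega)]

theorem vv_sh (n k : ℤ) (x : U) : vv n (sh k x) = vv (n - k) x := by
  unfold vv sh
  rw [Finsupp.prod_equivMapDomain]
  refine Finsupp.prod_congr fun i _ => ?_
  simp only [Equiv.coe_addRight]
  split_ifs <;> omega

/-- Integer functions on `U`. -/
abbrev F : Type := U → ℤ

/-- Radial functions. -/
noncomputable def Rad (ρ : ℤ → ℤ) : F := fun x => pr x fun n => ρ n * vv n x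

theorem Rad_split (ρ : ℤ → ℤ) (m : ℤ) (x : U) :
    Rad ρ x = Rad ρ (low m x) + vv m x * Rad ρ (cut m x) := by
  unfold Rad
  rw [← pr_mul_right]
  conv_lhs => rw [← low_add_cut m x, pr_add, low_add_cut]
  congr 1
  · refine pr_congr _ fun i hi => ?_
    rw [low_apply] at hi
    have hi' : i < m := by by_contra h; exact hi (if_neg h)
    rw [vv_congr (n := i) (x := x) (y := low m x) fun j hj => by
      rw [low_apply, if_pos (by omega)]]
  · refine pr_congr _ fun i hi => ?_
    rw [cut_apply] at hi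
    have hi' : m ≤ i := by by_contra h; exact hi (if_neg h)
    rw [vv_split hi' x]; ring

theorem Rad_single (ρ : ℤ → ℤ) (i n : ℤ) : Rad ρ (single i n) = n * ρ i := by
  unfold Rad
  rw [pr_single, vv_ge (ge_single _ _ _ le_rfl), mul_one]

theorem Rad_zero (ρ : ℤ → ℤ) : Rad ρ 0 = 0 := pr_zero _

theorem Rad_step (ρ : ℤ → ℤ) (i n : ℤ) {y : U} (hy : ge (i + 1) y) :
    Rad ρ (single i n + y) = n * ρ i + (1 + n) * Rad ρ y := by
  have h1 : low (i + 1) (single i n) = single i n := by
    ext j; rw [low_apply, Finsupp.single_apply]; split_ifs <;> omega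
  have h2 : cut (i + 1) (single i n) = 0 := by
    ext j; rw [cut_apply, Finsupp.single_apply]; split_ifs <;> first | omega | rfl
  rw [Rad_split ρ (i + 1), low_add_ge _ hy, cut_add_ge _ hy, vv_add_ge _ hy, h1, h2, Rad_single,
    vv_succ, vv_ge (ge_single _ _ _ le_rfl), zero_add]
  simp

/-- Invariance under translations by elements vanishing below `M`. -/
def Inv (M : ℤ) (b : F) : Prop := ∀ x y, ge M y → b (x + y) = b x

/-- Product form below `m`. -/
def Sup (m : ℤ) (b : F) : Prop := ∀ x, b x = vv m x * b (cut m x)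

/-- Affine in every coordinate. -/
def Aff (b : F) : Prop := ∀ x i n, b (x + single i n) = b x + n * (b (x + single i 1) - b x)

theorem Rad_inv {ρ : ℤ → ℤ} {M : ℤ} (h : ∀ n, M ≤ n → ρ n = 0) : Inv M (Rad ρ) := by
  intro x y hy
  have z : ∀ z, ge M z → Rad ρ z = 0 := fun z hz => pr_zero_right _ fun i hi => by
    rw [h i (by by_contra hc; exact hi (hz i (by omega))), zero_mul]
  rw [Rad_split ρ M (x + y), Rad_split ρ M x, low_add_ge _ hy, z _ (ge_cut _ _), z _ (ge_cut _ _)]
  simp

theorem Rad_aff (ρ : ℤ → ℤ) : Aff (Rad ρ) := by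
  intro x i n
  have key : ∀ n, Rad ρ (x + single i n) = Rad ρ (low i x) +
      vv i x * ((x i + n) * ρ i + (1 + (x i + n)) * Rad ρ (cut (i + 1) x)) := by
    intro n
    have hs := ge_single i i n le_rfl
    rw [Rad_split ρ i, low_add_ge _ hs, cut_add_ge _ hs, vv_add_ge _ hs, cut_succ, add_assoc,
      ← Finsupp.single_add, add_comm (cut (i + 1) x), Rad_step _ _ _ (ge_cut _ _)]
  have h0 := key 0
  rw [Finsupp.single_zero, add_zero] at h0
  rw [key n, key 1, h0]; ring

theorem Rad_sh (ρ : ℤ → ℤ) (k : ℤ) (x : U) : Rad ρ (sh k x) = Rad (fun n => ρ (n + k)) x := by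
  unfold Rad
  rw [pr_sh]
  refine pr_congr _ fun i _ => ?_
  rw [vv_sh, add_sub_cancel_right]

theorem Inv.mono {M M' : ℤ} {b : F} (h : Inv M b) (hM : M ≤ M') : Inv M' b :=
  fun x y hy => h x y (ge_mono hy hM)

theorem Sup.mono {m m' : ℤ} {b : F} (h : Sup m b) (hm : m' ≤ m) : Sup m' b := fun x => by
  rw [h x, h (cut m' x), cut_cut hm, vv_split hm x, mul_assoc]

theorem Inv.add {M : ℤ} {a b : F} (ha : Inv M a) (hb : Inv M b) : Inv M (a + b) :=
  fun x y hy => by simp only [Pi.add_apply]; rw [ha x y hy, hb x y hy]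

theorem Inv.sub {M : ℤ} {a b : F} (ha : Inv M a) (hb : Inv M b) : Inv M (a - b) :=
  fun x y hy => by simp only [Pi.sub_apply]; rw [ha x y hy, hb x y hy]

theorem Inv.tr {M : ℤ} {a : F} (ha : Inv M a) (u : U) : Inv M fun x => a (x + u) :=
  fun x y hy => by
    show a (x + y + u) = a (x + u)
    rw [add_right_comm, ha _ _ hy]

theorem Inv.shf {M : ℤ} {a : F} (ha : Inv M a) (k : ℤ) : Inv (M - k) fun x => a (sh k x) :=
  fun x y hy => by
    show a (sh k (x + y)) = a (sh k x)
    rw [sh_add, ha _ _ ((ge_sh _ _ _).mpr hy)]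

theorem Sup.add {m : ℤ} {a b : F} (ha : Sup m a) (hb : Sup m b) : Sup m (a + b) :=
  fun x => by simp only [Pi.add_apply]; rw [ha x, hb x]; ring

theorem Sup.sub {m : ℤ} {a b : F} (ha : Sup m a) (hb : Sup m b) : Sup m (a - b) :=
  fun x => by simp only [Pi.sub_apply]; rw [ha x, hb x]; ring

theorem Sup.tr {m : ℤ} {a : F} (ha : Sup m a) {u : U} (hu : ge m u) : Sup m fun x => a (x + u) :=
  fun x => by
    show a (x + u) = vv m x * a (cut m x + u)
    rw [ha (x + u), vv_add_ge _ hu, cut_add_ge _ hu]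

theorem Sup.shf {m : ℤ} {a : F} (ha : Sup m a) (k : ℤ) : Sup (m - k) fun x => a (sh k x) :=
  fun x => by
    show a (sh k x) = vv (m - k) x * a (sh k (cut (m - k) x))
    rw [ha (sh k x), vv_sh, cut_sh]

theorem Aff.add {a b : F} (ha : Aff a) (hb : Aff b) : Aff (a + b) :=
  fun x i n => by simp only [Pi.add_apply]; rw [ha x i n, hb x i n]; ring

theorem Aff.sub {a b : F} (ha : Aff a) (hb : Aff b) : Aff (a - b) :=
  fun x i n => by simp only [Pi.sub_apply]; rw [ha x i n, hb x i n]; ring

theorem Aff.tr {a : F} (ha : Aff a) (u : U) : Aff fun x => a (x + u) := fun x i n => by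
  show a (x + single i n + u) = a (x + u) + n * (a (x + single i 1 + u) - a (x + u))
  rw [add_right_comm, ha, add_right_comm x]

theorem Aff.shf {a : F} (ha : Aff a) (k : ℤ) : Aff fun x => a (sh k x) := fun x i n => by
  show a (sh k (x + single i n)) = a (sh k x) + n * (a (sh k (x + single i 1)) - a (sh k x))
  rw [sh_add, sh_add, sh_single, sh_single, ha]

/-- The Noetherian module `B`. -/
def BB : AddSubgroup F where
  carrier := {b | Aff b ∧ (∃ M, Inv M b) ∧ ∃ m, Sup m b}
  zero_mem' := ⟨fun _ _ _ => by simp, ⟨0, fun _ _ _ => rfl⟩, 0, fun _ => by simp⟩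
  add_mem' := by
    rintro a b ⟨h1, ⟨M, hM⟩, m, hm⟩ ⟨h2, ⟨M', hM'⟩, m', hm'⟩
    exact ⟨h1.add h2, ⟨_, (hM.mono (le_max_left M M')).add (hM'.mono (le_max_right _ _))⟩,
      _, (hm.mono (min_le_left m m')).add (hm'.mono (min_le_right _ _))⟩
  neg_mem' := by
    rintro a ⟨h1, ⟨M, hM⟩, m, hm⟩
    refine ⟨fun x i n => ?_, ⟨M, fun x y hy => ?_⟩, m, fun x => ?_⟩
    · simp only [Pi.neg_apply]; rw [h1 x i n]; ring
    · simp only [Pi.neg_apply]; rw [hM x y hy]
    · simp only [Pi.neg_apply]; rw [hm x]; ring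

theorem BB_tr {a : F} (ha : a ∈ BB) (u : U) : (fun x => a (x + u)) ∈ BB := by
  obtain ⟨h1, ⟨M, hM⟩, m, hm⟩ := ha
  obtain ⟨m', hm'⟩ := exists_ge u
  exact ⟨h1.tr u, ⟨_, hM.tr u⟩, _,
    (hm.mono (min_le_left m m')).tr (ge_mono hm' (min_le_right _ _))⟩

theorem BB_shf {a : F} (ha : a ∈ BB) (k : ℤ) : (fun x => a (sh k x)) ∈ BB := by
  obtain ⟨h1, ⟨M, hM⟩, m, hm⟩ := ha
  exact ⟨h1.shf k, ⟨_, hM.shf k⟩, _, hm.shf k⟩

theorem inv_of {i : ℤ} {f : F} (h : Inv (i + 1) f) (hf : ∀ x n, f (x + single i n) = f x) :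
    Inv i f := fun x y hy => by
  rw [← cut_of_ge hy, cut_succ, ← add_assoc, hf, h _ _ (ge_cut _ _)]

theorem Aff.diff {a : F} (ha : Aff a) (i c : ℤ) (x : U) (n : ℤ) :
    a (x + single i n + single i c) - a (x + single i n) = a (x + single i c) - a x := by
  rw [add_assoc, ← Finsupp.single_add, ha x i (n + c), ha x i n, ha x i c]; ring

theorem Aff.coord {f : F} (hf : Aff f) (m c : ℤ) (hi : ∀ x n, f (x + single m n) = f x) :
    Aff fun x => (c + x m) * f x := fun x i n => by
  show (c + (x + single i n : U) m) * f (x + single i n) =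
    (c + x m) * f x + n * ((c + (x + single i 1 : U) m) * f (x + single i 1) - (c + x m) * f x)
  by_cases h : i = m
  · subst h
    simp only [hi, Finsupp.add_apply, Finsupp.single_eq_same]; ring
  · simp only [Finsupp.add_apply, Finsupp.single_apply, if_neg h, add_zero]
    rw [hf x i n]; ring

section Noeth

variable (J : AddSubgroup F) (htr : ∀ a ∈ J, ∀ u, (fun x => a (x + u)) ∈ J)
  (hsh : ∀ a ∈ J, ∀ k, (fun x => a (sh k x)) ∈ J)

/-- The ideal of values attached to a submodule. -/
def vals : AddSubgroup ℤ where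
  carrier := {c | (fun x => c * vv 0 x) ∈ J}
  zero_mem' := by
    show (fun x => 0 * vv 0 x) ∈ J
    simp only [zero_mul]; exact J.zero_mem
  add_mem' := fun {a b} ha hb => by
    show (fun x => (a + b) * vv 0 x) ∈ J
    simp only [add_mul]; exact J.add_mem ha hb
  neg_mem' := fun {a} ha => by
    show (fun x => (-a) * vv 0 x) ∈ J
    simp only [neg_mul]; exact J.neg_mem ha

theorem vals_mul {c : ℤ} (h : c ∈ vals J) (n : ℤ) : n * c ∈ vals J := (vals J).zsmul_mem h n

theorem base_eq {m : ℤ} {b : F} (h1 : Sup m b) (h2 : Inv m b) (x : U) : b x = b 0 * vv m x := by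
  have := h2 0 _ (ge_cut m x)
  rw [zero_add] at this
  rw [h1 x, this, mul_comm]

include htr hsh in
theorem up (d : ℕ) : ∀ (m : ℤ) (b : F), Aff b → Sup m b → Inv (m + d) b →
    (∀ x, b x ∈ vals J) → b ∈ J := by
  induction d with
  | zero =>
    intro m b _ h1 h2 h3
    have := hsh _ (h3 0) (-m)
    have e : b = fun x => b 0 * vv 0 (sh (-m) x) := funext fun x => by
      rw [vv_sh, base_eq h1 (by simpa using h2) x]; simp
    rwa [e]
  | succ d ih =>
    intro m b h0 h1 h2 h3
    have lift : ∀ f : F, Aff f → Sup m f → Inv (m + (d + 1 : ℕ)) f →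
        (∀ x n, f (x + single m n) = f x) → (∀ x, f x ∈ vals J) →
        (fun x => (1 + x m) * f x) ∈ J := by
      intro f f0 f1 f2 f3 f4
      refine ih (m + 1) _ (f0.coord m 1 f3) (fun x => ?_) (fun x y hy => ?_)
        fun x => vals_mul J (f4 x) _
      · show (1 + x m) * f x = vv (m + 1) x * ((1 + cut (m + 1) x m) * f (cut (m + 1) x))
        rw [f1 x, cut_succ, f3, vv_succ, ge_cut (m + 1) x m (by omega)]; ring
      · show (1 + (x + y) m) * f (x + y) = (1 + x m) * f x
        rw [f2 x y (ge_mono hy (by push_cast; omega)), Finsupp.add_apply, hy m (by omega), add_zero]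
    have hs := ge_single m m 1 le_rfl
    let g : F := (fun x => b (x + single m 1)) - b
    have g0 : Aff g := (h0.tr _).sub h0
    have g1 : Sup m g := (h1.tr hs).sub h1
    have g2 : Inv (m + (d + 1 : ℕ)) g := (h2.tr _).sub h2
    have g3 : ∀ x n, g (x + single m n) = g x := fun x n => h0.diff m 1 x n
    have g4 : ∀ x, g x ∈ vals J := fun x => (vals J).sub_mem (h3 _) (h3 _)
    let h : F := b - fun x => (1 + x m) * g x
    have k3 : ∀ x n, h (x + single m n) = h x := fun x n => by
      show b (x + single m n) - (1 + (x + single m n) m) * g (x + single m n) =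
        b x - (1 + x m) * g x
      rw [g3, h0 x m n, Finsupp.add_apply, Finsupp.single_eq_same]
      show _ - _ * (b (x + single m 1) - b x) = _ - _ * (b (x + single m 1) - b x)
      ring
    have hh := lift h (h0.sub (g0.coord m 1 g3)) (h1.sub fun x => by
        show (1 + x m) * g x = vv m x * ((1 + cut m x m) * g (cut m x))
        rw [g1 x, cut_apply, if_pos le_rfl]; ring)
      (h2.sub fun x y hy => by
        show (1 + (x + y) m) * g (x + y) = (1 + x m) * g x
        rw [g2 x y hy, Finsupp.add_apply, hy m (by push_cast; omega), add_zero]) k3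
      fun x => (vals J).sub_mem (h3 x) (vals_mul J (g4 x) _)
    have := J.add_mem (lift g g0 g1 g2 g3 g4) (J.sub_mem (htr _ hh (single m 1)) hh)
    have e : b = (fun x => (1 + x m) * g x) +
        ((fun x => (fun x => (1 + x m) * h x) (x + single m 1)) - fun x => (1 + x m) * h x) := by
      funext x
      simp only [Pi.add_apply, Pi.sub_apply, k3, Finsupp.add_apply, Finsupp.single_eq_same]
      show b x = (1 + x m) * g x + ((1 + (x m + 1)) * (b x - (1 + x m) * g x) -
        (1 + x m) * (b x - (1 + x m) * g x))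
      ring
    rwa [e]

include htr hsh in
theorem down (d : ℕ) : ∀ (m : ℤ) (b : F), b ∈ J → Aff b → Sup m b → Inv (m + d) b →
    ∀ x, b x ∈ vals J := by
  induction d with
  | zero =>
    intro m b hb _ h1 h2 x
    have h2' : Inv m b := by simpa using h2
    have : b 0 ∈ vals J := by
      have := hsh b hb m
      have e : (fun x => b (sh m x)) = fun x => b 0 * vv 0 x := funext fun x => by
        rw [base_eq h1 h2', vv_sh, sub_self]
      rwa [e] at this
    rw [base_eq h1 h2', mul_comm]
    exact vals_mul J this _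
  | succ d ih =>
    intro m b hb h0 h1 h2
    have h2' : Inv (m + d + 1) b := by
      rw [show m + d + 1 = m + ((d + 1 : ℕ) : ℤ) by push_cast; ring]; exact h2
    have hs := ge_single m (m + d) 1 (by omega)
    let g : F := (fun x => b (x + single (m + d) 1)) - b
    have g0 : Aff g := (h0.tr _).sub h0
    have g1 : Sup m g := (h1.tr hs).sub h1
    have g3 : ∀ x n, g (x + single (m + d) n) = g x := fun x n => h0.diff _ 1 x n
    have g2 : Inv (m + d) g := inv_of ((h2'.tr _).sub h2') g3
    have g4 := ih m g (J.sub_mem (htr b hb _) hb) g0 g1 g2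
    have c0 := g0.coord (m + d) 0 g3
    have c1 : Sup m fun x => (0 + x (m + d)) * g x := fun x => by
      show (0 + x (m + d)) * g x = vv m x * ((0 + cut m x (m + d)) * g (cut m x))
      rw [g1 x, cut_apply, if_pos (by omega)]; ring
    have c2 : Inv (m + d + 1) fun x => (0 + x (m + d)) * g x := fun x y hy => by
      show (0 + (x + y) (m + d)) * g (x + y) = (0 + x (m + d)) * g x
      rw [g2 x y (ge_mono hy (by omega)), Finsupp.add_apply, hy _ (by omega), add_zero]
    have c3 := up J htr hsh (d + 1) m _ c0 c1 (c2.mono (by push_cast; omega))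
      fun x => vals_mul J (g4 x) _
    have k := ih m _ (J.sub_mem hb c3) (h0.sub c0) (h1.sub c1) (inv_of (h2'.sub c2) fun x n => by
      show b (x + single (m + d) n) - (0 + (x + single (m + d) n) (m + d)) *
        g (x + single (m + d) n) = b x - (0 + x (m + d)) * g x
      rw [g3, h0 x _ n, Finsupp.add_apply, Finsupp.single_eq_same]
      show _ - _ * (b (x + single (m + d) 1) - b x) = _ - _ * (b (x + single (m + d) 1) - b x)
      ring)
    intro x
    have := (vals J).add_mem (k x) (vals_mul J (g4 x) (0 + x (m + d)))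
    simpa using this

end Noeth

theorem noeth (J J' : AddSubgroup F) (htr : ∀ a ∈ J, ∀ u, (fun x => a (x + u)) ∈ J)
    (hsh : ∀ a ∈ J, ∀ k, (fun x => a (sh k x)) ∈ J)
    (htr' : ∀ a ∈ J', ∀ u, (fun x => a (x + u)) ∈ J')
    (hsh' : ∀ a ∈ J', ∀ k, (fun x => a (sh k x)) ∈ J') (e : vals J = vals J') (b : F)
    (hb : b ∈ BB) (hJ : b ∈ J') : b ∈ J := by
  obtain ⟨h0, ⟨M, hM⟩, m, hm⟩ := hb
  have h2 : Inv (m + ((M - m).toNat : ℕ)) b := hM.mono (by omega)
  exact up J htr hsh _ m b h0 hm h2 (e ▸ down J' htr' hsh' _ m b hJ h0 hm h2)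

end Pool.Agent.P.MP_5f4fc7_al.TF
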