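import Pool.Agent.P.MP_5f4fc7_al.TFRad

set_option autoImplicit false

namespace Pool.Agent.P.MP_5f4fc7_al.TF

open scoped commutatorElement

/-- The action on functions. -/
noncomputable def A0 : Act F where
  a l :=
    { toFun := fun f x => f (sh (-l.k) (x - l.u))
      map_zero' := rfl
      map_add' := fun _ _ => rfl }
  one f := funext fun x => by simp
  mul l l' f := funext fun x => by
    show f (sh (-(l.k + l'.k)) (x - (l.u + sh l.k l'.u))) =
      f (sh (-l'.k) (sh (-l.k) (x - l.u) - l'.u))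
    have e : -(l.k + l'.k) + l.k = -l'.k := by ring
    have e2 : -l'.k + -l.k = -(l.k + l'.k) := by ring
    simp only [sh_sub, sh_add, sh_sh, e, e2, sub_sub]

theorem A0_apply (l : Lamp) (f : F) (x : U) : A0.a l f x = f (sh (-l.k) (x - l.u)) := rfl

theorem AA_act (l : Lamp) {a : F} (ha : a ∈ AA) : A0.a l a ∈ AA := by
  have := AA_tr (AA_shf ha l.k) (-l.u)
  simp only [← sub_eq_add_neg] at this
  exact this

theorem act_δ (l : Lamp) (v : U) : A0.a l (δ v) - δ (sh l.k v) ∈ AA := by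
  have := δ_tr_A (sh l.k v) (-l.u)
  have e : A0.a l (δ v) = fun x => δ (sh l.k v) (x + -l.u) := funext fun x => by
    rw [A0_apply, δ_sh, sub_eq_add_neg]
  rwa [e]

theorem δ_neg (v : U) : δ (-v) = -δ v := by
  have := δ_add v (-v)
  rw [add_neg_cancel, δ_zero] at this
  exact (neg_eq_of_add_eq_zero_right this.symm).symm

/-- The first group. -/
noncomputable def G0 : Subgroup (SD A0) where
  carrier := {g | g.g - δ g.l.u ∈ AA}
  one_mem' := by simp
  mul_mem' := by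
    intro a b ha hb
    have h5 := AA.add_mem (AA.add_mem ha (AA_act a.l hb)) (act_δ a.l b.l.u)
    show (a * b).g - δ (a * b).l.u ∈ AA
    have e : (a * b).g - δ (a * b).l.u = a.g - δ a.l.u + A0.a a.l (b.g - δ b.l.u) +
        (A0.a a.l (δ b.l.u) - δ (sh a.l.k b.l.u)) := by
      simp only [SD.mul_g, SD.mul_l, Lamp.mul_u, δ_add, map_sub]; abel
    rwa [e]
  inv_mem' := by
    intro a ha
    have h5 := AA.neg_mem (AA.add_mem (AA_act a.l⁻¹ ha) (act_δ a.l⁻¹ a.l.u))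
    show (a⁻¹).g - δ (a⁻¹).l.u ∈ AA
    have e : (a⁻¹).g - δ (a⁻¹).l.u = -(A0.a a.l⁻¹ (a.g - δ a.l.u) +
        (A0.a a.l⁻¹ (δ a.l.u) - δ (sh (a.l⁻¹).k a.l.u))) := by
      simp only [SD.inv_g, SD.inv_l, Lamp.inv_u, Lamp.inv_k, δ_neg, map_sub]; abel
    rwa [e]

/-- Degree map of the first group. -/
noncomputable def κ0 : G0 →* Multiplicative ℤ := Lamp.deg.comp (SD.toLamp.comp G0.subtype)

theorem κ0_one (g : G0) : κ0 g = 1 ↔ g.1.l.k = 0 := Iff.rfl

/-- Lift of an element of the wreath product. -/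
noncomputable def lift0 (u : U) (k : ℤ) : G0 := ⟨⟨δ u, u, k⟩, by
  show δ u - δ u ∈ AA
  rw [sub_self]; exact AA.zero_mem⟩

theorem κ0_surj : Function.Surjective κ0 := fun k => ⟨lift0 0 k.toAdd, rfl⟩

/-- The abelian normal subgroup. -/
noncomputable def X0 : Subgroup G0 := (SD.toLamp.comp G0.subtype).ker

theorem mem_X0 (a : G0) : a ∈ X0 ↔ a.1.l = 1 := Iff.rfl

theorem X0_normal : X0.Normal := MonoidHom.normal_ker _

theorem X0_comm : ∀ a ∈ X0, ∀ b ∈ X0, a * b = b * a := fun a ha b hb =>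
  Subtype.ext (SD.comm_of a.1 b.1 ha hb)

theorem X0_ext {a b : G0} (ha : a ∈ X0) (hb : b ∈ X0) (h : a.1.g = b.1.g) : a = b :=
  Subtype.ext (SD.ext h (((mem_X0 a).mp ha).trans ((mem_X0 b).mp hb).symm))

theorem X0_inA {a : G0} (ha : a ∈ X0) : a.1.g ∈ AA := by
  have h : a.1.g - δ a.1.l.u ∈ AA := a.2
  rwa [(mem_X0 a).mp ha, Lamp.one_u, δ_zero, sub_zero] at h

theorem conj_f {a : G0} (ha : a ∈ X0) (g : G0) : (g * a * g⁻¹).1.g = A0.a g.1.l a.1.g :=
  SD.conj_g a.1 g.1 ha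

theorem act_k0 {l : Lamp} (hk : l.k = 0) (f : F) : A0.a l f = fun x => f (x - l.u) :=
  funext fun x => by rw [A0_apply, hk, neg_zero, sh_zero']

theorem comm_f {a h : G0} (ha : a ∈ X0) (hk : h.1.l.k = 0) :
    (⁅a, h⁆ : G0).1.g = a.1.g - fun x => a.1.g (x - h.1.l.u) := by
  rw [← act_k0 hk]
  exact SD.comm_g a.1 h.1 ha

theorem bridge0 (H : Subgroup G0) (hH : ∀ h ∈ H, h.1.l.k = 0) (n : ℕ) :
    ∀ a ∈ X0, (a ∈ Zs X0 H n ↔ a.1.g ∈ Zc {u | ∃ h ∈ H, h.1.l.u = u} n) := by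
  induction n with
  | zero =>
    intro a ha
    constructor
    · intro h; rw [(Zs_zero H a).mp h]; rfl
    · intro h
      exact X0_ext ha X0.one_mem h
  | succ n ih =>
    intro a ha
    constructor
    · rintro h u ⟨g, hg, rfl⟩
      have := (ih _ (comm_mem X0_normal ha g)).mp (h.2 g hg)
      rwa [comm_f ha (hH g hg)] at this
    · intro h
      refine ⟨ha, fun g hg => (ih _ (comm_mem X0_normal ha g)).mpr ?_⟩
      rw [comm_f ha (hH g hg)]
      exact h _ ⟨g, hg, rfl⟩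

theorem comm_X0 {a b : G0} (ha : a.1.l.k = 0) (hb : b.1.l.k = 0) : ⁅a, b⁆ ∈ X0 := by
  rw [mem_X0, commutatorElement_def]
  apply Lamp.ext <;> simp [ha, hb]

theorem bb_eq_of_comm {a b : G0} (ha : a.1.l.k = 0) (hb : b.1.l.k = 0) (h : a * b = b * a) :
    bb a.1.l.u b.1.l.u = bb b.1.l.u a.1.l.u := by
  have e := congrArg (fun g : G0 => g.1.g) h
  simp only [Subgroup.coe_mul, SD.mul_g, act_k0 ha, act_k0 hb] at e
  have h1 := BB.add_mem (δ_tr b.1.l.u (-a.1.l.u)) (AA_diff b.2 (-a.1.l.u))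
  have h2 := BB.add_mem (δ_tr a.1.l.u (-b.1.l.u)) (AA_diff a.2 (-b.1.l.u))
  have h3 := BB.sub_mem h1 h2
  have e2 : rad (bb a.1.l.u b.1.l.u + -bb b.1.l.u a.1.l.u) =
      (fun x => δ b.1.l.u (x + -a.1.l.u)) - δ b.1.l.u - rad (bb (-a.1.l.u) b.1.l.u) +
        ((fun x => (b.1.g - δ b.1.l.u) (x + -a.1.l.u)) - (b.1.g - δ b.1.l.u)) -
      ((fun x => δ a.1.l.u (x + -b.1.l.u)) - δ a.1.l.u - rad (bb (-b.1.l.u) a.1.l.u) +
        ((fun x => (a.1.g - δ a.1.l.u) (x + -b.1.l.u)) - (a.1.g - δ a.1.l.u))) := by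
    funext x
    have := congrFun e x
    simp only [Pi.add_apply, Pi.sub_apply, Pi.neg_apply, rad_neg, bb_neg_left,
      ← sub_eq_add_neg] at this ⊢
    rw [sub_eq_add_neg, rad_add, rad_neg, Pi.add_apply, Pi.neg_apply]
    linear_combination (-1 : ℤ) * this
  rw [← e2] at h3
  exact add_neg_eq_zero.mp (rad_inB h3)

theorem prop0 (H : Subgroup G0) (hN : Nil H) (hH : ∀ h ∈ H, κ0 h = 1) :
    ∃ K : Subgroup G0, Nil K ∧ H < K ∧ ∀ k ∈ K, κ0 k = 1 := by
  have hk : ∀ h ∈ H, h.1.l.k = 0 := hH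
  by_cases hb : ∃ m, ∀ h ∈ H, ge m h.1.l.u
  · obtain ⟨m, hm⟩ := hb
    rcases key X0_normal X0_comm H hN with ⟨K, h1, h2, h3⟩ | ⟨c, hc⟩
    · refine ⟨K, h1, h2, fun g hg => ?_⟩
      obtain ⟨h, hh, hX⟩ := h3 g hg
      have e := congrArg Lamp.k ((mem_X0 _).mp hX)
      simp only [Subgroup.coe_mul, Subgroup.coe_inv, SD.mul_l, SD.inv_l, Lamp.mul_k, Lamp.inv_k,
        hk h hh, Lamp.one_k] at e
      rw [κ0_one]; omega
    · have hall : ∀ a ∈ X0, a.1.g ∈ Zc {u | ∃ h ∈ H, h.1.l.u = u} c := by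
        intro a ha
        obtain ⟨h0, M, hM⟩ := AA_inv (X0_inA ha)
        rw [← bridge0 H hk c a ha]
        apply hc (2 ^ (M - m).toNat)
        rw [bridge0 H hk _ a ha]
        refine Zc_anti ?_ _ _ (Zc_window h0 hM (M - m).toNat)
        rintro u ⟨h, hh, rfl⟩
        exact ge_mono (hm h hh) (by omega)
      let K : Subgroup G0 :=
        { carrier := {g | g.1.l.k = 0 ∧
            ∃ c, ∃ h ∈ H, h.1.l.u = g.1.l.u + Finsupp.single (m - 1) c}
          one_mem' := ⟨rfl, 0, 1, H.one_mem, by simp⟩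
          mul_mem' := by
            rintro a b ⟨a1, c, h, hh, e⟩ ⟨b1, c', h', hh', e'⟩
            refine ⟨by simp [a1, b1], c + c', h * h', H.mul_mem hh hh', ?_⟩
            simp only [Subgroup.coe_mul, SD.mul_l, Lamp.mul_u, e, e', a1, hk h hh, sh_zero',
              Finsupp.single_add]
            abel
          inv_mem' := by
            rintro a ⟨a1, c, h, hh, e⟩
            refine ⟨by simp [a1], -c, h⁻¹, H.inv_mem hh, ?_⟩
            simp only [Subgroup.coe_inv, SD.inv_l, Lamp.inv_u, e, a1, hk h hh, neg_zero, sh_zero',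
              Finsupp.single_neg]
            abel }
      have hKk : ∀ g ∈ K, g.1.l.k = 0 := fun g hg => hg.1
      refine ⟨K, ?_, ?_, hKk⟩
      · refine nil_of X0_normal X0_comm K 1 (2 * c) ?_ ?_
        · have : K.lowerCentralSeries 1 ≤ X0 := by
            rw [Subgroup.lowerCentralSeries_succ, Subgroup.lowerCentralSeries_zero,
              Subgroup.commutator_le]
            exact fun a ha b hb => comm_X0 (hKk a ha) (hKk b hb)
          exact fun x hx => this hx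
        · intro a _ ha
          rw [bridge0 K hKk _ a ha]
          refine Zc_anti ?_ _ _ (Zc_double _ (m - 1) c _ (hall a ha) (AA_inv (X0_inA ha)).1)
          rintro u ⟨g, hg, rfl⟩
          exact hg.2
      · refine lt_of_le_of_ne (fun h hh => ⟨hk h hh, 0, h, hh, by simp⟩) fun e => ?_
        have : lift0 (Finsupp.single (m - 1) 1) 0 ∈ K :=
          ⟨rfl, -1, 1, H.one_mem, by simp [lift0]⟩
        rw [← e] at this
        have := hm _ this (m - 1) (by omega)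
        simp [lift0] at this
  · exfalso
    push Not at hb
    obtain ⟨c, hc⟩ := hN
    have triv : ∀ a ∈ X0, (∀ h ∈ H, ⁅a, h⁆ = 1) → a = 1 := by
      intro a ha hfix
      refine X0_ext ha X0.one_mem (AA_fixed (X0_inA ha) fun m => ?_)
      obtain ⟨h, hh, hm⟩ := hb m
      refine ⟨h.1.l.u, hm, fun x => ?_⟩
      have e := comm_f ha (hk h hh)
      rw [hfix h hh] at e
      have := congrFun e (x + h.1.l.u)
      simp only [Subgroup.coe_one, SD.one_g, Pi.zero_apply, Pi.sub_apply, add_sub_cancel_right]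
        at this
      omega
    obtain ⟨h, hh, hm⟩ := hb 0
    have hu : h.1.l.u ≠ 0 := fun e => hm (e ▸ ge_zero 0)
    obtain ⟨m, hm⟩ := exists_ge h.1.l.u
    obtain ⟨h', hh', hm'⟩ := hb m
    obtain ⟨j, hj, hne, _⟩ := exists_low hm'
    have h1 := Zs_trivial H triv c _ (inter_sub_Zs X0_normal H c hc c 0 (by omega) _
      (show ⁅h, h'⁆ ∈ H from H.mul_mem (H.mul_mem (H.mul_mem hh hh') (H.inv_mem hh))
        (H.inv_mem hh')) (comm_X0 (hk h hh) (hk h' hh')))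
    exact bb_ne hu hne (ge_mono hm (by omega)) (bb_eq_of_comm (hk h hh) (hk h' hh')
      (commutatorElement_eq_one_iff_mul_comm.mp h1))

/-- The submodule cut out by a subgroup. -/
def JJ (P : Subgroup G0) : AddSubgroup F where
  carrier := {b | ∃ g ∈ P, g ∈ X0 ∧ g.1.g = b}
  zero_mem' := ⟨1, P.one_mem, X0.one_mem, rfl⟩
  add_mem' := by
    rintro _ _ ⟨g, hg, hgX, rfl⟩ ⟨g', hg', hgX', rfl⟩
    refine ⟨g * g', P.mul_mem hg hg', X0.mul_mem hgX hgX', ?_⟩
    simp [(mem_X0 g).mp hgX, A0.one]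
  neg_mem' := by
    rintro _ ⟨g, hg, hgX, rfl⟩
    refine ⟨g⁻¹, P.inv_mem hg, X0.inv_mem hgX, ?_⟩
    simp [(mem_X0 g).mp hgX, A0.one]

theorem JJ_tr {P : Subgroup G0} (hP : P.Normal) : ∀ a ∈ JJ P, ∀ u, (fun x => a (x + u)) ∈ JJ P := by
  rintro _ ⟨g, hg, hgX, rfl⟩ u
  refine ⟨_, hP.conj_mem g hg (lift0 (-u) 0), X0_normal.conj_mem g hgX _, funext fun z => ?_⟩
  rw [conj_f hgX, A0_apply]; simp [lift0]

theorem JJ_shf {P : Subgroup G0} (hP : P.Normal) :
    ∀ a ∈ JJ P, ∀ k, (fun x => a (sh k x)) ∈ JJ P := by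
  rintro _ ⟨g, hg, hgX, rfl⟩ k
  refine ⟨_, hP.conj_mem g hg (lift0 0 (-k)), X0_normal.conj_mem g hgX _, funext fun z => ?_⟩
  rw [conj_f hgX, A0_apply]; simp [lift0]

theorem acc0 : ACC (Set.univ : Set G0) := by
  have aB : ACC {g : G0 | g ∈ X0 ∧ g.1.g ∈ BB} := by
    refine acc_step _ _ (fun P => AddSubgroup.toIntSubmodule (vals (JJ P))) ?_ ?_ acc_one
    · intro P P' h
      apply AddSubgroup.toIntSubmodule.monotone
      rintro c ⟨g, hg, h'⟩
      exact ⟨g, h hg, h'⟩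
    · rintro P P' hP hP' _ e x hx ⟨hxX, hxB⟩
      obtain ⟨g, hg, hgX, e'⟩ := noeth (JJ P) (JJ P') (JJ_tr hP) (JJ_shf hP) (JJ_tr hP')
        (JJ_shf hP') (AddSubgroup.toIntSubmodule.injective e) _ hxB ⟨x, hx, hxX, rfl⟩
      exact ⟨g, hg, by rw [X0_ext hgX hxX e', mul_inv_cancel]; rfl⟩
  have aA : ACC {g : G0 | g ∈ X0} := by
    refine acc_U _ _ (fun g w => g ∈ X0 ∧ g.1.g - rad w ∈ BB) ?_ ?_ ?_ ?_ ?_ ?_ aB
    · intro x hx
      obtain ⟨w, hw⟩ := X0_inA hx
      exact ⟨w, hx, hw⟩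
    · exact ⟨X0.one_mem, by simp⟩
    · rintro x y u v ⟨hx, hu⟩ ⟨hy, hv⟩
      refine ⟨X0.mul_mem hx hy, ?_⟩
      have e : (x * y).1.g - rad (u + v) = (x.1.g - rad u) + (y.1.g - rad v) := by
        simp only [Subgroup.coe_mul, SD.mul_g, (mem_X0 x).mp hx, A0.one, rad_add]
        abel
      rw [e]; exact BB.add_mem hu hv
    · rintro x u ⟨hx, hu⟩
      refine ⟨X0.inv_mem hx, ?_⟩
      have e : (x⁻¹).1.g - rad (-u) = -(x.1.g - rad u) := by
        simp only [Subgroup.coe_inv, SD.inv_g, (mem_X0 x).mp hx, inv_one, A0.one, rad_neg]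
        abel
      rw [e]; exact BB.neg_mem hu
    · rintro x u k ⟨hx, hu⟩
      refine ⟨lift0 0 k, X0_normal.conj_mem x hx _, ?_⟩
      have e : (lift0 0 k * x * (lift0 0 k)⁻¹).1.g = fun z => x.1.g (sh (-k) z) := by
        funext z
        rw [conj_f hx, A0_apply]; simp [lift0]
      rw [e]; exact shf_rad hu k
    · rintro x ⟨hx, hu⟩
      exact ⟨hx, by simpa using hu⟩
  have aN : ACC {g : G0 | κ0 g = 1} := by
    refine acc_U _ _ (fun g w => g.1.l.k = 0 ∧ g.1.l.u = w) ?_ ?_ ?_ ?_ ?_ ?_ aA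
    · intro x hx
      exact ⟨_, hx, rfl⟩
    · exact ⟨rfl, rfl⟩
    · rintro x y u v ⟨hx, rfl⟩ ⟨hy, rfl⟩
      simp [hx, hy]
    · rintro x u ⟨hx, rfl⟩
      simp [hx]
    · rintro x u k ⟨hx, rfl⟩
      exact ⟨lift0 0 k, by simp [hx, lift0]⟩
    · rintro x ⟨hx, hu⟩
      exact Lamp.ext hu hx
  exact acc_Z κ0 aN

theorem tfr0 : TFr G0 := tfr_sub (SD.tfr fun x n hn h => funext fun z => by
  have := congrFun h z
  simp only [Pi.smul_apply, nsmul_eq_mul, Pi.zero_apply] at this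
  rcases mul_eq_zero.mp this with h | h
  · omega
  · exact h) G0

theorem der0 : derivedSeries G0 3 = ⊥ := der_sub 3 SD.der G0

end Pool.Agent.P.MP_5f4fc7_al.TF
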