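import Pool.Agent.P.MP_5f4fc7_al.TFSh

set_option autoImplicit false

namespace Pool.Agent.P.MP_5f4fc7_al.TF

open scoped commutatorElement

theorem Zs_gen {G : Type*} [Group G] {X : Subgroup G} (hX : X.Normal)
    (hc : ∀ a ∈ X, ∀ b ∈ X, a * b = b * a) (H : Subgroup G) (h₀ : G) (hh₀ : h₀ ∈ H)
    (hgen : ∀ h ∈ H, ∃ z : ℤ, h * (h₀ ^ z)⁻¹ ∈ X) (n : ℕ) (a : G) (ha : a ∈ X)
    (h1 : ⁅a, h₀⁆ ∈ Zs X H n) : a ∈ Zs X H (n + 1) := by
  let S : Subgroup G :=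
    { carrier := {h | h ∈ H ∧ ⁅a, h⁆ ∈ Zs X H n}
      one_mem' := ⟨H.one_mem, by simpa using Zs_one H n⟩
      mul_mem' := by
        rintro h h' ⟨a1, a2⟩ ⟨b1, b2⟩
        refine ⟨H.mul_mem a1 b1, ?_⟩
        have : ⁅a, h * h'⁆ = ⁅a, h⁆ * (h * ⁅a, h'⁆ * h⁻¹) := by
          simp only [commutatorElement_def]; group
        rw [this]
        exact Zs_mul hX hc H _ _ _ a2 (Zs_conj hX hc H _ b2 a1)
      inv_mem' := by
        rintro h ⟨a1, a2⟩
        refine ⟨H.inv_mem a1, ?_⟩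
        have : ⁅a, h⁻¹⁆ = h⁻¹ * ⁅a, h⁆⁻¹ * h⁻¹⁻¹ := by
          simp only [commutatorElement_def]; group
        rw [this]
        exact Zs_conj hX hc H _ (Zs_inv hX hc H _ _ a2) (H.inv_mem a1) }
  refine ⟨ha, fun h hh => ?_⟩
  obtain ⟨z, hz⟩ := hgen h hh
  have m1 : h₀ ^ z ∈ S := S.zpow_mem ⟨hh₀, h1⟩ z
  have m2 : h * (h₀ ^ z)⁻¹ ∈ S := by
    refine ⟨H.mul_mem hh (H.inv_mem (H.zpow_mem hh₀ z)), ?_⟩
    rw [commutatorElement_eq_one_iff_mul_comm.mpr (hc a ha _ hz)]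
    exact Zs_one H n
  have := S.mul_mem m2 m1
  rw [inv_mul_cancel_right] at this
  exact this.2

theorem decomp (n b : ℤ) (hb : 0 < b) : ∃ a σ, n = b * a + σ ∧ 0 ≤ σ ∧ σ < b :=
  ⟨n / b, n % b, (Int.mul_ediv_add_emod n b).symm, Int.emod_nonneg _ hb.ne', Int.emod_lt_of_pos _ hb⟩

variable {M : Type} [AddCommGroup M] (A : Act M)

/-- Invariant subgroups. -/
def Act.Stab (J : AddSubgroup M) : Prop := ∀ l, ∀ a ∈ J, A.a l a ∈ J

/-- A tower of generalised fixed points. -/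
def Act.Tow (l : Lamp) (a : ℕ → M) : Prop :=
  a 0 - A.a l (a 0) = 0 ∧ ∀ n, a (n + 1) - A.a l (a (n + 1)) = a n

/-- Degree map of the second group. -/
noncomputable def κ1 : SD A →* Multiplicative ℤ := Lamp.deg.comp SD.toLamp

theorem κ1_surj : Function.Surjective (κ1 A) := fun k => ⟨⟨0, 0, k.toAdd⟩, rfl⟩

/-- The abelian normal subgroup. -/
noncomputable def X1 : Subgroup (SD A) := SD.toLamp.ker

theorem mem_X1 (a : SD A) : a ∈ X1 A ↔ a.l = 1 := Iff.rfl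

theorem X1_normal : (X1 A).Normal := MonoidHom.normal_ker _

theorem X1_comm : ∀ a ∈ X1 A, ∀ b ∈ X1 A, a * b = b * a := fun a ha b hb => SD.comm_of a b ha hb

theorem prop1 (tow : ∀ l : Lamp, 0 < l.k → ∃ a : ℕ → M, a 0 ≠ 0 ∧ A.Tow l a)
    (H : Subgroup (SD A)) (hN : Nil H) (hH : ∃ h ∈ H, κ1 A h ≠ 1) :
    ∃ K : Subgroup (SD A), Nil K ∧ H < K ∧ ∀ k ∈ K, ∃ h ∈ H, κ1 A k = κ1 A h := by
  rcases key (X1_normal A) (X1_comm A) H hN with ⟨K, h1, h2, h3⟩ | ⟨c, hc⟩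
  · refine ⟨K, h1, h2, fun g hg => ?_⟩
    obtain ⟨h, hh, hX⟩ := h3 g hg
    refine ⟨h, hh, ?_⟩
    have e := congrArg Lamp.k ((mem_X1 A _).mp hX)
    simp only [SD.mul_l, SD.inv_l, Lamp.mul_k, Lamp.inv_k, Lamp.one_k] at e
    show Multiplicative.ofAdd g.l.k = Multiplicative.ofAdd h.l.k
    rw [show g.l.k = h.l.k by omega]
  exfalso
  obtain ⟨h₁, hh₁, hk₁⟩ := hH
  have hk₁' : h₁.l.k ≠ 0 := fun e => hk₁ (by
    show Multiplicative.ofAdd h₁.l.k = 1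
    rw [e]; rfl)
  obtain ⟨d, hd⟩ := hN
  have hw : ∀ j e, e + j = d → ∀ x ∈ H.lowerCentralSeries e, x.l.k = 0 → x.l.u = 0 := by
    intro j
    induction j with
    | zero =>
      intro e he x hx _
      rw [show e = d by omega, hd] at hx
      rw [Subgroup.mem_bot.mp hx]; rfl
    | succ j ih =>
      intro e he x hx hk
      have hm : ⁅x, h₁⁆ ∈ H.lowerCentralSeries (e + 1) := by
        rw [Subgroup.lowerCentralSeries_succ]
        exact Subgroup.commutator_mem_commutator hx hh₁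
      have := ih (e + 1) (by omega) _ hm (by simp [commutatorElement_def, hk])
      apply sh_fixed hk₁'
      simp only [commutatorElement_def, SD.mul_l, SD.inv_l, Lamp.mul_u, Lamp.mul_k,
        Lamp.inv_u, Lamp.inv_k, hk, neg_zero, zero_add, add_zero, sh_zero', sh_neg, sh_sh,
        add_neg_cancel] at this
      rw [show x.l.u + h₁.l.u + -sh h₁.l.k x.l.u + -h₁.l.u = x.l.u - sh h₁.l.k x.l.u by abel] at this
      exact (sub_eq_zero.mp this).symm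
  have hex : ∃ n : ℕ, 0 < n ∧ ∃ h ∈ H, h.l.k = n := by
    refine ⟨h₁.l.k.natAbs, by omega, ?_⟩
    rcases le_or_gt 0 h₁.l.k with h | h
    · exact ⟨h₁, hh₁, by omega⟩
    · exact ⟨h₁⁻¹, H.inv_mem hh₁, by simp only [SD.inv_l, Lamp.inv_k]; omega⟩
  classical
  obtain ⟨hpos, h₀, hh₀, hk₀⟩ := Nat.find_spec hex
  have hmin := fun m => Nat.find_min hex (m := m)
  generalize Nat.find hex = n₀ at hpos hk₀ hmin
  have hkpos : 0 < h₀.l.k := by omega
  have hgen : ∀ h ∈ H, ∃ z : ℤ, h * (h₀ ^ z)⁻¹ ∈ X1 A := by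
    intro h hh
    obtain ⟨z, σ, e, s0, s1⟩ := decomp h.l.k h₀.l.k hkpos
    refine ⟨z, ?_⟩
    have hm : h * (h₀ ^ z)⁻¹ ∈ H := H.mul_mem hh (H.inv_mem (H.zpow_mem hh₀ z))
    have hz : (h₀ ^ z).l.k = z * h₀.l.k := by
      have := congrArg Multiplicative.toAdd (map_zpow (κ1 A) h₀ z)
      rw [toAdd_zpow] at this
      exact this
    have hk : (h * (h₀ ^ z)⁻¹).l.k = σ := by
      rw [SD.mul_l, SD.inv_l, Lamp.mul_k, Lamp.inv_k, hz, e]; ring
    have hσ : σ = 0 := by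
      by_contra hne
      exact hmin σ.toNat (by omega) ⟨by omega, _, hm, by omega⟩
    exact Lamp.ext (hw d 0 (by omega) _ hm (by omega)) (hk.trans hσ)
  obtain ⟨a, ha0, ha1, ha2⟩ := tow h₀.l hkpos
  have hemb : ∀ x : M, ⁅(⟨x, 1⟩ : SD A), h₀⁆ = ⟨x - A.a h₀.l x, 1⟩ := fun x =>
    SD.ext (SD.comm_g _ _ rfl) (comm_mem (X1_normal A) (a := ⟨x, 1⟩) rfl h₀)
  have up : ∀ n, (⟨a n, 1⟩ : SD A) ∈ Zs (X1 A) H (n + 1) := by
    intro n
    induction n with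
    | zero =>
      refine Zs_gen (X1_normal A) (X1_comm A) H h₀ hh₀ hgen 0 _ rfl ?_
      rw [hemb, ha1]; rfl
    | succ n ih =>
      refine Zs_gen (X1_normal A) (X1_comm A) H h₀ hh₀ hgen _ _ rfl ?_
      rwa [hemb, ha2]
  have down : ∀ n, (⟨a n, 1⟩ : SD A) ∉ Zs (X1 A) H n := by
    intro n
    induction n with
    | zero => exact fun e => ha0 (congrArg SD.g ((Zs_zero H _).mp e))
    | succ n ih =>
      intro e
      have := e.2 h₀ hh₀
      rw [hemb, ha2] at this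
      exact ih this
  exact down c (hc _ _ (up c))

theorem acc1 (simple : ∀ J : AddSubgroup M, A.Stab J → ∀ a ∈ J, a ≠ 0 → ∀ b, b ∈ J) :
    ACC (Set.univ : Set (SD A)) := by
  have aA : ACC {g : SD A | g ∈ X1 A} := by
    apply acc_simple
    rintro P hP x hx hxX hx1 y hyX
    let J : AddSubgroup M :=
      { carrier := {b | (⟨b, 1⟩ : SD A) ∈ P}
        zero_mem' := P.one_mem
        add_mem' := fun {a b} ha hb => by
          have := P.mul_mem ha hb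
          rwa [show (⟨a, 1⟩ * ⟨b, 1⟩ : SD A) = ⟨a + b, 1⟩ by apply SD.ext <;> simp [A.one]] at this
        neg_mem' := fun {a} ha => by
          have := P.inv_mem ha
          rwa [show ((⟨a, 1⟩ : SD A)⁻¹) = ⟨-a, 1⟩ by apply SD.ext <;> simp [A.one]] at this }
    have ex : x = ⟨x.g, 1⟩ := SD.ext rfl hxX
    have ey : y = ⟨y.g, 1⟩ := SD.ext rfl hyX
    rw [ey]
    refine simple J (fun l a ha => ?_) x.g (show (⟨x.g, 1⟩ : SD A) ∈ P from ex ▸ hx)
      (fun e => hx1 (SD.ext e hxX)) y.g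
    have := hP.conj_mem _ ha ⟨0, l⟩
    rwa [show (⟨0, l⟩ * ⟨a, 1⟩ * (⟨0, l⟩ : SD A)⁻¹) = ⟨A.a l a, 1⟩ from
      SD.ext (SD.conj_g _ _ rfl) (by simp)] at this
  have aN : ACC {g : SD A | κ1 A g = 1} := by
    refine acc_U _ _ (fun g w => g.l.k = 0 ∧ g.l.u = w) ?_ ?_ ?_ ?_ ?_ ?_ aA
    · intro x hx
      exact ⟨_, hx, rfl⟩
    · exact ⟨rfl, rfl⟩
    · rintro x y u v ⟨hx, rfl⟩ ⟨hy, rfl⟩
      simp [hx, hy]
    · rintro x u ⟨hx, rfl⟩
      simp [hx]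
    · rintro x u k ⟨hx, rfl⟩
      exact ⟨⟨0, 0, k⟩, by simp [hx]⟩
    · rintro x ⟨hx, hu⟩
      exact Lamp.ext hu hx
  exact acc_Z (κ1 A) aN

/-- The action on a quotient. -/
noncomputable def Act.quot (I : AddSubgroup M) (hI : A.Stab I) : Act (M ⧸ I) where
  a l := QuotientAddGroup.map I I (A.a l) fun a ha => hI l a ha
  one x := by
    induction x using QuotientAddGroup.induction_on with
    | H z => exact congrArg (QuotientAddGroup.mk' I) (A.one z)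
  mul l l' x := by
    induction x using QuotientAddGroup.induction_on with
    | H z => exact congrArg (QuotientAddGroup.mk' I) (A.mul l l' z)

theorem exists_simple (e : M) (he : e ≠ 0)
    (gen : ∀ J : AddSubgroup M, A.Stab J → e ∈ J → ∀ b, b ∈ J)
    (dv : ∀ J : AddSubgroup M, A.Stab J → ∀ (x : M) (n : ℕ), 0 < n → n • x ∈ J → x ∈ J)
    (tow : ∀ l : Lamp, 0 < l.k → ∃ a : ℕ → M,
      (∀ J : AddSubgroup M, A.Stab J → a 0 ∈ J → e ∈ J) ∧ A.Tow l a) :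
    ∃ (M' : Type) (_ : AddCommGroup M') (A' : Act M'),
      (∀ J : AddSubgroup M', A'.Stab J → ∀ a ∈ J, a ≠ 0 → ∀ b, b ∈ J) ∧
      (∀ (x : M') (n : ℕ), 0 < n → n • x = 0 → x = 0) ∧
      ∀ l : Lamp, 0 < l.k → ∃ a : ℕ → M', a 0 ≠ 0 ∧ A'.Tow l a := by
  obtain ⟨I, _, ⟨hI, heI⟩, hmax⟩ := zorn_le_nonempty₀ {J : AddSubgroup M | A.Stab J ∧ e ∉ J}
    (fun c hc hch y hy => by
      have hd := hch.directedOn
      refine ⟨sSup c, ⟨fun l a ha => ?_, fun h => ?_⟩, fun z hz => le_sSup hz⟩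
      · obtain ⟨J, hJ, haJ⟩ := (AddSubgroup.mem_sSup_of_directedOn ⟨y, hy⟩ hd).mp ha
        exact (le_sSup hJ : J ≤ sSup c) ((hc hJ).1 l a haJ)
      · obtain ⟨J, hJ, haJ⟩ := (AddSubgroup.mem_sSup_of_directedOn ⟨y, hy⟩ hd).mp h
        exact (hc hJ).2 haJ) ⊥
    ⟨fun l a ha => by rw [AddSubgroup.mem_bot.mp ha, map_zero]; exact AddSubgroup.zero_mem _,
      fun h => he (AddSubgroup.mem_bot.mp h)⟩
  refine ⟨M ⧸ I, inferInstance, A.quot I hI, fun J hJ a ha hne b => ?_, fun x n hn h => ?_,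
    fun l hl => ?_⟩
  · have hs : A.Stab (J.comap (QuotientAddGroup.mk' I)) := fun l x hx => hJ l _ hx
    obtain ⟨b, rfl⟩ := QuotientAddGroup.mk_surjective b
    obtain ⟨a, rfl⟩ := QuotientAddGroup.mk_surjective a
    refine gen _ hs ?_ b
    by_contra hc
    have hle : I ≤ J.comap (QuotientAddGroup.mk' I) := fun x hx => by
      show QuotientAddGroup.mk' I x ∈ J
      rw [QuotientAddGroup.mk'_apply, (QuotientAddGroup.eq_zero_iff x).mpr hx]
      exact J.zero_mem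
    exact hne ((QuotientAddGroup.eq_zero_iff a).mpr (hmax ⟨hs, hc⟩ hle ha))
  · obtain ⟨x, rfl⟩ := QuotientAddGroup.mk_surjective x
    rw [← QuotientAddGroup.mk_nsmul, QuotientAddGroup.eq_zero_iff] at h
    exact (QuotientAddGroup.eq_zero_iff x).mpr (dv I hI x n hn h)
  · obtain ⟨a, h0, h1, h2⟩ := tow l hl
    refine ⟨fun n => (a n : M ⧸ I),
      fun h => heI (h0 I hI ((QuotientAddGroup.eq_zero_iff _).mp h)), ?_, fun n => ?_⟩
    · exact congrArg (QuotientAddGroup.mk' I) h1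
    · exact congrArg (QuotientAddGroup.mk' I) (h2 n)

end Pool.Agent.P.MP_5f4fc7_al.TF
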