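import Pool.Agent.P.MP_5f4fc7_al.TFFn

set_option autoImplicit false

namespace Pool.Agent.P.MP_5f4fc7_al.TF

open Finsupp

open Classical in
/-- Indicator of the positive squares. -/
noncomputable def sq1 (d : ℤ) : ℤ := if ∃ l : ℕ, 1 ≤ l ∧ d = (l : ℤ) ^ 2 then 1 else 0

theorem sq1_nonpos {d : ℤ} (h : d ≤ 0) : sq1 d = 0 := by
  unfold sq1
  rw [if_neg]
  rintro ⟨l, hl, e⟩
  have : (1 : ℤ) ≤ l := by exact_mod_cast hl
  nlinarith

/-- The lacunary sequence attached to `w`. -/
noncomputable def rho (w : U) (n : ℤ) : ℤ := pr w fun a => sq1 (a - n)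

theorem rho_far_zero (w : U) (m : ℤ) : ∃ n, n < m ∧ rho w n = 0 := by
  obtain ⟨R, hR⟩ := exists_bound w
  obtain ⟨j, hj1, hj2⟩ : ∃ j : ℕ, R + 1 ≤ j ∧ -m < j := ⟨R + 1 + m.natAbs, by omega, by omega⟩
  have hj3 : (R : ℤ) + 1 ≤ j := by exact_mod_cast hj1
  have hR0 : (0 : ℤ) ≤ R := Int.natCast_nonneg R
  refine ⟨-((j : ℤ) ^ 2 + j), by nlinarith, ?_⟩
  apply pr_zero_right
  intro i hi
  obtain ⟨h1, h2⟩ := hR i hi
  unfold sq1
  rw [if_neg]
  rintro ⟨l, _, hl⟩
  have hl0 : (0 : ℤ) ≤ l := Int.natCast_nonneg l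
  rcases le_or_gt (l : ℤ) j with h | h
  · nlinarith
  · have : (j : ℤ) + 1 ≤ l := h
    nlinarith

theorem rho_far_ne {w : U} (hw : w ≠ 0) (m : ℤ) : ∃ n, n < m ∧ rho w n ≠ 0 := by
  obtain ⟨R, hR⟩ := exists_bound w
  obtain ⟨i₀, hi₀⟩ : ∃ i, w i ≠ 0 := by
    by_contra h
    push Not at h
    exact hw (Finsupp.ext h)
  obtain ⟨j, hj1, hj2⟩ : ∃ j : ℕ, 2 * R + 1 ≤ j ∧ R - m < j :=
    ⟨2 * R + 1 + m.natAbs, by omega, by omega⟩
  have hj3 : 2 * (R : ℤ) + 1 ≤ j := by exact_mod_cast hj1
  have hR0 : (0 : ℤ) ≤ R := Int.natCast_nonneg R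
  obtain ⟨a1, a2⟩ := hR i₀ hi₀
  refine ⟨i₀ - (j : ℤ) ^ 2, by nlinarith, ?_⟩
  unfold rho
  rw [pr_one i₀]
  · unfold sq1
    rw [if_pos ⟨j, by omega, by ring⟩, mul_one]
    exact hi₀
  · intro i hi hne
    obtain ⟨h1, h2⟩ := hR i hi
    unfold sq1
    rw [if_neg]
    rintro ⟨l, _, hl⟩
    have hl0 : (0 : ℤ) ≤ l := Int.natCast_nonneg l
    rcases lt_trichotomy (l : ℤ) j with h | h | h
    · have : (l : ℤ) + 1 ≤ j := h
      nlinarith
    · apply hne; rw [h] at hl; omega
    · have : (j : ℤ) + 1 ≤ l := h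
      nlinarith

/-- The radial functions. -/
noncomputable def rad (w : U) : F := Rad (rho w)

theorem rad_add (w w' : U) : rad (w + w') = rad w + rad w' := by
  funext x
  show pr x _ = pr x _ + pr x _
  rw [← pr_add_right]
  refine pr_congr _ fun i _ => ?_
  unfold rho
  rw [pr_add]; ring

@[simp] theorem rad_zero : rad 0 = 0 := by
  funext x
  exact pr_zero_right _ fun i _ => by simp [rho]

theorem rad_neg (w : U) : rad (-w) = -rad w := by
  have := rad_add w (-w)
  rw [add_neg_cancel, rad_zero] at this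
  exact (neg_eq_of_add_eq_zero_right this.symm).symm

theorem rad_smul (n : ℤ) (w x : U) : rad (n • w) x = n * rad w x := by
  induction n using Int.induction_on with
  | zero => simp
  | succ n ih => rw [add_smul, one_smul, rad_add, Pi.add_apply, ih]; ring
  | pred n ih => rw [sub_smul, one_smul, sub_eq_add_neg, rad_add, rad_neg, Pi.add_apply, ih]; simp; ring

theorem rad_sh (k : ℤ) (w x : U) : rad w (sh (-k) x) = rad (sh k w) x := by
  unfold rad
  rw [Rad_sh]
  congr 1
  funext n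
  unfold rho
  rw [pr_sh]
  refine pr_congr _ fun i _ => ?_
  congr 1; ring

theorem rad_inv {w : U} {M : ℤ} (h : ∀ a, M < a → w a = 0) : Inv M (rad w) :=
  Rad_inv fun n hn => pr_zero_right _ fun a ha =>
    sq1_nonpos (by by_contra hc; exact ha (h a (by omega)))

theorem rad_inv' (w : U) : ∃ M, Inv M (rad w) := by
  obtain ⟨R, hR⟩ := exists_bound w
  exact ⟨R, rad_inv fun a ha => by by_contra hc; have := (hR a hc).2; omega⟩

theorem rad_tr_eq (w : U) {m : ℤ} {u : U} (hu : ge m u) (x : U) :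
    rad w (x + u) - rad w x = vv m x * (rad w (cut m x + u) - rad w (cut m x)) := by
  unfold rad
  rw [Rad_split _ m (x + u), Rad_split _ m x, low_add_ge _ hu, cut_add_ge _ hu, vv_add_ge _ hu]
  ring

theorem rad_tr (w u : U) : (fun x => rad w (x + u)) - rad w ∈ BB := by
  obtain ⟨M, hM⟩ := rad_inv' w
  obtain ⟨m, hm⟩ := exists_ge u
  exact ⟨((Rad_aff _).tr u).sub (Rad_aff _), ⟨_, (hM.tr u).sub hM⟩, m, fun x => rad_tr_eq w hm x⟩

theorem Sup.step {m : ℤ} {b : F} (h : Sup m b) {i : ℤ} (hi : i < m) (n : ℤ) {y : U}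
    (hy : ge (i + 1) y) : b (single i n + y) = (1 + n) * b y := by
  have h2 : cut (i + 1) (single i n) = 0 := by
    ext j; rw [cut_apply, Finsupp.single_apply]; split_ifs <;> first | omega | rfl
  rw [h.mono (show i + 1 ≤ m by omega) (single i n + y), cut_add_ge _ hy, vv_add_ge _ hy, h2,
    vv_succ, vv_ge (ge_single _ _ _ le_rfl), zero_add]
  simp

theorem rad_inB {w : U} (h : rad w ∈ BB) : w = 0 := by
  by_contra hw
  obtain ⟨_, _, m, hm⟩ := h
  obtain ⟨n, hn, hne⟩ := rho_far_ne hw m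
  have := hm.step hn 1 (ge_zero _)
  unfold rad at this
  rw [add_zero, Rad_single, Rad_zero] at this
  omega

/-- The bilinear map. -/
noncomputable def bb (x v : U) : U :=
  x.sum fun i c => v.sum fun j d => if i < j then single (i - (j - i) ^ 2) (c * d) else 0

theorem bb_apply (x v : U) (a : ℤ) :
    bb x v a = pr x fun i => pr v fun j => if i < j ∧ i - (j - i) ^ 2 = a then 1 else 0 := by
  unfold bb pr
  rw [Finsupp.sum_apply]
  refine Finsupp.sum_congr fun i _ => ?_
  rw [Finsupp.sum_apply, Finsupp.mul_sum]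
  refine Finsupp.sum_congr fun j _ => ?_
  beta_reduce
  by_cases h : i < j
  · rw [if_pos h, Finsupp.single_apply]
    by_cases h' : i - (j - i) ^ 2 = a
    · rw [if_pos h', if_pos ⟨h, h'⟩, mul_one]
    · rw [if_neg h', if_neg (fun e => h' e.2)]; simp
  · rw [if_neg h, if_neg (fun e => h e.1)]; simp

theorem bb_add_left (x y v : U) : bb (x + y) v = bb x v + bb y v := by
  ext a; simp only [Finsupp.add_apply, bb_apply, pr_add]

theorem bb_add_right (x v v' : U) : bb x (v + v') = bb x v + bb x v' := by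
  ext a; simp only [Finsupp.add_apply, bb_apply, pr_add, pr_add_right]

theorem bb_neg_left (x v : U) : bb (-x) v = -bb x v := by
  ext a; simp only [Finsupp.neg_apply, bb_apply, pr_neg]

@[simp] theorem bb_zero_right (x : U) : bb x 0 = 0 := by
  ext a; rw [bb_apply]; exact pr_zero_right _ fun _ _ => pr_zero _

theorem bb_single (i n : ℤ) (v : U) : bb (single i n) v = n • bb (single i 1) v := by
  ext a; simp only [Finsupp.smul_apply, bb_apply, pr_single, smul_eq_mul, one_mul]

theorem bb_sh (k : ℤ) (x v : U) : bb (sh k x) (sh k v) = sh k (bb x v) := by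
  ext a
  simp only [sh_apply, bb_apply, pr_sh]
  refine pr_congr _ fun i _ => pr_congr _ fun j _ => ?_
  have e : j + k - (i + k) = j - i := by ring
  rw [e]
  exact if_congr (by omega) rfl rfl

theorem bb_top {x : U} {m : ℤ} (h : ∀ i, m < i → x i = 0) (v : U) (a : ℤ) (ha : m < a) :
    bb x v a = 0 := by
  rw [bb_apply]
  refine pr_zero_right _ fun i hi => pr_zero_right _ fun j _ => if_neg ?_
  rintro ⟨_, e⟩
  have := sq_nonneg (j - i)
  exact hi (h i (by omega))

theorem bb_far {y v : U} {M : ℤ} (hy : ge M y) (hv : ∀ j, v j ≠ 0 → j < M) : bb y v = 0 := by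
  ext a
  rw [bb_apply]
  refine pr_zero_right _ fun i hi => pr_zero_right _ fun j hj => if_neg ?_
  rintro ⟨e, _⟩
  have := hv j hj
  exact hi (hy i (by omega))

theorem bb_ne {u v : U} (hu : u ≠ 0) {j₀ : ℤ} (h1 : v j₀ ≠ 0) (h2 : ge (j₀ + 1) u) :
    bb u v ≠ bb v u := by
  classical
  obtain ⟨R, hR⟩ := exists_bound u
  obtain ⟨R', hR'⟩ := exists_bound v
  let P : ℤ → ℤ → Prop := fun i j => i < j ∧ ((u i ≠ 0 ∧ v j ≠ 0) ∨ (v i ≠ 0 ∧ u j ≠ 0))
  have bd : ∀ i j, P i j → -((R : ℤ) + R') < i ∧ j < R + R' := by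
    rintro i j ⟨_, ⟨a, b⟩ | ⟨a, b⟩⟩
    · have := hR i a; have := hR' j b; omega
    · have := hR' i a; have := hR j b; omega
  have hj : ∀ i, u i ≠ 0 → P j₀ i := fun i hi =>
    ⟨by by_contra hc; exact hi (h2 i (by omega)), Or.inr ⟨h1, hi⟩⟩
  obtain ⟨i₀, hi₀⟩ : ∃ i, u i ≠ 0 := by
    by_contra h
    push Not at h
    exact hu (Finsupp.ext h)
  obtain ⟨d, ⟨i', hi'⟩, hd⟩ := Int.exists_greatest_of_bdd (P := fun d => ∃ i, P i (i + d))
    ⟨2 * (R + R'), fun z ⟨i, hi⟩ => by have := bd _ _ hi; omega⟩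
    ⟨i₀ - j₀, j₀, by simpa using hj i₀ hi₀⟩
  obtain ⟨i, hi, hmin⟩ := Int.exists_least_of_bdd (P := fun i => P i (i + d))
    ⟨-(R + R'), fun z hz => by have := bd _ _ hz; omega⟩ ⟨i', hi'⟩
  have hd' : ∀ a b, P a b → b - a ≤ d := fun a b h => hd _ ⟨a, by simpa using h⟩
  have uniq : ∀ a b, P a b → a - (b - a) ^ 2 = i - d ^ 2 → a = i ∧ b = i + d := by
    intro a b h e
    have h3 := hd' a b h
    have h4 := h.1
    by_cases hc : b - a = d
    · rw [hc] at e; omega
    · exfalso
      have h7 : b - a ≤ d - 1 := by omega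
      have h8 : (b - a) ^ 2 ≤ (d - 1) ^ 2 := pow_le_pow_left₀ (by omega) h7 2
      have h5 : a < i := by nlinarith
      have h6 : i - a ≤ d := by
        have h0 := hi.1
        rcases h.2 with ⟨x, _⟩ | ⟨x, _⟩ <;> rcases hi.2 with ⟨y, z⟩ | ⟨y, z⟩
        · have := hd' a (i + d) ⟨by omega, Or.inl ⟨x, z⟩⟩; omega
        · have := hd' a i ⟨by omega, Or.inl ⟨x, y⟩⟩; omega
        · have := hd' a i ⟨by omega, Or.inr ⟨x, y⟩⟩; omega
        · have := hd' a (i + d) ⟨by omega, Or.inr ⟨x, z⟩⟩; omega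
      nlinarith
  have val : ∀ x y : U, (∀ a b, a < b → x a ≠ 0 → y b ≠ 0 → P a b) →
      bb x y (i - d ^ 2) = x i * y (i + d) := by
    intro x y h
    rw [bb_apply, pr_one i]
    · by_cases hx : x i = 0
      · rw [hx, zero_mul, zero_mul]
      · rw [pr_one (i + d), if_pos ⟨hi.1, by ring⟩, mul_one]
        intro j hj hne
        exact if_neg fun e => hne (uniq _ _ (h _ _ e.1 hx hj) e.2).2
    · intro a ha hne
      exact pr_zero_right _ fun j hj => if_neg fun e => hne (uniq _ _ (h _ _ e.1 ha hj) e.2).1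
  intro e
  have e' := DFunLike.congr_fun e (i - d ^ 2)
  rw [val u v fun a b h x y => ⟨h, Or.inl ⟨x, y⟩⟩,
    val v u fun a b h x y => ⟨h, Or.inr ⟨x, y⟩⟩] at e'
  have both : u i ≠ 0 ∧ u (i + d) ≠ 0 := by
    rcases hi.2 with ⟨y, z⟩ | ⟨y, z⟩
    · exact ⟨y, fun h => mul_ne_zero y z (by rw [e', h, mul_zero])⟩
    · exact ⟨fun h => mul_ne_zero y z (by rw [← e', h, zero_mul]), z⟩
  have a1 := (hj i both.1).1
  have a2 := hd' _ _ (hj _ both.2)
  omega

/-- The non-split lift. -/
noncomputable def δ (v : U) : F := fun x => rad (bb x v) x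

theorem δ_add (v v' : U) : δ (v + v') = δ v + δ v' := by
  funext x; simp only [δ, bb_add_right, rad_add, Pi.add_apply]

@[simp] theorem δ_zero : δ 0 = 0 := by
  funext x; simp [δ]

theorem δ_sh (k : ℤ) (v x : U) : δ v (sh (-k) x) = δ (sh k v) x := by
  unfold δ
  rw [rad_sh, ← bb_sh, sh_sh, add_neg_cancel, sh_zero']

theorem δ_inv (v : U) : ∃ M, Inv M (δ v) := by
  obtain ⟨R, hR⟩ := exists_bound v
  refine ⟨R, fun x y hy => ?_⟩
  have hv : ∀ j, v j ≠ 0 → j < R := fun j hj => (hR j hj).2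
  unfold δ
  rw [bb_add_left, bb_far hy hv, add_zero]
  refine rad_inv (fun a ha => ?_) x y hy
  rw [← low_add_cut R x, bb_add_left, bb_far (ge_cut _ _) hv, add_zero]
  exact bb_top (fun i hi => by rw [low_apply, if_neg (by omega)]) v a ha

theorem δ_aff (v : U) : Aff (δ v) := by
  intro x i n
  have hi : Inv i (rad (bb (single i 1) v)) := rad_inv fun a ha =>
    bb_top (fun j hj => by rw [Finsupp.single_apply, if_neg (by omega)]) v a ha
  have key : ∀ n, δ v (x + single i n) =
      rad (bb x v) (x + single i n) + n * rad (bb (single i 1) v) x := fun n => by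
    unfold δ
    rw [bb_add_left, rad_add, Pi.add_apply, bb_single, rad_smul, hi _ _ (ge_single _ _ _ le_rfl)]
  have := Rad_aff (rho (bb x v)) x i n
  rw [key n, key 1]
  unfold δ rad
  rw [this]; ring

theorem δ_tr (v u : U) : (fun x => δ v (x + u)) - δ v - rad (bb u v) ∈ BB := by
  obtain ⟨M, hM⟩ := δ_inv v
  obtain ⟨M', hM'⟩ := rad_inv' (bb u v)
  obtain ⟨m, hm⟩ := exists_ge u
  refine ⟨(((δ_aff v).tr u).sub (δ_aff v)).sub (Rad_aff _),
    ⟨_, (((hM.tr u).sub hM).mono (le_max_left M M')).sub (hM'.mono (le_max_right _ _))⟩, m, ?_⟩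
  have key : ∀ x, δ v (x + u) - δ v x - rad (bb u v) x =
      rad (bb (cut m x + u) v) (x + u) - rad (bb (cut m x + u) v) x := by
    intro x
    have h1 : Inv m (rad (bb (low m x) v)) := rad_inv fun a ha =>
      bb_top (fun j hj => by rw [low_apply, if_neg (by omega)]) v a ha
    have e1 : bb (x + u) v = bb (low m x) v + bb (cut m x + u) v := by
      rw [← bb_add_left, ← add_assoc, low_add_cut]
    have e2 : bb x v = bb (low m x) v + bb (cut m x) v := by rw [← bb_add_left, low_add_cut]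
    unfold δ
    rw [e1, e2]
    simp only [bb_add_left, rad_add, Pi.add_apply, h1 x u hm]
    ring
  intro x
  show δ v (x + u) - δ v x - rad (bb u v) x =
    vv m x * (δ v (cut m x + u) - δ v (cut m x) - rad (bb u v) (cut m x))
  rw [key, key, cut_cut le_rfl, rad_tr_eq _ hm]

/-- The module `A`. -/
def AA : AddSubgroup F where
  carrier := {a | ∃ w, a - rad w ∈ BB}
  zero_mem' := ⟨0, by simp⟩
  add_mem' := by
    rintro a b ⟨w, hw⟩ ⟨w', hw'⟩
    refine ⟨w + w', ?_⟩
    have := BB.add_mem hw hw'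
    rwa [show a - rad w + (b - rad w') = a + b - rad (w + w') by rw [rad_add]; abel] at this
  neg_mem' := by
    rintro a ⟨w, hw⟩
    refine ⟨-w, ?_⟩
    have := BB.neg_mem hw
    rwa [show -(a - rad w) = -a - rad (-w) by rw [rad_neg]; abel] at this

theorem BB_le {a : F} (ha : a ∈ BB) : a ∈ AA := ⟨0, by simpa using ha⟩

theorem AA_diff {a : F} (ha : a ∈ AA) (u : U) : (fun x => a (x + u)) - a ∈ BB := by
  obtain ⟨w, hw⟩ := ha
  have := BB.add_mem (BB.sub_mem (BB_tr hw u) hw) (rad_tr w u)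
  have e : (fun x => a (x + u)) - a = (fun x => (a - rad w) (x + u)) - (a - rad w) +
      ((fun x => rad w (x + u)) - rad w) := by
    funext x; simp only [Pi.add_apply, Pi.sub_apply]; ring
  rwa [e]

theorem AA_tr {a : F} (ha : a ∈ AA) (u : U) : (fun x => a (x + u)) ∈ AA := by
  have := AA.add_mem (BB_le (AA_diff ha u)) ha
  rwa [sub_add_cancel] at this

theorem shf_rad {a : F} {w : U} (hw : a - rad w ∈ BB) (k : ℤ) :
    (fun x => a (sh (-k) x)) - rad (sh k w) ∈ BB := by
  have := BB_shf hw (-k)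
  have e : (fun x => a (sh (-k) x)) - rad (sh k w) = fun x => (a - rad w) (sh (-k) x) := by
    funext x; simp only [Pi.sub_apply, rad_sh]
  rwa [e]

theorem AA_shf {a : F} (ha : a ∈ AA) (k : ℤ) : (fun x => a (sh (-k) x)) ∈ AA := by
  obtain ⟨w, hw⟩ := ha
  exact ⟨_, shf_rad hw k⟩

theorem AA_inv {a : F} (ha : a ∈ AA) : Aff a ∧ ∃ M, Inv M a := by
  obtain ⟨w, h0, ⟨M, hM⟩, _⟩ := ha
  obtain ⟨M', hM'⟩ := rad_inv' w
  have h1 := (hM.mono (le_max_left M M')).add (hM'.mono (le_max_right _ _))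
  have h2 := h0.add (show Aff (rad w) from Rad_aff _)
  rw [sub_add_cancel] at h1 h2
  exact ⟨h2, _, h1⟩

theorem δ_tr_A (v u : U) : (fun x => δ v (x + u)) - δ v ∈ AA := ⟨_, δ_tr v u⟩

/-- An element of `A` fixed by unboundedly many translations vanishes. -/
theorem AA_fixed {a : F} (ha : a ∈ AA) (h : ∀ m, ∃ u, ¬ ge m u ∧ ∀ x, a (x + u) = a x) :
    a = 0 := by
  obtain ⟨w, _, _, m₀, hm₀⟩ := ha
  have step : ∀ i, i < m₀ → ∀ n y, ge (i + 1) y →
      a (single i n + y) = n * rho w i + (1 + n) * a y := by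
    intro i hi n y hy
    have h1 := hm₀.step hi n hy
    have h2 := Rad_step (rho w) i n hy
    simp only [Pi.sub_apply, rad] at h1
    linear_combination h1 + h2
  have hconst : ∀ x, a x = a 0 := by
    intro x
    obtain ⟨m, hm⟩ := exists_ge x
    obtain ⟨u, hu, hfix⟩ := h (min m m₀)
    obtain ⟨i, hi, hne, hg⟩ := exists_low hu
    have key : ∀ y, ge (i + 1) y → a y = -rho w i := by
      intro y hy
      have hc := ge_cut (i + 1) u
      have e1 := step i (by omega) (-1) _ (ge_add hy (ge_neg hc))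
      have e2 := step i (by omega) (-1 + u i) y hy
      have e3 := hfix (single i (-1) + (y + -cut (i + 1) u))
      have e4 : single i (-1) + (y + -cut (i + 1) u) + u = single i (-1 + u i) + y := by
        conv_lhs => rw [← cut_of_ge hg]
        rw [cut_cut (by omega), cut_succ i u, Finsupp.single_add]; abel
      rw [e4, e2, e1] at e3
      have : u i * (a y + rho w i) = 0 := by linear_combination e3
      have := (mul_eq_zero.mp this).resolve_left hne
      omega
    rw [key x (ge_mono hm (by omega)), key 0 (ge_zero _)]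
  obtain ⟨n, hn, hz⟩ := rho_far_zero w m₀
  have := step n hn 1 0 (ge_zero _)
  rw [hz, hconst] at this
  funext x
  rw [hconst]
  show a 0 = 0
  omega

/-- The concrete upper central series for translations by elements of `L`. -/
def Zc (L : Set U) : ℕ → Set F
  | 0 => {0}
  | n + 1 => {f | ∀ u ∈ L, f - (fun x => f (x - u)) ∈ Zc L n}

theorem Zc_lin (L : Set U) (n : ℕ) :
    ∀ a ∈ Zc L n, ∀ b ∈ Zc L n, ∀ (c : ℤ) (v : U), (fun x => a x + c * b (x - v)) ∈ Zc L n := by
  induction n with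
  | zero =>
    intro a ha b hb c v
    rw [Set.mem_singleton_iff.mp ha, Set.mem_singleton_iff.mp hb]
    exact funext fun x => by simp
  | succ n ih =>
    intro a ha b hb c v u hu
    have := ih _ (ha u hu) _ (hb u hu) c v
    have e : ((fun x => a x + c * b (x - v)) - fun x => a (x - u) + c * b (x - u - v)) =
        fun x => (a - fun x => a (x - u)) x + c * (b - fun x => b (x - u)) (x - v) := by
      funext x; simp only [Pi.sub_apply]; rw [sub_right_comm x u v]; ring
    exact e ▸ this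

theorem Zc_succ (L : Set U) (n : ℕ) : ∀ a ∈ Zc L n, a ∈ Zc L (n + 1) := by
  intro a ha u _
  have := Zc_lin L n a ha a ha (-1) u
  have e : (a - fun x => a (x - u)) = fun x => a x + -1 * a (x - u) := by
    funext x; simp only [Pi.sub_apply]; ring
  exact e ▸ this

theorem Zc_mono (L : Set U) {n m : ℕ} (h : n ≤ m) {a : F} (ha : a ∈ Zc L n) : a ∈ Zc L m := by
  induction h with
  | refl => exact ha
  | step _ ih => exact Zc_succ L _ _ ih

theorem Zc_anti {L L' : Set U} (h : L ⊆ L') (n : ℕ) : ∀ a ∈ Zc L' n, a ∈ Zc L n := by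
  induction n with
  | zero => exact fun a ha => ha
  | succ n ih => exact fun a ha u hu => ih _ (ha u (h hu))

theorem Zc_double (L : Set U) (i : ℤ) (n : ℕ) :
    ∀ a ∈ Zc L n, Aff a → a ∈ Zc {u | ∃ c, u + single i c ∈ L} (2 * n) := by
  have fix : ∀ n, ∀ a ∈ Zc L n, (∀ x c, a (x + single i c) = a x) →
      a ∈ Zc {u | ∃ c, u + single i c ∈ L} n := by
    intro n
    induction n with
    | zero => exact fun a ha _ => ha
    | succ n ih =>
      rintro a ha hfix u ⟨c, hu⟩
      apply ih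
      · have := ha _ hu
        have e : (fun x => a (x - (u + single i c))) = fun x => a (x - u) := funext fun x => by
          rw [← hfix _ c]; congr 1; abel
        rwa [e] at this
      · intro x c
        simp only [Pi.sub_apply]
        rw [hfix, add_sub_right_comm, hfix]
  induction n with
  | zero => exact fun a ha _ => ha
  | succ n ih =>
    rintro a ha h0 u ⟨c, hu⟩
    show _ ∈ Zc _ (2 * n + 1)
    have a0 : Aff fun x => a (x - (u + single i c)) := by
      simpa only [sub_eq_add_neg] using h0.tr (-(u + single i c))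
    have h1 := Zc_succ _ _ _ (ih _ (ha _ hu) (h0.sub a0))
    have h2 := Zc_lin L _ a ha a ha (-1) (-single i c)
    have h3 := fix _ _ h2 (by
      intro x c'
      have := h0.diff i c x c'
      simp only [sub_neg_eq_add]
      omega)
    have h4 := Zc_lin _ _ _ h1 _ (Zc_mono _ (show n + 1 ≤ 2 * n + 1 by omega) h3) 1
      (u + single i c)
    have e : (a - fun x => a (x - u)) = fun x => (a - fun x => a (x - (u + single i c))) x +
        1 * (fun x => a x + -1 * a (x - -single i c)) (x - (u + single i c)) := by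
      funext x
      simp only [Pi.sub_apply]
      rw [show x - (u + single i c) - -single i c = x - u by abel]; ring
    exact e ▸ h4

theorem Zc_window {M : ℤ} {a : F} (h0 : Aff a) (ha : Inv M a) (d : ℕ) :
    a ∈ Zc {u | ge (M - d) u} (2 ^ d) := by
  induction d with
  | zero =>
    intro u hu
    have hu' : ge M u := by simpa using hu
    show _ = _
    funext x
    simp only [Pi.sub_apply, sub_eq_add_neg x, ha x _ (ge_neg hu'), sub_self, Pi.zero_apply]
  | succ d ih =>
    have := Zc_double _ (M - (d + 1 : ℕ)) _ _ ih h0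
    rw [pow_succ']
    refine Zc_anti ?_ _ _ this
    intro y hy
    have hy' : ge (M - (d + 1 : ℕ)) y := hy
    refine ⟨-y (M - (d + 1 : ℕ)), fun i hi => ?_⟩
    rw [Finsupp.add_apply, Finsupp.single_apply]
    by_cases e : M - (d + 1 : ℕ) = i
    · rw [if_pos e, e, add_neg_cancel]
    · rw [if_neg e, hy' i (by push_cast at e ⊢; omega), add_zero]

end Pool.Agent.P.MP_5f4fc7_al.TF
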