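import Pool.Agent.P.MP_5f4fc7_al.TFToe
import Pool.Agent.P.MP_5f4fc7_al.TFG0

set_option autoImplicit false

namespace Pool.Agent.P.MP_5f4fc7_al.TF

/-- The ring generated by the shifts of the powers of the basic sequence. -/
def R0 : Subring (ℤ → ℚ) :=
  Subring.closure {f | ∃ i z : ℤ, f = fun m => ((ψ 0 (m - i) ^ z : ℚˣ) : ℚ)}

theorem R_gen (i z : ℤ) : (fun m => ((ψ 0 (m - i) ^ z : ℚˣ) : ℚ)) ∈ R0 :=
  Subring.subset_closure ⟨i, z, rfl⟩

theorem R_shift {a : ℤ → ℚ} (ha : a ∈ R0) (k : ℤ) : (fun m => a (m - k)) ∈ R0 := by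
  induction ha using Subring.closure_induction with
  | mem x hx =>
    obtain ⟨i, z, rfl⟩ := hx
    have := R_gen (k + i) z
    simpa only [sub_sub] using this
  | zero => exact R0.zero_mem
  | one => exact R0.one_mem
  | add x y _ _ hx hy => exact R0.add_mem hx hy
  | neg x _ hx => exact R0.neg_mem hx
  | mul x y _ _ hx hy => exact R0.mul_mem hx hy

theorem R_congr {a b : ℤ → ℚ} (ha : a ∈ R0) (h : ∀ m, b m = a m) : b ∈ R0 :=
  (funext h : b = a) ▸ ha

/-- All powers of `g`, cut down to the multiples of `P`, lie in the ring. -/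
def Loc (P : ℤ) (g : S) : Prop :=
  ∀ z : ℤ, (fun m => if P ∣ m then ((g (m / P) ^ z : ℚˣ) : ℚ) else 0) ∈ R0

theorem Loc.ind {P : ℤ} {g : S} (h : Loc P g) : (fun m => if P ∣ m then (1 : ℚ) else 0) ∈ R0 :=
  R_congr (h 0) fun m => by simp

theorem pick (j : ℕ) (h : Loc (NN j) (ψ j)) (σ : ℤ) :
    Loc (NN (j + 1)) fun a => ψ j (r j * a + σ) := by
  have hN := NN_pos j
  have hE := h.ind
  have hS := h 1
  have t : ∀ i : ℤ, (fun m => 2 * (if NN j ∣ m then (1 : ℚ) else 0) -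
      (if NN j ∣ m - NN j * i then ((ψ j ((m - NN j * i) / NN j) ^ (1 : ℤ) : ℚˣ) : ℚ) else 0))
      ∈ R0 := fun i =>
    R_congr (R0.sub_mem (R0.add_mem hE hE) (R_shift hS (NN j * i))) fun m => by
      simp only [Pi.sub_apply, Pi.add_apply, two_mul]
  have h1 : (fun m => if NN (j + 1) ∣ m then (1 : ℚ) else 0) ∈ R0 := by
    refine R_congr (R0.mul_mem (R0.mul_mem (R0.mul_mem (R0.sub_mem hS hE) (t 1)) (t 2)) (t 3))
      fun m => ?_
    simp only [Pi.mul_apply, Pi.sub_apply]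
    by_cases hm : NN j ∣ m
    · obtain ⟨n, rfl⟩ := hm
      have e2 : NN (j + 1) ∣ NN j * n ↔ r j ∣ n := by
        simp only [NN]
        exact mul_dvd_mul_iff_left hN.ne'
      simp only [← mul_sub, dvd_mul_right, if_true, Int.mul_ediv_cancel_left _ hN.ne', zpow_one,
        e2, ← ψ_mark j n]
      ring
    · have hm' : ¬ NN (j + 1) ∣ m := fun h => hm (Dvd.dvd.trans (Dvd.intro (r j) rfl) h)
      rw [if_neg hm, if_neg hm, if_neg hm']
      simp
  intro z
  refine R_congr (R0.mul_mem h1 (R_shift (h z) (-(NN j * σ)))) fun m => ?_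
  simp only [Pi.mul_apply]
  by_cases hm : NN (j + 1) ∣ m
  · obtain ⟨q, rfl⟩ := hm
    have e1 : NN (j + 1) * q - -(NN j * σ) = NN j * (r j * q + σ) := by simp only [NN]; ring
    rw [if_pos (Dvd.intro _ rfl), if_pos (Dvd.intro _ rfl), e1, if_pos (Dvd.intro _ rfl),
      Int.mul_ediv_cancel_left _ hN.ne', Int.mul_ediv_cancel_left _ (NN_pos _).ne', one_mul]
  · rw [if_neg hm, if_neg hm, zero_mul]

theorem R_rec (j : ℕ) : Loc (NN j) (ψ j) := by
  induction j with
  | zero => exact fun z => R_congr (R_gen 0 z) fun m => by simp [NN]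
  | succ j ih =>
    have := pick j ih 2
    have hr := r_ge j
    have e : (fun a => ψ j (r j * a + 2)) = ψ (j + 1) := funext fun a => by
      rw [ψ_eq j, Ex_eq j _ _ a 2 (by omega) (by omega)]; rfl
    rwa [e] at this

theorem R_ff (j : ℕ) : Loc (NN (j + 1)) (ff j) := by
  have := pick j (R_rec j) 1
  have hr := r_ge j
  have e : (fun a => ψ j (r j * a + 1)) = ff j := funext fun a => by
    rw [ψ_eq j, Ex_eq j _ _ a 1 (by omega) (by omega)]; rfl
  rwa [e] at this

theorem cover (P : ℤ) (hP : 0 < P) (f : ℤ → ℚ)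
    (h : ∀ i : ℕ, i < P → (fun m => if P ∣ m - i then f m else 0) ∈ R0) : f ∈ R0 := by
  refine R_congr (R0.sum_mem (t := Finset.range P.toNat) fun i hi =>
    h i (by have := Finset.mem_range.mp hi; omega)) fun m => ?_
  obtain ⟨t, σ, e, s0, s1⟩ := decomp m P hP
  rw [Finset.sum_apply, Finset.sum_eq_single σ.toNat]
  · rw [Int.toNat_of_nonneg s0, if_pos ⟨t, by rw [e]; ring⟩]
  · intro ρ hρ hne
    rw [if_neg]
    intro hd
    have hρ' : (ρ : ℤ) < P := by have := Finset.mem_range.mp hρ; omega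
    have : P ∣ σ - ρ := by
      rw [e, add_sub_assoc] at hd
      exact (dvd_add_right (Dvd.intro _ rfl)).mp hd
    have := Int.eq_zero_of_abs_lt_dvd this (by rw [abs_lt]; omega)
    omega
  · intro hn
    exact absurd (Finset.mem_range.mpr (by omega)) hn

theorem R_const (q : ℚ) : (fun _ => q) ∈ R0 := by
  have h1 : ∀ n : ℕ, (fun _ => ((n : ℚ) + 1)⁻¹) ∈ R0 := fun n =>
    cover _ (NN_pos (Nat.pair 0 n + 1)) _ fun i _ =>
      R_congr (R_shift (R_ff (Nat.pair 0 n) (-1)) i) fun m => by simp [ff_cst, cst]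
  refine R_congr (R0.mul_mem (intCast_mem R0 q.num) (h1 (q.den - 1))) fun m => ?_
  have := q.den_pos
  rw [Pi.mul_apply, Pi.intCast_apply, Nat.cast_sub this, Nat.cast_one, sub_add_cancel,
    ← div_eq_mul_inv, Rat.num_div_den]

theorem R_id : (fun m : ℤ => (m : ℚ)) ∈ R0 := by
  have hN := NN_pos (Nat.pair 1 1 + 1)
  have h := R_ff (Nat.pair 1 1)
  generalize NN (Nat.pair 1 1 + 1) = P at hN h
  refine cover P hN _ fun i _ => R_congr (R0.add_mem (R0.mul_mem (R_const ((P : ℚ) / 2))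
    (R0.sub_mem (R_shift (h 1) i) (R_shift h.ind i)))
    (R0.mul_mem (R_const (i : ℚ)) (R_shift h.ind i))) fun m => ?_
  simp only [Pi.add_apply, Pi.mul_apply, Pi.sub_apply]
  by_cases hm : P ∣ m - i
  · obtain ⟨a, ha⟩ := hm
    rw [ha, if_pos (Dvd.intro _ rfl), if_pos (Dvd.intro _ rfl), if_pos (Dvd.intro _ rfl),
      Int.mul_ediv_cancel_left _ hN.ne', ff_odd, show m = P * a + i by omega]
    simp only [zpow_one, odd, Units.val_mk0]
    push_cast; ring
  · simp [hm]

theorem R_int (k : ℕ) (hk : 0 < k) (z : ℤ) :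
    (fun m => ((In (ψ 0) k m ^ z : ℚˣ) : ℚ)) ∈ R0 := by
  have hk' : (0 : ℤ) < k := by exact_mod_cast hk
  refine cover k hk' _ fun ρ hρ => ?_
  have hρ' : ρ < k := by exact_mod_cast hρ
  have hN := NN_pos (Nat.pair k ρ + 1)
  have hd := dvd_NN k hk (Nat.pair k ρ + 1) (by have := Nat.left_le_pair k ρ; omega)
  have h := R_ff (Nat.pair k ρ) z
  have hv := ff_int k ρ hρ'
  generalize NN (Nat.pair k ρ + 1) = P at hN hd h hv
  have steps : ∀ i : ℕ, (fun m => if P ∣ m - (ρ - k + i * k) then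
      ((In (ψ 0) k m ^ z : ℚˣ) : ℚ) else 0) ∈ R0 := by
    intro i
    induction i with
    | zero =>
      refine R_congr (R_shift h (ρ - k)) fun m => ?_
      simp only [Nat.cast_zero, zero_mul, add_zero]
      split_ifs with hm
      · obtain ⟨a, ha⟩ := hm
        rw [ha, Int.mul_ediv_cancel_left _ hN.ne', hv, show P * a - k + ρ = m by omega]
      · rfl
    | succ i ih =>
      refine R_congr (R0.mul_mem (R_gen 0 z) (R_shift ih k)) fun m => ?_
      simp only [Pi.mul_apply, sub_zero]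
      rw [show m - k - (ρ - k + i * k) = m - (ρ - k + ((i + 1 : ℕ) : ℤ) * k) by push_cast; ring]
      split_ifs
      · rw [In_rec _ hk' m, mul_zpow, Units.val_mul]
      · rw [mul_zero]
  refine cover P hN _ fun i _ => ?_
  by_cases hi : (k : ℤ) ∣ i - ρ
  · obtain ⟨c, hc⟩ := hi
    have hc0 : 0 ≤ c + 1 := by
      by_contra hh
      have : c ≤ -2 := by omega
      nlinarith [Int.natCast_nonneg i]
    refine R_congr (steps (c + 1).toNat) fun m => ?_
    rw [Int.toNat_of_nonneg hc0, show (ρ : ℤ) - k + (c + 1) * k = i by linear_combination -hc]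
    split_ifs with h1 h2
    · rfl
    · exact absurd (by
        have := dvd_add (hd.trans h1) (Dvd.intro c hc.symm)
        rwa [sub_add_sub_cancel] at this) h2
    · rfl
  · refine R_congr R0.zero_mem fun m => ?_
    split_ifs with h1 h2
    · exact absurd (by
        have := dvd_sub h2 (hd.trans h1)
        rwa [sub_sub_sub_cancel_left] at this) hi
    · rfl
    · rfl

/-- Multiplicative convolution. -/
noncomputable def cv (g : S) (w : U) : S := fun m => w.prod fun i z => g (m - i) ^ z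

theorem cv_add (g : S) (w w' : U) (m : ℤ) : cv g (w + w') m = cv g w m * cv g w' m :=
  Finsupp.prod_add_index' (fun _ => zpow_zero _) fun _ _ _ => zpow_add _ _ _

@[simp] theorem cv_zero (g : S) (m : ℤ) : cv g 0 m = 1 := Finsupp.prod_zero_index

theorem cv_single (g : S) (i z m : ℤ) : cv g (Finsupp.single i z) m = g (m - i) ^ z :=
  Finsupp.prod_single_index (zpow_zero _)

theorem cv_sh (g : S) (k : ℤ) (w : U) (m : ℤ) : cv g (sh k w) m = cv g w (m - k) := by
  induction w using Finsupp.induction_linear with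
  | zero => simp
  | add f g hf hg => rw [sh_add, cv_add, cv_add, hf, hg]
  | single i c => rw [sh_single, cv_single, cv_single, sub_sub, add_comm]

theorem cv_int (k : ℤ) (hk : 0 < k) (w : U) (m : ℤ) :
    cv (In (ψ 0) k) w m = cv (ψ 0) w m * cv (In (ψ 0) k) w (m - k) := by
  induction w using Finsupp.induction_linear with
  | zero => simp
  | add f g hf hg => simp only [cv_add]; rw [hf, hg, mul_mul_mul_comm]
  | single i c => simp only [cv_single]; rw [In_rec _ hk, mul_zpow, sub_right_comm]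

theorem R_cv {g : S} (h : ∀ z : ℤ, (fun m => ((g m ^ z : ℚˣ) : ℚ)) ∈ R0) (w : U) :
    (fun m => ((cv g w m : ℚˣ) : ℚ)) ∈ R0 := by
  induction w using Finsupp.induction_linear with
  | zero => exact R_congr R0.one_mem fun m => by simp
  | add f g hf hg => exact R_congr (R0.mul_mem hf hg) fun m => by simp [cv_add]
  | single i c => exact R_congr (R_shift (h c) i) fun m => by rw [cv_single]

theorem R_chi (w : U) : (fun m => ((cv (ψ 0) w m : ℚˣ) : ℚ)) ∈ R0 :=
  R_cv (fun z => R_congr (R_gen 0 z) fun m => by simp) w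

/-- The action on the ring. -/
noncomputable def A1 : Act R0 where
  a l :=
    { toFun := fun f => ⟨fun m => (cv (ψ 0) l.u m : ℚˣ) * f.1 (m - l.k),
        R0.mul_mem (R_chi l.u) (R_shift f.2 l.k)⟩
      map_zero' := Subtype.ext (funext fun m => by simp)
      map_add' := fun _ _ => Subtype.ext (funext fun m => by simp [mul_add]) }
  one f := Subtype.ext (funext fun m => by simp)
  mul l l' f := Subtype.ext (funext fun m => by simp [cv_add, cv_sh, mul_assoc, sub_sub])

theorem A1_apply (l : Lamp) (f : R0) (m : ℤ) :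
    (A1.a l f).1 m = (cv (ψ 0) l.u m : ℚˣ) * f.1 (m - l.k) := rfl

theorem ideal (J : AddSubgroup R0) (hJ : A1.Stab J) (c : R0) : ∀ a ∈ J, c * a ∈ J := by
  obtain ⟨c, hc⟩ := c
  induction hc using Subring.closure_induction with
  | mem x hx =>
    obtain ⟨i, z, rfl⟩ := hx
    intro a ha
    have := hJ ⟨Finsupp.single i z, 0⟩ a ha
    have e : A1.a ⟨Finsupp.single i z, 0⟩ a = ⟨_, R_gen i z⟩ * a :=
      Subtype.ext (funext fun m => by rw [A1_apply, cv_single]; simp)
    rwa [e] at this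
  | zero => intro a _; exact (zero_mul a).symm ▸ J.zero_mem
  | one => intro a ha; exact (one_mul a).symm ▸ ha
  | add x y hx' hy' hx hy =>
    intro a ha
    exact (add_mul (⟨x, hx'⟩ : R0) ⟨y, hy'⟩ a).symm ▸ J.add_mem (hx a ha) (hy a ha)
  | neg x hx' hx => intro a ha; exact (neg_mul (⟨x, hx'⟩ : R0) a).symm ▸ J.neg_mem (hx a ha)
  | mul x y hx' hy' hx hy =>
    intro a ha
    exact (mul_assoc (⟨x, hx'⟩ : R0) ⟨y, hy'⟩ a).symm ▸ hx _ (hy a ha)

/-- Normalised rising products. -/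
def φ (k : ℤ) (n : ℕ) (m : ℤ) : ℚ := ∏ i ∈ Finset.range n, ((m : ℚ) + i * k) / ((i + 1) * k)

theorem φ_mem (k : ℤ) (n : ℕ) : φ k n ∈ R0 := by
  induction n with
  | zero => exact R0.one_mem
  | succ n ih =>
    refine R_congr (R0.mul_mem ih (R0.mul_mem (R0.add_mem R_id (R_const (n * k)))
      (R_const (((n + 1) * k)⁻¹)))) fun m => ?_
    simp only [φ, Finset.prod_range_succ, Pi.mul_apply, Pi.add_apply, div_eq_mul_inv]

theorem φ_diff {k : ℤ} (hk : 0 < k) (n : ℕ) (m : ℤ) :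
    φ k (n + 1) m - φ k (n + 1) (m - k) = φ k n m := by
  have hk' : (k : ℚ) ≠ 0 := by exact_mod_cast hk.ne'
  have key : ∀ n : ℕ, φ k (n + 1) (m - k) * ((n + 1) * k) = φ k n m * (m - k) := by
    intro n
    induction n with
    | zero => simp [φ, hk']
    | succ n ih =>
      have hn : ((n : ℚ) + 1) ≠ 0 := by positivity
      have hn2 : ((n : ℚ) + 1 + 1) ≠ 0 := by positivity
      have e1 : φ k (n + 1 + 1) (m - k) = φ k (n + 1) (m - k) *
          ((m + n * k) / ((n + 1 + 1) * k)) := by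
        unfold φ
        rw [Finset.prod_range_succ _ (n + 1)]
        push_cast
        congr 2; ring
      have e2 : φ k (n + 1) m = φ k n m * ((m + n * k) / ((n + 1) * k)) :=
        Finset.prod_range_succ _ n
      rw [e1, e2, mul_right_comm (φ k n m), ← ih]
      push_cast
      field_simp
  have hn : ((n : ℚ) + 1) * k ≠ 0 := mul_ne_zero (by positivity) hk'
  apply mul_right_cancel₀ hn
  rw [sub_mul, key]
  unfold φ
  rw [Finset.prod_range_succ, mul_assoc, div_mul_cancel₀ _ hn]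
  ring

theorem exists_M1 : ∃ (M' : Type) (_ : AddCommGroup M') (A' : Act M'),
    (∀ J : AddSubgroup M', A'.Stab J → ∀ a ∈ J, a ≠ 0 → ∀ b, b ∈ J) ∧
    (∀ (x : M') (n : ℕ), 0 < n → n • x = 0 → x = 0) ∧
    ∀ l : Lamp, 0 < l.k → ∃ a : ℕ → M', a 0 ≠ 0 ∧ A'.Tow l a := by
  refine exists_simple A1 1 one_ne_zero (fun J hJ h b => mul_one b ▸ ideal J hJ b 1 h)
    (fun J hJ x n hn h => ?_) fun l hl => ?_
  · have := ideal J hJ ⟨_, R_const (n : ℚ)⁻¹⟩ _ h
    have hn' : (n : ℚ) ≠ 0 := by positivity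
    have e : (⟨_, R_const (n : ℚ)⁻¹⟩ : R0) * n • x = x :=
      Subtype.ext (funext fun m => by simp [hn'])
    rwa [e] at this
  · obtain ⟨k, hk⟩ := Int.eq_ofNat_of_zero_le hl.le
    have hγ := fun w => R_cv (R_int k (by omega)) w
    rw [← hk] at hγ
    refine ⟨fun n => ⟨φ l.k n, φ_mem _ _⟩ * ⟨_, hγ l.u⟩, fun J hJ h => ?_, ?_, fun n => ?_⟩
    · have := ideal J hJ ⟨_, hγ (-l.u)⟩ _ h
      have e : (⟨_, hγ (-l.u)⟩ : R0) * (⟨φ l.k 0, φ_mem _ _⟩ * ⟨_, hγ l.u⟩) = 1 :=
        Subtype.ext (funext fun m => by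
          show ((cv _ _ m : ℚˣ) : ℚ) * (1 * (cv _ _ m : ℚˣ)) = 1
          rw [one_mul, ← Units.val_mul, ← cv_add, neg_add_cancel, cv_zero, Units.val_one])
      rwa [e] at this
    · refine Subtype.ext (funext fun m => ?_)
      show 1 * ((cv _ _ m : ℚˣ) : ℚ) - (cv (ψ 0) l.u m : ℚˣ) * (1 * (cv _ _ (m - l.k) : ℚˣ)) = 0
      rw [cv_int _ hl, Units.val_mul]; ring
    · refine Subtype.ext (funext fun m => ?_)
      show φ l.k (n + 1) m * ((cv _ _ m : ℚˣ) : ℚ) - (cv (ψ 0) l.u m : ℚˣ) *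
        (φ l.k (n + 1) (m - l.k) * (cv _ _ (m - l.k) : ℚˣ)) = φ l.k n m * (cv _ _ m : ℚˣ)
      rw [cv_int _ hl, Units.val_mul, ← φ_diff hl n m]; ring

theorem main : ∃ (G : Type) (_ : Group G), TFr G ∧ derivedSeries G 3 = ⊥ ∧ Group.FG G ∧
    ACC (Set.univ : Set G) ∧ ∀ H : Subgroup G, Nil H → ∃ K : Subgroup G, Nil K ∧ H < K := by
  obtain ⟨M, _, A, simple, tf, tow⟩ := exists_M1
  have hinj : ∀ x : FP κ0 (κ1 A), p₀ κ0 (κ1 A) x = 1 → p₁ κ0 (κ1 A) x = 1 → x = 1 :=
    fun x h0 h1 => fp_ext _ _ (by rw [h0, map_one]) (by rw [h1, map_one])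
  have hd : derivedSeries (FP κ0 (κ1 A)) 3 = ⊥ := by
    rw [eq_bot_iff]
    intro x hx
    have h0 := map_derivedSeries_le_derivedSeries (p₀ κ0 (κ1 A)) 3 (Subgroup.mem_map_of_mem _ hx)
    have h1 := map_derivedSeries_le_derivedSeries (p₁ κ0 (κ1 A)) 3 (Subgroup.mem_map_of_mem _ hx)
    rw [der0, Subgroup.mem_bot] at h0
    rw [SD.der, Subgroup.mem_bot] at h1
    exact Subgroup.mem_bot.mpr (hinj x h0 h1)
  have ha := fp_acc κ0 (κ1 A) κ0_surj (κ1_surj A) acc0 (acc1 A simple)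
  refine ⟨FP κ0 (κ1 A), inferInstance, fun g n hn h => hinj g ?_ ?_, hd, fg_of_acc 3 hd ha, ha,
    fp_nomax κ0 (κ1 A) prop0 (prop1 A tow)⟩
  · exact tfr0 _ n hn (by rw [← map_pow, h, map_one])
  · exact SD.tfr tf _ n hn (by rw [← map_pow, h, map_one])

end Pool.Agent.P.MP_5f4fc7_al.TF
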