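import Pool.Agent.P.MP_5f4fc7_al.TFAbs

set_option autoImplicit false

namespace Pool.Agent.P.MP_5f4fc7_al.TF

open scoped commutatorElement

/-- Finitely supported integer sequences on the integers. -/
abbrev U : Type := ℤ →₀ ℤ

/-- The shift. -/
noncomputable def sh (k : ℤ) (u : U) : U := Finsupp.equivMapDomain (Equiv.addRight k) u

@[simp] theorem sh_apply (k : ℤ) (u : U) (i : ℤ) : sh k u i = u (i - k) := by
  simp [sh, Finsupp.equivMapDomain_apply, sub_eq_add_neg]

@[simp] theorem sh_add (k : ℤ) (u v : U) : sh k (u + v) = sh k u + sh k v := by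
  ext i; simp

@[simp] theorem sh_neg (k : ℤ) (u : U) : sh k (-u) = -sh k u := by
  ext i; simp

@[simp] theorem sh_sub (k : ℤ) (u v : U) : sh k (u - v) = sh k u - sh k v := by
  ext i; simp

@[simp] theorem sh_zero (k : ℤ) : sh k (0 : U) = 0 := by
  ext i; simp

@[simp] theorem sh_zero' (u : U) : sh 0 u = u := by
  ext i; simp

theorem sh_sh (k l : ℤ) (u : U) : sh k (sh l u) = sh (k + l) u := by
  ext i; simp only [sh_apply]; congr 1; ring

theorem sh_single (k i : ℤ) (c : ℤ) : sh k (Finsupp.single i c) = Finsupp.single (i + k) c := by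
  ext j
  simp only [sh_apply, Finsupp.single_apply]
  by_cases h : i + k = j
  · rw [if_pos h, if_pos (by omega)]
  · rw [if_neg h, if_neg (by omega)]

theorem sh_fixed {k : ℤ} (hk : k ≠ 0) {w : U} (h : sh k w = w) : w = 0 := by
  have e : ∀ i, w (i - k) = w i := by
    intro i
    have := DFunLike.congr_fun h i
    simpa only [sh_apply] using this
  by_contra hw
  have hne : w.support.Nonempty := Finsupp.support_nonempty_iff.mpr hw
  have h1 := w.support.min'_mem hne
  have h2 := w.support.max'_mem hne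
  have h3 : w.support.min' hne - k ∈ w.support := by
    rw [Finsupp.mem_support_iff] at h1 ⊢; rwa [e]
  have h4 : w.support.max' hne - k ∈ w.support := by
    rw [Finsupp.mem_support_iff] at h2 ⊢; rwa [e]
  have h5 := w.support.min'_le _ h3
  have h6 := w.support.le_max' _ h4
  omega

open LaurentPolynomial in
theorem T_mul_ofCoeff (k : ℤ) (u : U) :
    (T k : ℤ[T;T⁻¹]) * AddMonoidAlgebra.ofCoeff u = AddMonoidAlgebra.ofCoeff (sh k u) := by
  ext i
  rw [T, AddMonoidAlgebra.coeff_single_mul_apply]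
  simp only [one_mul, sh_apply]
  congr 1; ring

open LaurentPolynomial in
theorem mem_of_span (S : AddSubgroup U) (hsh : ∀ k, ∀ u ∈ S, sh k u ∈ S) (p : ℤ[T;T⁻¹])
    (hp : p ∈ Ideal.span (AddMonoidAlgebra.ofCoeff '' (S : Set U) : Set ℤ[T;T⁻¹])) :
    p.coeff ∈ S := by
  induction hp using Submodule.span_induction with
  | mem x hx => obtain ⟨u, hu, rfl⟩ := hx; exact hu
  | zero => exact S.zero_mem
  | add x y _ _ hx hy => exact S.add_mem hx hy
  | smul a x _ hx =>
    rw [smul_eq_mul]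
    induction a using LaurentPolynomial.induction_on' with
    | add p q hp hq => rw [add_mul]; exact S.add_mem hp hq
    | C_mul_T n a =>
      have := T_mul_ofCoeff n x.coeff
      rw [AddMonoidAlgebra.ofCoeff_coeff] at this
      rw [mul_assoc, this, ← smul_eq_C_mul]
      exact S.zsmul_mem (hsh n _ hx) a

instance laurent_noeth : IsNoetherianRing (LaurentPolynomial ℤ) :=
  IsLocalization.isNoetherianRing (Submonoid.powers (Polynomial.X : Polynomial ℤ)) _
    inferInstance

section

variable {G : Type*} [Group G]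

theorem acc_U (N₁ N₂ : Set G) (ρ : G → U → Prop) (h1 : ∀ x ∈ N₂, ∃ u, ρ x u) (h2 : ρ 1 0)
    (h3 : ∀ x y u v, ρ x u → ρ y v → ρ (x * y) (u + v)) (h3' : ∀ x u, ρ x u → ρ x⁻¹ (-u))
    (h4 : ∀ x u k, ρ x u → ∃ g, ρ (g * x * g⁻¹) (sh k u))
    (h5 : ∀ x, ρ x 0 → x ∈ N₁) (ha : ACC N₁) : ACC N₂ := by
  refine acc_step N₁ N₂ (fun P => Ideal.span
    (AddMonoidAlgebra.ofCoeff '' {u | ∃ x ∈ P, ρ x u} : Set (LaurentPolynomial ℤ))) ?_ ?_ ha
  · intro P P' h
    apply Ideal.span_mono
    apply Set.image_mono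
    rintro u ⟨x, hx, hu⟩
    exact ⟨x, h hx, hu⟩
  · intro P P' hP _ _ e x hx hxN
    obtain ⟨u, hu⟩ := h1 x hxN
    have m : (AddMonoidAlgebra.ofCoeff u : LaurentPolynomial ℤ) ∈ Ideal.span
        (AddMonoidAlgebra.ofCoeff '' {u | ∃ x ∈ P', ρ x u} : Set (LaurentPolynomial ℤ)) :=
      Ideal.subset_span ⟨u, ⟨x, hx, hu⟩, rfl⟩
    rw [← e] at m
    let S : AddSubgroup U :=
      { carrier := {u | ∃ x ∈ P, ρ x u}
        zero_mem' := ⟨1, P.one_mem, h2⟩
        add_mem' := by
          rintro u v ⟨x, hx, hu⟩ ⟨y, hy, hv⟩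
          exact ⟨x * y, P.mul_mem hx hy, h3 _ _ _ _ hu hv⟩
        neg_mem' := by
          rintro u ⟨x, hx, hu⟩
          exact ⟨x⁻¹, P.inv_mem hx, h3' _ _ hu⟩ }
    have := mem_of_span S (by
      rintro k u ⟨x, hx, hu⟩
      obtain ⟨g, hg⟩ := h4 x u k hu
      exact ⟨_, hP.conj_mem x hx g, hg⟩) _ m
    obtain ⟨y, hy, hyu⟩ := this
    refine ⟨y, hy, h5 _ ?_⟩
    have := h3 _ _ _ _ hu (h3' _ _ hyu)
    have e0 : u + -(AddMonoidAlgebra.ofCoeff u : LaurentPolynomial ℤ).coeff = 0 := add_neg_cancel u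
    rwa [e0] at this

theorem acc_Z (κ : G →* Multiplicative ℤ) (ha : ACC {x | κ x = 1}) : ACC (Set.univ : Set G) := by
  refine acc_step _ _ (fun P => AddSubgroup.toIntSubmodule (Subgroup.toAddSubgroup' (P.map κ)))
    ?_ ?_ ha
  · intro P P' h
    exact AddSubgroup.toIntSubmodule.monotone
      (Subgroup.toAddSubgroup'.monotone (Subgroup.map_mono h))
  · intro P P' _ _ _ e x hx _
    have e' : P.map κ = P'.map κ :=
      Subgroup.toAddSubgroup'.injective (AddSubgroup.toIntSubmodule.injective e)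
    have : κ x ∈ P.map κ := e' ▸ Subgroup.mem_map_of_mem κ hx
    obtain ⟨y, hy, hyx⟩ := this
    refine ⟨y, hy, ?_⟩
    show κ (x * y⁻¹) = 1
    rw [map_mul, map_inv, hyx, mul_inv_cancel]

theorem acc_simple (N : Set G)
    (h : ∀ P : Subgroup G, P.Normal → ∀ x ∈ P, x ∈ N → x ≠ 1 → ∀ y ∈ N, y ∈ P) : ACC N := by
  intro f hf hm
  by_cases hex : ∃ n, ∃ x ∈ f n, x ∈ N ∧ x ≠ 1
  · obtain ⟨n, x, hx, hxN, hx1⟩ := hex
    exact ⟨n, fun m _ y _ hy => h _ (hf n) x hx hxN hx1 y hy⟩
  · push Not at hex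
    refine ⟨0, fun m _ y hy hyN => ?_⟩
    rw [hex m y hy hyN]
    exact (f 0).one_mem

/-- Torsion-freeness. -/
def TFr (G : Type*) [Group G] : Prop := ∀ (g : G) (n : ℕ), 0 < n → g ^ n = 1 → g = 1

theorem tfr_of {G' : Type*} [Group G'] (φ : G →* G') (h' : TFr G')
    (hk : ∀ (g : G) (n : ℕ), φ g = 1 → 0 < n → g ^ n = 1 → g = 1) : TFr G := fun g n hn hg =>
  hk g n (h' _ n hn (by rw [← map_pow, hg, map_one])) hn hg

theorem tfr_sub (h : TFr G) (H : Subgroup G) : TFr H := fun g n hn hg =>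
  Subtype.ext (h g.1 n hn (congrArg Subtype.val hg))

theorem tfr_Z : TFr (Multiplicative ℤ) := fun g n hn hg => by
  have := congrArg Multiplicative.toAdd hg
  rw [toAdd_pow, toAdd_one, nsmul_eq_mul] at this
  rcases mul_eq_zero.mp this with h | h
  · omega
  · exact h

theorem der_of {G' : Type*} [Group G'] (φ : G →* G') (n : ℕ) (h' : derivedSeries G' n = ⊥)
    (h : ∀ a b, φ a = 1 → φ b = 1 → a * b = b * a) : derivedSeries G (n + 1) = ⊥ := by
  have hk : ∀ a ∈ derivedSeries G n, φ a = 1 := fun a ha => by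
    have := map_derivedSeries_le_derivedSeries φ n (Subgroup.mem_map_of_mem φ ha)
    rwa [h', Subgroup.mem_bot] at this
  rw [derivedSeries_succ, eq_bot_iff, Subgroup.commutator_le]
  intro a ha b hb
  exact Subgroup.mem_bot.mpr (commutatorElement_eq_one_iff_mul_comm.mpr (h a b (hk a ha) (hk b hb)))

theorem der_sub (n : ℕ) (h : derivedSeries G n = ⊥) (H : Subgroup G) : derivedSeries H n = ⊥ := by
  rw [eq_bot_iff]
  intro a ha
  have := map_derivedSeries_le_derivedSeries H.subtype n (Subgroup.mem_map_of_mem _ ha)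
  rw [h, Subgroup.mem_bot] at this
  exact Subgroup.mem_bot.mpr (Subtype.ext this)

theorem der_Z : derivedSeries (Multiplicative ℤ) 1 = ⊥ :=
  der_of (1 : Multiplicative ℤ →* Unit) 0 (Subsingleton.elim _ _) fun a b _ _ => mul_comm a b

/-- A soluble group with the maximal condition on normal subgroups is finitely generated. -/
theorem fg_of_acc (n : ℕ) (hn : derivedSeries G n = ⊥) (ha : ACC (Set.univ : Set G)) :
    Group.FG G := by
  classical
  have fin : ∀ N : Subgroup G, N.Normal →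
      ∃ T : Finset G, (T : Set G) ⊆ N ∧ N ≤ Subgroup.normalClosure (T : Set G) := by
    intro N hN
    by_contra hcon
    push Not at hcon
    have step : ∀ T : {T : Finset G // (T : Set G) ⊆ N}, ∃ x ∈ N,
        x ∉ Subgroup.normalClosure (T.1 : Set G) := fun T =>
      SetLike.not_le_iff_exists.mp (hcon T.1 T.2)
    choose x hx hx' using step
    let nx : {T : Finset G // (T : Set G) ⊆ N} → {T : Finset G // (T : Set G) ⊆ N} := fun T =>
      ⟨insert (x T) T.1, by rw [Finset.coe_insert]; exact Set.insert_subset (hx T) T.2⟩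
    let s : ℕ → {T : Finset G // (T : Set G) ⊆ N} := fun m => nx^[m] ⟨∅, by simp⟩
    have hs : ∀ m, s (m + 1) = nx (s m) := fun m => Function.iterate_succ_apply' _ _ _
    obtain ⟨m, hm⟩ := ha (fun m => Subgroup.normalClosure ((s m).1 : Set G))
      (fun _ => inferInstance) (monotone_nat_of_le_succ fun m => by
        apply Subgroup.normalClosure_mono
        rw [hs]
        exact Finset.coe_subset.mpr (Finset.subset_insert _ _))
    refine hx' (s m) (hm (m + 1) (Nat.le_succ m) _ ?_ trivial)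
    apply Subgroup.subset_normalClosure
    rw [hs]
    exact Finset.mem_coe.mpr (Finset.mem_insert_self _ _)
  have main : ∀ i, ∃ S : Finset G, Subgroup.closure (S : Set G) ⊔ derivedSeries G i = ⊤ := by
    intro i
    induction i with
    | zero => exact ⟨∅, by simp⟩
    | succ i ih =>
      obtain ⟨S, hS⟩ := ih
      obtain ⟨T, hT1, hT2⟩ := fin (derivedSeries G i) inferInstance
      refine ⟨S ∪ T, ?_⟩
      set H := Subgroup.closure ((S ∪ T : Finset G) : Set G) ⊔ derivedSeries G (i + 1) with hH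
      have hSH : Subgroup.closure (S : Set G) ≤ H :=
        le_trans (Subgroup.closure_mono (by simp)) le_sup_left
      have hN : (H ⊓ derivedSeries G i).Normal := by
        refine ⟨fun a ha g => ⟨?_, (derivedSeries_normal G i).conj_mem a ha.2 g⟩⟩
        have hg : g ∈ Subgroup.closure (S : Set G) ⊔ derivedSeries G i := hS ▸ Subgroup.mem_top g
        rw [← SetLike.mem_coe, Subgroup.mul_normal] at hg
        obtain ⟨s, hs, d, hd, rfl⟩ := hg
        have h1 : ⁅d, a⁆ ∈ H := by
          apply (le_sup_right : derivedSeries G (i + 1) ≤ H)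
          rw [derivedSeries_succ]
          exact Subgroup.commutator_mem_commutator hd ha.2
        have e : s * d * a * (s * d)⁻¹ = s * (⁅d, a⁆ * a) * s⁻¹ := by
          rw [commutatorElement_def]; group
        show s * d * a * (s * d)⁻¹ ∈ H
        rw [e]
        exact H.mul_mem (H.mul_mem (hSH hs) (H.mul_mem h1 ha.1)) (H.inv_mem (hSH hs))
      have h2 : Subgroup.normalClosure (T : Set G) ≤ H ⊓ derivedSeries G i :=
        Subgroup.normalClosure_le_normal fun t ht =>
          ⟨(le_sup_left : _ ≤ H) (Subgroup.subset_closure (by simp [Finset.mem_coe.mp ht])), hT1 ht⟩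
      rw [eq_top_iff, ← hS]
      exact sup_le hSH (le_trans hT2 (le_trans h2 inf_le_left))
  obtain ⟨S, hS⟩ := main n
  rw [hn, sup_bot_eq] at hS
  exact ⟨⟨S, hS⟩⟩

end

/-- The wreath product of two infinite cyclic groups. -/
@[ext] structure Lamp where
  u : U
  k : ℤ

noncomputable instance : Mul Lamp := ⟨fun a b => ⟨a.u + sh a.k b.u, a.k + b.k⟩⟩
instance : One Lamp := ⟨⟨0, 0⟩⟩
noncomputable instance : _root_.Inv Lamp := ⟨fun a => ⟨-sh (-a.k) a.u, -a.k⟩⟩

@[simp] theorem Lamp.mul_u (a b : Lamp) : (a * b).u = a.u + sh a.k b.u := rfl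
@[simp] theorem Lamp.mul_k (a b : Lamp) : (a * b).k = a.k + b.k := rfl
@[simp] theorem Lamp.one_u : (1 : Lamp).u = 0 := rfl
@[simp] theorem Lamp.one_k : (1 : Lamp).k = 0 := rfl
@[simp] theorem Lamp.inv_u (a : Lamp) : (a⁻¹).u = -sh (-a.k) a.u := rfl
@[simp] theorem Lamp.inv_k (a : Lamp) : (a⁻¹).k = -a.k := rfl

noncomputable instance : Group Lamp :=
  Group.ofLeftAxioms
    (fun a b c => by
      apply Lamp.ext
      · simp [sh_sh, add_assoc]
      · simp [add_assoc])
    (fun a => by apply Lamp.ext <;> simp)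
    (fun a => by apply Lamp.ext <;> simp)

/-- Degree map. -/
noncomputable def Lamp.deg : Lamp →* Multiplicative ℤ where
  toFun a := Multiplicative.ofAdd a.k
  map_one' := rfl
  map_mul' _ _ := rfl

theorem Lamp.der : derivedSeries Lamp 2 = ⊥ :=
  der_of Lamp.deg 1 der_Z fun a b ha hb => by
    have ha' : a.k = 0 := ha
    have hb' : b.k = 0 := hb
    apply Lamp.ext <;> simp [ha', hb', add_comm]

theorem Lamp.pow_u (a : Lamp) (h : a.k = 0) (n : ℕ) : (a ^ n).u = n • a.u ∧ (a ^ n).k = 0 := by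
  induction n with
  | zero => simp
  | succ n ih => rw [pow_succ]; simp [ih.1, ih.2, h, add_smul]

theorem Lamp.tfr : TFr Lamp :=
  tfr_of Lamp.deg tfr_Z fun g n hg hn h => by
    have hk : g.k = 0 := hg
    have h1 := (Lamp.pow_u g hk n).1
    rw [h, Lamp.one_u] at h1
    refine Lamp.ext ?_ hk
    ext i
    have := DFunLike.congr_fun h1 i
    simp only [Finsupp.coe_zero, Pi.zero_apply, Finsupp.smul_apply, nsmul_eq_mul] at this
    rcases mul_eq_zero.mp this.symm with h | h
    · omega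
    · exact h

/-- An action of the wreath product on an abelian group. -/
structure Act (M : Type) [AddCommGroup M] where
  a : Lamp → M →+ M
  one : ∀ x, a 1 x = x
  mul : ∀ l l' x, a (l * l') x = a l (a l' x)

variable {M : Type} [AddCommGroup M]

/-- The semidirect product. -/
@[ext] structure SD (A : Act M) where
  g : M
  l : Lamp

variable {A : Act M}

noncomputable instance : Mul (SD A) := ⟨fun a b => ⟨a.g + A.a a.l b.g, a.l * b.l⟩⟩
instance : One (SD A) := ⟨⟨0, 1⟩⟩
noncomputable instance : _root_.Inv (SD A) := ⟨fun a => ⟨-A.a a.l⁻¹ a.g, a.l⁻¹⟩⟩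

@[simp] theorem SD.mul_g (a b : SD A) : (a * b).g = a.g + A.a a.l b.g := rfl
@[simp] theorem SD.mul_l (a b : SD A) : (a * b).l = a.l * b.l := rfl
@[simp] theorem SD.one_g : (1 : SD A).g = 0 := rfl
@[simp] theorem SD.one_l : (1 : SD A).l = 1 := rfl
@[simp] theorem SD.inv_g (a : SD A) : (a⁻¹).g = -A.a a.l⁻¹ a.g := rfl
@[simp] theorem SD.inv_l (a : SD A) : (a⁻¹).l = a.l⁻¹ := rfl

noncomputable instance : Group (SD A) :=
  Group.ofLeftAxioms
    (fun a b c => by
      apply SD.ext
      · simp [A.mul, add_assoc]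
      · simp [mul_assoc])
    (fun a => by apply SD.ext <;> simp [A.one])
    (fun a => by apply SD.ext <;> simp)

/-- Projection to the wreath product. -/
noncomputable def SD.toLamp : SD A →* Lamp where
  toFun a := a.l
  map_one' := rfl
  map_mul' _ _ := rfl

theorem SD.comm_of (a b : SD A) (ha : a.l = 1) (hb : b.l = 1) : a * b = b * a := by
  apply SD.ext <;> simp [ha, hb, A.one, add_comm]

theorem SD.der : derivedSeries (SD A) 3 = ⊥ := der_of SD.toLamp 2 Lamp.der SD.comm_of

theorem SD.tfr (h : ∀ (x : M) (n : ℕ), 0 < n → n • x = 0 → x = 0) : TFr (SD A) :=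
  tfr_of SD.toLamp Lamp.tfr fun g n hg hn e => by
    have hl : g.l = 1 := hg
    have h1 : ∀ n : ℕ, (g ^ n).g = n • g.g ∧ (g ^ n).l = 1 := by
      intro n
      induction n with
      | zero => simp
      | succ n ih => rw [pow_succ]; simp [ih.1, ih.2, hl, A.one, add_smul]
    refine SD.ext (h _ n hn ?_) hl
    rw [← (h1 n).1, e, SD.one_g]

theorem SD.conj_g (a x : SD A) (ha : a.l = 1) : (x * a * x⁻¹).g = A.a x.l a.g := by
  simp [ha, ← A.mul, A.one]

theorem SD.comm_g (a h : SD A) (ha : a.l = 1) : (⁅a, h⁆ : SD A).g = a.g - A.a h.l a.g := by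
  have e : ⁅a, h⁆ = a * (h * a⁻¹ * h⁻¹) := by rw [commutatorElement_def]; group
  rw [e, SD.mul_g, SD.conj_g _ _ (by simp [ha])]
  simp [ha, A.one, sub_eq_add_neg]

end Pool.Agent.P.MP_5f4fc7_al.TF
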