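import Pool.Agent.P.MP_5f4fc7_al.TFG1

set_option autoImplicit false

namespace Pool.Agent.P.MP_5f4fc7_al.TF

/-- Block lengths. -/
def r (j : ℕ) : ℤ := 8 * ((j : ℤ) + 1)

theorem r_ge (j : ℕ) : 8 ≤ r j := by
  unfold r
  have : (0 : ℤ) ≤ j := Int.natCast_nonneg j
  omega

/-- Periods. -/
def NN : ℕ → ℤ
  | 0 => 1
  | j + 1 => NN j * r j

theorem NN_pos (j : ℕ) : 0 < NN j := by
  induction j with
  | zero => exact one_pos
  | succ j ih => have := r_ge j; exact mul_pos ih (by omega)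

theorem dvd_NN (k : ℕ) (hk : 0 < k) (j : ℕ) (h : k ≤ j) : (k : ℤ) ∣ NN j := by
  induction h with
  | refl =>
    obtain ⟨k, rfl⟩ : ∃ k', k = k' + 1 := ⟨k - 1, by omega⟩
    exact Dvd.dvd.mul_left ⟨8, by unfold r; push_cast; ring⟩ _
  | step _ ih => exact Dvd.dvd.mul_right ih _

/-- Sequences of nonzero rationals. -/
abbrev S : Type := ℤ → ℚˣ

/-- The marker value. -/
def two : ℚˣ := Units.mk0 2 two_ne_zero

/-- One substitution step. -/
def Ex (j : ℕ) (f g : S) : S := fun n =>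
  if n % r j = 0 then two else if n % r j = 1 then f (n / r j) else
    if n % r j = 2 then g (n / r j) else if n % r j = 3 then (g (n / r j))⁻¹ else 1

theorem blk (b a σ : ℤ) (h0 : 0 ≤ σ) (h1 : σ < b) : (b * a + σ) % b = σ ∧ (b * a + σ) / b = a :=
  ⟨by rw [Int.mul_add_emod_self_left, Int.emod_eq_of_lt h0 h1],
    by rw [add_comm, Int.add_mul_ediv_left _ _ (by omega), Int.ediv_eq_zero_of_lt h0 h1, zero_add]⟩

theorem Ex_eq (j : ℕ) (f g : S) (a σ : ℤ) (h0 : 0 ≤ σ) (h1 : σ < r j) :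
    Ex j f g (r j * a + σ) = if σ = 0 then two else if σ = 1 then f a else
      if σ = 2 then g a else if σ = 3 then (g a)⁻¹ else 1 := by
  unfold Ex
  rw [(blk _ a σ h0 h1).1, (blk _ a σ h0 h1).2]

/-- Exponents of the two holes. -/
def η (σ : ℤ) : ℤ := if σ = 2 then 1 else if σ = 3 then -1 else 0

theorem Ex_mul (j : ℕ) (f g : S) (a σ : ℤ) (h0 : 0 ≤ σ) (h1 : σ < r j) :
    Ex j f g (r j * a + σ) = Ex j f 1 (r j * a + σ) * g a ^ η σ := by
  rw [Ex_eq j f g a σ h0 h1, Ex_eq j f 1 a σ h0 h1]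
  unfold η
  split_ifs <;> first | omega | simp

theorem exists_rec (c : S) : ∃ G : S, G 0 = 1 ∧ ∀ q, G (q + 1) = c q * G q := by
  refine ⟨fun q => (∏ i ∈ Finset.range q.toNat, c i) *
    (∏ i ∈ Finset.range (-q).toNat, c (-1 - i))⁻¹, by simp, fun q => ?_⟩
  rcases le_or_gt 0 q with h | h
  · obtain ⟨n, rfl⟩ := Int.eq_ofNat_of_zero_le h
    beta_reduce
    rw [show ((n : ℤ) + 1).toNat = n + 1 by omega, show (-((n : ℤ) + 1)).toNat = 0 by omega,
      show (-(n : ℤ)).toNat = 0 by omega, Int.toNat_natCast, Finset.prod_range_succ]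
    simp [mul_comm]
  · obtain ⟨n, rfl⟩ : ∃ n : ℕ, q = -1 - n := ⟨(-1 - q).toNat, by omega⟩
    beta_reduce
    rw [show (-1 - (n : ℤ) + 1).toNat = 0 by omega, show (-1 - (n : ℤ)).toNat = 0 by omega,
      show (-(-1 - (n : ℤ) + 1)).toNat = n by omega,
      show (-(-1 - (n : ℤ))).toNat = n + 1 by omega, Finset.prod_range_succ]
    simp

theorem uniq_rec {c G G' : S} (h : ∀ q, G (q + 1) = c q * G q) (h' : ∀ q, G' (q + 1) = c q * G' q)
    (h0 : G 0 = G' 0) (q : ℤ) : G q = G' q := by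
  induction q using Int.induction_on with
  | zero => exact h0
  | succ n ih => rw [h, h', ih]
  | pred n ih =>
    have a := h (-n - 1)
    have b := h' (-n - 1)
    rw [sub_add_cancel] at a b
    exact mul_left_cancel (a.symm.trans (ih.trans b))

theorem exists_int (θ : S) (k : ℤ) : ∃ Γ : S, 0 < k →
    (∀ m, Γ m = θ m * Γ (m - k)) ∧ ∀ ρ, 0 ≤ ρ → ρ < k → Γ (ρ - k) = 1 := by
  choose G h0 h1 using fun ρ : ℤ => exists_rec fun q => θ (k * q + ρ)
  refine ⟨fun m => G (m % k) (m / k + 1), fun hk => ⟨fun m => ?_, fun ρ a b => ?_⟩⟩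
  · obtain ⟨q, ρ, rfl, a, b⟩ := decomp m k hk
    beta_reduce
    rw [show k * q + ρ - k = k * (q - 1) + ρ by ring, (blk k q ρ a b).1, (blk k q ρ a b).2,
      (blk k (q - 1) ρ a b).1, (blk k (q - 1) ρ a b).2, h1, sub_add_cancel]
  · beta_reduce
    rw [show ρ - k = k * (-1) + ρ by ring, (blk k _ ρ a b).1, (blk k _ ρ a b).2]
    exact h0 _

/-- The normalised indefinite product with step `k`. -/
noncomputable def In (θ : S) (k : ℤ) : S := (exists_int θ k).choose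

theorem In_rec (θ : S) {k : ℤ} (hk : 0 < k) (m : ℤ) : In θ k m = θ m * In θ k (m - k) :=
  ((exists_int θ k).choose_spec hk).1 m

theorem In_base (θ : S) {k ρ : ℤ} (h0 : 0 ≤ ρ) (h1 : ρ < k) : In θ k (ρ - k) = 1 :=
  ((exists_int θ k).choose_spec (by omega)).2 ρ h0 h1

/-- Positive integers as units. -/
def cst (n : ℕ) : ℚˣ := Units.mk0 ((n : ℚ) + 1) (by positivity)

/-- Odd integers as units. -/
def odd (a : ℤ) : ℚˣ :=
  Units.mk0 ((2 * a + 1 : ℤ) : ℚ) (by exact_mod_cast (by omega : 2 * a + 1 ≠ 0))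

/-- The data written at level `j`. -/
noncomputable def task (j : ℕ) (θ : S) : S := fun a =>
  if j.unpair.1 = 0 then cst j.unpair.2
  else if j.unpair.2 < j.unpair.1 then
    In θ j.unpair.1 (NN (j + 1) * a - j.unpair.1 + j.unpair.2)
  else odd a

/-- The composite substitutions. -/
noncomputable def E : ℕ → S → S
  | 0 => fun g => g
  | j + 1 => fun g => E j (Ex j (task j (E j 1)) g)

/-- The data. -/
noncomputable def ff (j : ℕ) : S := task j (E j 1)

theorem dec_aux (j : ℕ) (n : ℤ) (h : n % r j = 2 ∨ n % r j = 3) :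
    (n / r j).natAbs < n.natAbs := by
  have hr := r_ge j
  have e := Int.mul_ediv_add_emod n (r j)
  rcases le_or_gt 0 (n / r j) with h | h
  · have : 8 * (n / r j) ≤ r j * (n / r j) := by nlinarith
    omega
  · have : r j * (n / r j) ≤ 8 * (n / r j) := by nlinarith
    omega

/-- The limit sequences. -/
noncomputable def ψ (j : ℕ) (n : ℤ) : ℚˣ :=
  if _h1 : n % r j = 2 then ψ (j + 1) (n / r j)
  else if _h2 : n % r j = 3 then (ψ (j + 1) (n / r j))⁻¹ else Ex j (ff j) 1 n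
termination_by n.natAbs
decreasing_by
  · exact dec_aux j n (Or.inl _h1)
  · exact dec_aux j n (Or.inr _h2)

theorem ψ_eq (j : ℕ) : ψ j = Ex j (ff j) (ψ (j + 1)) := by
  funext n
  rw [ψ]
  unfold Ex
  split_ifs <;> first | omega | rfl

theorem ψ_zero (j : ℕ) : ψ 0 = E j (ψ j) := by
  induction j with
  | zero => rfl
  | succ j ih => rw [ih, ψ_eq j]; rfl

theorem split_blk (j : ℕ) (ρ : ℤ) (h0 : 0 ≤ ρ) (h1 : ρ < NN (j + 1)) :
    ∃ σ ρ', ρ = NN j * σ + ρ' ∧ 0 ≤ ρ' ∧ ρ' < NN j ∧ 0 ≤ σ ∧ σ < r j := by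
  have hN := NN_pos j
  obtain ⟨σ, ρ', rfl, g0, g1⟩ := decomp ρ (NN j) hN
  refine ⟨σ, ρ', rfl, g0, g1, ?_, ?_⟩
  · by_contra hh
    have : σ ≤ -1 := by omega
    nlinarith
  · by_contra hh
    have : r j ≤ σ := by omega
    simp only [NN] at h1
    nlinarith

theorem E_mul (j : ℕ) : ∃ ε : ℤ → ℤ, ∀ (g : S) (a ρ : ℤ), 0 ≤ ρ → ρ < NN j →
    E j g (NN j * a + ρ) = E j 1 (NN j * a + ρ) * g a ^ ε ρ := by
  induction j with
  | zero =>
    refine ⟨fun _ => 1, fun g a ρ h0 h1 => ?_⟩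
    have : ρ = 0 := by simp only [NN] at h1; omega
    simp [E, NN, this]
  | succ j ih =>
    obtain ⟨ε, hε⟩ := ih
    refine ⟨fun ρ => η (ρ / NN j) * ε (ρ % NN j), fun g a ρ h0 h1 => ?_⟩
    obtain ⟨σ, ρ', rfl, g0, g1, s0, s1⟩ := split_blk j ρ h0 h1
    have e : NN (j + 1) * a + (NN j * σ + ρ') = NN j * (r j * a + σ) + ρ' := by
      simp only [NN]; ring
    beta_reduce
    rw [e, (blk _ σ ρ' g0 g1).1, (blk _ σ ρ' g0 g1).2]
    show E j (Ex j (ff j) g) _ = E j (Ex j (ff j) 1) _ * _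
    rw [hε (Ex j (ff j) g) _ _ g0 g1, hε (Ex j (ff j) 1) _ _ g0 g1, Ex_mul j _ g a σ s0 s1,
      mul_zpow, ← zpow_mul, mul_assoc]

theorem agree (j : ℕ) {k ρ : ℤ} (hd : k ∣ NN j) (h0 : 0 ≤ ρ) (h1 : ρ < k) (a : ℤ) :
    In (ψ 0) k (NN (j + 1) * a - k + ρ) = In (E (j + 1) 1) k (NN (j + 1) * a - k + ρ) := by
  have hk : 0 < k := by omega
  have hr := r_ge j
  have hN := NN_pos j
  obtain ⟨ε, hε⟩ := E_mul j
  obtain ⟨L, hL⟩ := hd
  have hL0 : 0 < L := by
    by_contra h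
    have : L ≤ 0 := by omega
    nlinarith
  let Γ : S := fun m => In (ψ 0) k m / In (E (j + 1) 1) k m
  let h : S := fun c => ψ (j + 1) (c / r j) ^ η (c % r j)
  have hΓ : ∀ c ρ', 0 ≤ ρ' → ρ' < NN j →
      Γ (NN j * c + ρ') = h c ^ ε ρ' * Γ (NN j * c + ρ' - k) := by
    intro c ρ' g0 g1
    obtain ⟨a, σ, rfl, s0, s1⟩ := decomp c (r j) (by omega)
    have e1 : ψ 0 (NN j * (r j * a + σ) + ρ') =
        E (j + 1) 1 (NN j * (r j * a + σ) + ρ') * h (r j * a + σ) ^ ε ρ' := by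
      show _ = E j (Ex j (ff j) 1) _ * (ψ (j + 1) (_ / r j) ^ η (_ % r j)) ^ ε ρ'
      rw [ψ_zero j, ψ_eq j, hε (Ex j (ff j) _) _ _ g0 g1, hε (Ex j (ff j) 1) _ _ g0 g1,
        Ex_mul j _ _ a σ s0 s1, (blk _ a σ s0 s1).1, (blk _ a σ s0 s1).2, mul_zpow, mul_assoc]
    show In (ψ 0) k _ / In (E (j + 1) 1) k _ = _ * (In (ψ 0) k _ / In (E (j + 1) 1) k _)
    rw [In_rec (ψ 0) hk, In_rec (E (j + 1) 1) hk, e1, mul_assoc, mul_div_mul_left_eq_div,
      mul_div_assoc]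
  have steps : ∀ (c : ℤ) (i : ℕ), (i : ℤ) ≤ L → Γ (NN j * c - k + ρ + i * k) =
      h c ^ (∑ i' ∈ Finset.range i, ε (ρ + i' * k)) * Γ (NN j * c - k + ρ) := by
    intro c i
    induction i with
    | zero => intro _; simp
    | succ i ih =>
      intro hi
      push_cast at hi
      have hi0 : (0 : ℤ) ≤ i := Int.natCast_nonneg i
      rw [show NN j * c - k + ρ + ((i + 1 : ℕ) : ℤ) * k = NN j * c + (ρ + i * k) by push_cast; ring,
        hΓ c _ (by positivity) (by nlinarith),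
        show NN j * c + (ρ + i * k) - k = NN j * c - k + ρ + i * k by ring, ih (by omega),
        Finset.sum_range_succ, zpow_add, ← mul_assoc, mul_comm (h c ^ _)]
  set Λ := ∑ i' ∈ Finset.range L.toNat, ε (ρ + i' * k)
  have key := uniq_rec (c := fun c => h c ^ Λ) (G := fun c => Γ (NN j * c - k + ρ))
    (G' := fun c => if c % r j = 3 then ψ (j + 1) (c / r j) ^ Λ else 1) (fun c => by
      rw [← steps c L.toNat (by omega), Int.toNat_of_nonneg hL0.le]
      congr 1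
      rw [hL]; ring) (fun c => by
      obtain ⟨a, σ, rfl, s0, s1⟩ := decomp c (r j) (by omega)
      show _ = (ψ (j + 1) (_ / r j) ^ η (_ % r j)) ^ Λ * _
      rw [(blk _ a σ s0 s1).1, (blk _ a σ s0 s1).2]
      by_cases hσ : σ + 1 < r j
      · rw [add_assoc, (blk _ a (σ + 1) (by omega) hσ).1, (blk _ a (σ + 1) (by omega) hσ).2]
        unfold η
        split_ifs <;> first | omega | simp
      · rw [show r j * a + σ + 1 = r j * (a + 1) + 0 by
          rw [show σ = r j - 1 by omega]; ring, (blk _ (a + 1) 0 le_rfl (by omega)).1]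
        unfold η
        split_ifs <;> first | omega | simp) (by
      show In (ψ 0) k _ / In (E (j + 1) 1) k _ = _
      rw [show NN j * 0 - k + ρ = ρ - k by ring, In_base _ h0 h1, In_base _ h0 h1]
      simp) (r j * a)
  beta_reduce at key
  rw [Int.mul_emod_right, if_neg (by omega), ← mul_assoc] at key
  exact div_eq_one.mp key

theorem ff_int (k ρ : ℕ) (h : ρ < k) (a : ℤ) :
    ff (Nat.pair k ρ) a = In (ψ 0) k (NN (Nat.pair k ρ + 1) * a - k + ρ) := by
  have h1 : k + 1 ≤ Nat.pair k ρ := by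
    rw [Nat.pair, if_neg (by omega)]
    nlinarith
  obtain ⟨j, hj⟩ : ∃ j, Nat.pair k ρ = j + 1 := ⟨Nat.pair k ρ - 1, by omega⟩
  unfold ff task
  rw [Nat.unpair_pair, if_neg (by simp only; omega), if_pos h, hj]
  have := agree j (dvd_NN k (by omega) j (by omega)) (Int.natCast_nonneg ρ)
    (by exact_mod_cast h) (r (j + 1) * a)
  rw [← mul_assoc] at this
  exact this.symm

theorem ff_cst (n : ℕ) (a : ℤ) : ff (Nat.pair 0 n) a = cst n := by
  unfold ff task
  rw [Nat.unpair_pair, if_pos rfl]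

theorem ff_odd (a : ℤ) : ff (Nat.pair 1 1) a = odd a := by
  unfold ff task
  rw [Nat.unpair_pair, if_neg (by simp), if_neg (by simp)]

theorem ψ_mark (j : ℕ) (n : ℤ) :
    (((ψ j n : ℚˣ) : ℚ) - 1) * (2 - ψ j (n - 1)) * (2 - ψ j (n - 2)) * (2 - ψ j (n - 3)) =
      if r j ∣ n then 1 else 0 := by
  have hr := r_ge j
  obtain ⟨a, σ, rfl, h0, h1⟩ := decomp n (r j) (by omega)
  have v0 : ∀ a, ((ψ j (r j * a + 0) : ℚˣ) : ℚ) = 2 := fun a => by
    rw [ψ_eq j, Ex_eq j _ _ a 0 le_rfl (by omega), if_pos rfl]; rfl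
  have v1 : ∀ a σ, 4 ≤ σ → σ < r j → ((ψ j (r j * a + σ) : ℚˣ) : ℚ) = 1 := fun a σ s0 s1 => by
    rw [ψ_eq j, Ex_eq j _ _ a σ (by omega) s1, if_neg (by omega), if_neg (by omega),
      if_neg (by omega), if_neg (by omega)]; rfl
  by_cases hσ : σ = 0
  · subst hσ
    rw [if_pos ⟨a, by ring⟩, v0,
      show r j * a + 0 - 1 = r j * (a - 1) + (r j - 1) by ring, v1 _ _ (by omega) (by omega),
      show r j * a + 0 - 2 = r j * (a - 1) + (r j - 2) by ring, v1 _ _ (by omega) (by omega),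
      show r j * a + 0 - 3 = r j * (a - 1) + (r j - 3) by ring, v1 _ _ (by omega) (by omega)]
    norm_num
  · rw [if_neg fun hd => hσ (Int.eq_zero_of_dvd_of_nonneg_of_lt h0 h1
      ((dvd_add_right (Dvd.intro _ rfl)).mp hd))]
    by_cases h4 : 4 ≤ σ
    · rw [v1 a σ h4 h1]; ring
    · have : σ = 1 ∨ σ = 2 ∨ σ = 3 := by omega
      rcases this with rfl | rfl | rfl
      · rw [show r j * a + 1 - 1 = r j * a + 0 by ring, v0]; ring
      · rw [show r j * a + 2 - 2 = r j * a + 0 by ring, v0]; ring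
      · rw [show r j * a + 3 - 3 = r j * a + 0 by ring, v0]; ring

end Pool.Agent.P.MP_5f4fc7_al.TF
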