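import Pool.Agent.P.MP_5f4fc7_al.Len

set_option autoImplicit false

namespace Pool.Agent.P.MP_5f4fc7_al.VariantDerivedLengthThree

open Pool.Agent.P.MP_5f4fc7_al

theorem result :
    IsLeast {d : ℕ | ∃ (G : Type) (_ : Group G),
      derivedSeries G d = ⊥ ∧
      (∀ f : ℕ → Subgroup G, (∀ n, (f n).Normal) → Monotone f →
        ∃ n, ∀ m, n ≤ m → f m = f n) ∧
      (∀ H : Subgroup G, Group.IsNilpotent (↥H) →
        ∃ K : Subgroup G, Group.IsNilpotent (↥K) ∧ H < K)} 3 := by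
  constructor
  · refine ⟨FP κ0 κ1, inferInstance, der_FP, fun f hf hm => ?_, fun H hH => ?_⟩
    · obtain ⟨n, hn⟩ := fp_acc κ0 κ1 κ0_surj κ1_surj acc0 acc1 f hf hm
      exact ⟨n, fun m h => le_antisymm (fun x hx => hn m h x hx trivial) (hm h)⟩
    · obtain ⟨K, h1, h2⟩ := fp_nomax κ0 κ1 prop0 prop1 H ((nil_iff H).mpr hH)
      exact ⟨K, (nil_iff K).mp h1, h2⟩
  · rintro d ⟨G, _, hd, hacc, hno⟩
    by_contra hlt
    exact metabelian_max (der_mono hd (by omega)) hacc hno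

end Pool.Agent.P.MP_5f4fc7_al.VariantDerivedLengthThree
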